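import Pool.Agent.Lib.SubBisF.Law

/-!
# SubBisF.Cmp (1.5 h): the value of the comparator

PROOF. `CV U = run (phF ε F bet) (LL bet) (fun S => ∑ v, ee (U v) φb_v(S)(U v) - c F(S) - c κ ∑ v |φb_v(S)(U v) - φp_v(S)(U v)|) ∅ U` with
`φb_v(S) = ph ε (pv F v (Rb bet v) S)`, `φp_v = phF ε F bet v`. (ii): `yx ε F bet v (U v) U` is `run .. (fun S => φb_v(S)(U v)) ∅ U`; linearity;
`∑ g_v φb_v ≤ ∑ g_v φp_v + κ ∑ |φb_v - φp_v|` pointwise, `run (φp_v(S)(U v)) = run (1_(v ∈ S))` (`run_ind`), `∑_(v ∈ S) g_v ≤ F S`.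
(i): `av_yx`, `av_run_LL`: `av CV = ∑ v EG (av_u ee φb_v) - c EG F - c κ ∑ v EG (av_u |φb_v - φp_v|)`; `ph_gain`, `SubBisB.EG_h2_mono`, `SubBisB.chain`,
`av_abs_ph`, `SubBisB.EG_abs_pv_sub`.
-/

set_option autoImplicit false

open scoped BigOperators

namespace Pool.Agent.Lib.SubBisF

open Finset SubBis Pool.Agent.Lib.SubBisX.Reg Pool.Agent.Lib.SubBisX.Core
open Pool.Agent.Lib.SubBisX
open Pool.Agent.Lib.SubBisE (agr ker cl gam vl xt Okd)
open Pool.Agent.Lib.SubBisB (wt2 ZF EG pv Rb Rp psi)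

variable {n k m B R : ℕ}

/-- the function of the process whose mean is the value of the comparator -/
noncomputable def cvr (c κ : ℕ) (ε : ℝ) (F : Finset (Fin k) → ℤ) (bet : Fin k → Fin B)
    (U : Fin k → Fin m) (S : Finset (Fin k)) : ℝ :=
  (∑ v, (ee m c (U v) : ℝ) * ph ε (pv F v (Rb bet v) S) (U v)) - (c : ℝ) * (F S : ℝ) -
    (c : ℝ) * κ * ∑ v, |ph ε (pv F v (Rb bet v) S) (U v) - phF ε F bet v S (U v)|

theorem phF_mem (ε : ℝ) (F : Finset (Fin k) → ℤ) (bet : Fin k → Fin B) :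
    ∀ (v : Fin k) (z : Finset (Fin k)) (u : Fin m),
      0 ≤ phF ε F bet v z u ∧ phF ε F bet v z u ≤ 1 :=
  fun _ _ _ => ⟨ph_nonneg _ _ _, ph_le_one _ _ _⟩

/-- the mean of the comparator -/
theorem av_cvr [NeZero m] (hm : 2 ≤ m) (c κ : ℕ) {ε : ℝ} (h0 : 0 ≤ ε) (h1 : ε ≤ 1 / 16)
    (F : Finset (Fin k) → ℤ) (bet : Fin k → Fin B) :
    c * Bounds.logZ F - k * lossP m c ε - c * κ * gap F bet ≤
      av fun U : Fin k → Fin m => run (phF ε F bet) (LL bet) (cvr c κ ε F bet U) ∅ U := by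
  -- the three parts
  have hdb : ∀ v : Fin k, SubBisB.Dep (Rp bet v) fun S => pv F v (Rb bet v) S := fun v =>
    SubBisB.Dep.mono (SubBisB.Rb_subset_Rp bet v) (SubBisB.dep_pv v (Rb bet v))
  have e1 : ∀ U : Fin k → Fin m, run (phF ε F bet) (LL bet) (cvr c κ ε F bet U) ∅ U =
      (∑ v, run (phF ε F bet) (LL bet)
        (fun S => (ee m c (U v) : ℝ) * ph ε (pv F v (Rb bet v) S) (U v)) ∅ U) -
      (c : ℝ) * run (phF ε F bet) (LL bet) (fun S => (F S : ℝ)) ∅ U -
      (c : ℝ) * κ * ∑ v, run (phF ε F bet) (LL bet)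
        (fun S => |ph ε (pv F v (Rb bet v) S) (U v) - phF ε F bet v S (U v)|) ∅ U := by
    intro U
    unfold cvr
    rw [run_sub, run_sub, run_smul, run_smul, run_sum, run_sum]
  have e2 : (av fun U : Fin k → Fin m => run (phF ε F bet) (LL bet) (cvr c κ ε F bet U) ∅ U) =
      (∑ v, EG F fun S => av fun u : Fin m => (ee m c u : ℝ) * ph ε (pv F v (Rb bet v) S) u) -
      (c : ℝ) * EG F (fun S => (F S : ℝ)) -
      (c : ℝ) * κ * ∑ v, EG F fun S => av fun u : Fin m =>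
        |ph ε (pv F v (Rb bet v) S) u - phF ε F bet v S u| := by
    have e3 : (fun U : Fin k → Fin m => run (phF ε F bet) (LL bet) (cvr c κ ε F bet U) ∅ U) =
        fun U => (∑ v, run (phF ε F bet) (LL bet)
          (fun S => (ee m c (U v) : ℝ) * ph ε (pv F v (Rb bet v) S) (U v)) ∅ U) -
        (c : ℝ) * run (phF ε F bet) (LL bet) (fun S => (F S : ℝ)) ∅ U -
        (c : ℝ) * κ * ∑ v, run (phF ε F bet) (LL bet)
          (fun S => |ph ε (pv F v (Rb bet v) S) (U v) - phF ε F bet v S (U v)|) ∅ U :=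
      funext e1
    rw [e3, av_sub, av_sub, av_smul, av_smul, av_sum, av_sum, av_run_LL h0 h1]
    congr 1
    · congr 1
      refine sum_congr rfl fun v _ => ?_
      refine av_yx h0 h1 F bet v (s := fun S u => (ee m c u : ℝ) * ph ε (pv F v (Rb bet v) S) u)
        fun u S S' hS => ?_
      show (ee m c u : ℝ) * ph ε (pv F v (Rb bet v) S) u =
        (ee m c u : ℝ) * ph ε (pv F v (Rb bet v) S') u
      rw [show pv F v (Rb bet v) S = pv F v (Rb bet v) S' from hdb v S S' hS]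
    · congr 1
      refine sum_congr rfl fun v _ => ?_
      refine av_yx h0 h1 F bet v
        (s := fun S u => |ph ε (pv F v (Rb bet v) S) u - phF ε F bet v S u|)
        fun u S S' hS => ?_
      show |ph ε (pv F v (Rb bet v) S) u - phF ε F bet v S u| =
        |ph ε (pv F v (Rb bet v) S') u - phF ε F bet v S' u|
      rw [show pv F v (Rb bet v) S = pv F v (Rb bet v) S' from hdb v S S' hS,
        show phF ε F bet v S u = phF ε F bet v S' u from dep_phF ε F bet v u S S' hS]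
  have b1 : ∀ v : Fin k, (c : ℝ) * EG F (fun S => h2 (pv F v (Rp bet v) S)) - lossP m c ε ≤
      EG F fun S => av fun u : Fin m => (ee m c u : ℝ) * ph ε (pv F v (Rb bet v) S) u := by
    intro v
    have g1 : EG F (fun S => (c : ℝ) * h2 (pv F v (Rb bet v) S) - lossP m c ε) ≤
        EG F fun S => av fun u : Fin m => (ee m c u : ℝ) * ph ε (pv F v (Rb bet v) S) u :=
      SubBisB.EG_mono fun S => ph_gain hm c h0 h1 (SubBisB.pv_nonneg _ _ _)
        (SubBisB.pv_le_one _ _ _)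
    rw [SubBisB.EG_sub, SubBisB.EG_smul, SubBisB.EG_const] at g1
    have g2 := mul_le_mul_of_nonneg_left
      (SubBisB.EG_h2_mono (F := F) (SubBisB.Rb_subset_Rp bet v) v)
      (Nat.cast_nonneg (α := ℝ) c)
    linarith
  have b2 : ∀ v : Fin k, (EG F fun S => av fun u : Fin m =>
      |ph ε (pv F v (Rb bet v) S) u - phF ε F bet v S u|) ≤
        Real.sqrt (psi F v (Rp bet v) - psi F v (Rb bet v)) := by
    intro v
    refine le_trans (le_of_eq ?_) (SubBisB.EG_abs_pv_sub (SubBisB.Rb_subset_Rp bet v) v)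
    refine congrArg (EG F) (funext fun S => ?_)
    unfold phF
    rw [av_abs_ph h0 h1 (SubBisB.pv_nonneg _ _ _) (SubBisB.pv_le_one _ _ _)
      (SubBisB.pv_nonneg _ _ _) (SubBisB.pv_le_one _ _ _), abs_sub_comm]
  have s1 := sum_le_sum fun v (_ : v ∈ (univ : Finset (Fin k))) => b1 v
  rw [sum_sub_distrib, ← mul_sum, SubBisB.chain, sum_const, card_univ, Fintype.card_fin,
    nsmul_eq_mul] at s1
  have s2 := sum_le_sum fun v (_ : v ∈ (univ : Finset (Fin k))) => b2 v
  have s3 := mul_le_mul_of_nonneg_left s2 (by positivity : (0 : ℝ) ≤ (c : ℝ) * κ)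
  rw [e2]
  unfold gap
  linarith

theorem comparatorF [NeZero m] (hm : 2 ≤ m) (c κ : ℕ) {ε : ℝ} (h0 : 0 ≤ ε) (h1 : ε ≤ 1 / 16)
    (F : Finset (Fin k) → ℤ) (bet : Fin k → Fin B) :
    ∃ CV : (Fin k → Fin m) → ℝ,
      (c * Bounds.logZ F - k * lossP m c ε - c * κ * gap F bet ≤ av CV) ∧
      ∀ (U : Fin k → Fin m) (g : Fin k → ℝ), (∀ S : Finset (Fin k), ∑ v ∈ S, g v ≤ F S) →
        (∀ v, |g v| ≤ κ) →
          CV U ≤ ∑ v, ((ee m c (U v) : ℝ) - c * g v) * yx ε F bet v (U v) U := by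
  refine ⟨fun U => run (phF ε F bet) (LL bet) (cvr c κ ε F bet U) ∅ U,
    av_cvr hm c κ h0 h1 F bet, ?_⟩
  intro U g hg hκ
  -- the right side is the mean of a function of the process
  have e1 : (∑ v, ((ee m c (U v) : ℝ) - c * g v) * yx ε F bet v (U v) U) =
      run (phF ε F bet) (LL bet)
        (fun S => ∑ v, ((ee m c (U v) : ℝ) - c * g v) * ph ε (pv F v (Rb bet v) S) (U v)) ∅ U := by
    rw [run_sum]
    refine sum_congr rfl fun v _ => ?_
    rw [run_smul]
    rfl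
  -- the mean of `g(S)` is the mean of the sum of `g v` times the decision
  have e2 : run (phF ε F bet) (LL bet) (fun S => ∑ v, g v * phF ε F bet v S (U v)) ∅ U =
      run (phF ε F bet) (LL bet) (fun S => ∑ v ∈ S, g v) ∅ U := by
    have e3 : (fun S : Finset (Fin k) => ∑ v ∈ S, g v) =
        fun S => ∑ v, g v * (if v ∈ S then 1 else 0) := by
      funext S
      simp only [mul_ite, mul_one, mul_zero, sum_ite_mem, univ_inter]
    rw [e3, run_sum, run_sum]
    refine sum_congr rfl fun v _ => ?_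
    rw [run_smul, run_smul, run_ind (dep_phF ε F bet) (seg_LL bet) (Finset.Subset.refl ∅)
      (notMem_empty v) U]
  have e4 : run (phF ε F bet) (LL bet) (fun S => ∑ v ∈ S, g v) ∅ U ≤
      run (phF ε F bet) (LL bet) (fun S => (F S : ℝ)) ∅ U :=
    run_mono (phF_mem ε F bet) _ hg _ _
  rw [e1]
  have e5 : run (phF ε F bet) (LL bet) (cvr c κ ε F bet U) ∅ U +
      (c : ℝ) * run (phF ε F bet) (LL bet) (fun S => (F S : ℝ)) ∅ U ≤
      run (phF ε F bet) (LL bet)
        (fun S => ∑ v, ((ee m c (U v) : ℝ) - c * g v) * ph ε (pv F v (Rb bet v) S) (U v)) ∅ U +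
      (c : ℝ) * run (phF ε F bet) (LL bet) (fun S => ∑ v, g v * phF ε F bet v S (U v)) ∅ U := by
    rw [← run_smul, ← run_smul, ← run_add, ← run_add]
    refine run_mono (phF_mem ε F bet) _ (fun S => ?_) _ _
    unfold cvr
    have h2 : (∑ v, ((ee m c (U v) : ℝ) - c * g v) * ph ε (pv F v (Rb bet v) S) (U v)) +
        (c : ℝ) * ∑ v, g v * phF ε F bet v S (U v) =
        ∑ v, ((ee m c (U v) : ℝ) * ph ε (pv F v (Rb bet v) S) (U v) +
          (c : ℝ) * (g v * (phF ε F bet v S (U v) - ph ε (pv F v (Rb bet v) S) (U v)))) := by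
      rw [mul_sum, ← sum_add_distrib]
      refine sum_congr rfl fun v _ => ?_
      ring
    have h3 : (∑ v, (ee m c (U v) : ℝ) * ph ε (pv F v (Rb bet v) S) (U v)) -
        (c : ℝ) * (F S : ℝ) -
        (c : ℝ) * κ * (∑ v, |ph ε (pv F v (Rb bet v) S) (U v) - phF ε F bet v S (U v)|) +
        (c : ℝ) * (F S : ℝ) =
        ∑ v, ((ee m c (U v) : ℝ) * ph ε (pv F v (Rb bet v) S) (U v) -
          (c : ℝ) * (κ * |ph ε (pv F v (Rb bet v) S) (U v) - phF ε F bet v S (U v)|)) := by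
      rw [sum_sub_distrib, ← mul_sum, ← mul_sum]
      ring
    rw [h2, h3]
    refine sum_le_sum fun v _ => ?_
    have h4 : -(κ * |ph ε (pv F v (Rb bet v) S) (U v) - phF ε F bet v S (U v)|) ≤
        g v * (phF ε F bet v S (U v) - ph ε (pv F v (Rb bet v) S) (U v)) := by
      have h5 : |g v * (phF ε F bet v S (U v) - ph ε (pv F v (Rb bet v) S) (U v))| ≤
          κ * |ph ε (pv F v (Rb bet v) S) (U v) - phF ε F bet v S (U v)| := by
        rw [abs_mul, abs_sub_comm (phF ε F bet v S (U v))]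
        exact mul_le_mul_of_nonneg_right (hκ v) (abs_nonneg _)
      exact (neg_le_neg h5).trans (neg_abs_le _)
    have h6 := mul_le_mul_of_nonneg_left h4 (Nat.cast_nonneg (α := ℝ) c)
    linarith
  rw [e2] at e5
  have e6 := mul_le_mul_of_nonneg_left e4 (Nat.cast_nonneg (α := ℝ) c)
  linarith

/-- the mean gap -/
theorem av_gap (hB : 0 < B) (F : Finset (Fin k) → ℤ) :
    (av fun bet : Fin k → Fin B => gap F bet) ≤ k / Real.sqrt B :=
  SubBisB.label_av hB (fun v R => psi F v R) (fun v R => SubBisB.psi_nonneg v R)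
    (fun v R => SubBisB.psi_le_one v R) fun v _ _ h => SubBisB.psi_mono h v

end Pool.Agent.Lib.SubBisF
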