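import Pool.Agent.Lib.SubBisF.Defs

/-!
# SubBisF.Phi (1.5 h): one digit

PROOF. `av_stp`: `∑_(u < m) max 0 (min 1 (t m - u)) = t m` for `t ∈ [0,1]` (with `T = ⌊t m⌋`: `T` ones, then `t m - T`, then zeros; or:
`max 0 (min 1 (x - u)) = x⁺∧(u+1) - x∧u` telescopes: `min x (u+1) - min x u` for `x ≥ 0`).
With `a = 4 ε p (1 - p)`: `0 ≤ p - a`, `p + a ≤ 1` (`4 ε ≤ 1/4`), so `av_ph`. `okd_ph`: `s1 = stp (p-a) ≤ s2 = stp (p+a)`, `ph² ≤ (3 s1 + s2)/4`,
mean `p - a/2`, `(1+ε)² (p (1-p) - a/2) = (1+ε)² (1 - 2ε) p (1-p) ≤ p (1-p)`. `ph_mono`: `p ∓ a` is monotone in `p`: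
`(p' ∓ a') - (p ∓ a) = (p' - p)(1 ∓ 4 ε (1 - p - p')) ≥ 0`. `ph_gain`: for one step: `av ee stp t ≥ c h2 t - c dl m - 1`:
linear interpolation between `k = ⌊t m⌋` and `k + 1` of `Sm.sum_ee_ge`, `Sm.h2_interp` (as in `Sm.gain_ge`, `SubBisB/SamDig.lean`).
Then `(h2 (p-a) + h2 (p+a))/2 ≥ h2 p - 8 ε²`: `ln (1 + t) ≤ t` gives `-(p+a) ln(p+a) - (p-a) ln(p-a) ≥ -2 p ln p - 2 a²/p`,
the same for `1 - p`; sum `2 a²/(p(1-p)) = 32 ε² p (1-p) ≤ 8 ε²`, half of it is `4 ε²`, divide by `ln 2 ≥ 1/2`.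
-/

set_option autoImplicit false

open scoped BigOperators

namespace Pool.Agent.Lib.SubBisF

open Finset SubBis Pool.Agent.Lib.SubBisX.Reg Pool.Agent.Lib.SubBisX.Core
open Pool.Agent.Lib.SubBisX
open Pool.Agent.Lib.SubBisE (agr ker cl gam vl xt Okd)
open Pool.Agent.Lib.SubBisB (wt2 ZF EG pv Rb Rp psi)

variable {n k m B R : ℕ}

theorem stp_nonneg (t : ℝ) (u : Fin m) : 0 ≤ stp m t u := le_max_left _ _

theorem stp_le_one (t : ℝ) (u : Fin m) : stp m t u ≤ 1 :=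
  max_le zero_le_one (min_le_left _ _)

theorem stp_mono {t t' : ℝ} (h : t ≤ t') (u : Fin m) : stp m t u ≤ stp m t' u := by
  unfold stp
  have h1 : t * m ≤ t' * m := mul_le_mul_of_nonneg_right h (Nat.cast_nonneg m)
  exact max_le_max le_rfl (min_le_min le_rfl (by linarith))

/-- the position of the step -/
theorem exists_pos (hm : 0 < m) {t : ℝ} (h0 : 0 ≤ t) (h1 : t ≤ 1) :
    ∃ (j : ℕ) (θ : ℝ), j + 1 ≤ m ∧ 0 ≤ θ ∧ θ ≤ 1 ∧ t * m = j + θ := by
  have hm' : (0 : ℝ) < m := by exact_mod_cast hm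
  have hx0 : 0 ≤ t * m := by positivity
  have hxm : t * m ≤ m := by nlinarith
  rcases Nat.lt_or_ge ⌊t * m⌋₊ m with h | h
  · refine ⟨⌊t * m⌋₊, t * m - ⌊t * m⌋₊, h, ?_, ?_, by ring⟩
    · linarith [Nat.floor_le hx0]
    · linarith [Nat.lt_floor_add_one (t * m)]
  · have h2 : (m : ℝ) ≤ t * m := by
      have h3 : (m : ℝ) ≤ (⌊t * m⌋₊ : ℕ) := by exact_mod_cast h
      exact h3.trans (Nat.floor_le hx0)
    refine ⟨m - 1, 1, by omega, zero_le_one, le_rfl, ?_⟩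
    have h3 : ((m - 1 : ℕ) : ℝ) = m - 1 := by
      rw [Nat.cast_sub hm]
      simp
    rw [h3]
    linarith

/-- a weighted sum over the step function -/
theorem sum_stp (f : ℕ → ℝ) {j : ℕ} (hj : j + 1 ≤ m) {t θ : ℝ} (h0 : 0 ≤ θ) (h1 : θ ≤ 1)
    (ht : t * m = j + θ) : ∑ u : Fin m, f u * stp m t u = ∑ u ∈ range j, f u + θ * f j := by
  have e1 : ∑ u : Fin m, f u * stp m t u =
      ∑ u ∈ range m, f u * max 0 (min 1 (t * m - (u : ℕ))) := by
    rw [← Fin.sum_univ_eq_sum_range (fun u : ℕ => f u * max 0 (min 1 (t * m - (u : ℕ)))) m]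
    rfl
  obtain ⟨d, hd⟩ := Nat.exists_eq_add_of_le hj
  have hmr : (m : ℕ) = (j + 1) + d := hd
  rw [e1, ht]
  rw [show range m = range ((j + 1) + d) by rw [← hmr], sum_range_add, sum_range_succ]
  have e2 : ∑ x ∈ range j, f x * max 0 (min 1 ((j : ℝ) + θ - (x : ℕ))) = ∑ x ∈ range j, f x := by
    refine sum_congr rfl fun x hx => ?_
    rw [mem_range] at hx
    have : (x : ℝ) + 1 ≤ j := by exact_mod_cast hx
    rw [min_eq_left (by linarith), max_eq_right zero_le_one, mul_one]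
  have e3 : f j * max 0 (min 1 ((j : ℝ) + θ - (j : ℕ))) = θ * f j := by
    have : (j : ℝ) + θ - (j : ℕ) = θ := by ring
    rw [this, min_eq_right h1, max_eq_right h0, mul_comm]
  have e4 : ∑ x ∈ range d, f (j + 1 + x) * max 0 (min 1 ((j : ℝ) + θ - ((j + 1 + x : ℕ) : ℝ))) =
      0 := by
    refine sum_eq_zero fun x _ => ?_
    have : (0 : ℝ) ≤ x := Nat.cast_nonneg x
    rw [max_eq_left, mul_zero]
    refine (min_le_right _ _).trans ?_
    push_cast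
    linarith
  rw [e2, e3, e4, add_zero]

theorem av_stp [NeZero m] {t : ℝ} (h0 : 0 ≤ t) (h1 : t ≤ 1) : (av fun u : Fin m => stp m t u) = t := by
  have hm : 0 < m := Nat.pos_of_ne_zero (NeZero.ne m)
  have hm' : (0 : ℝ) < m := by exact_mod_cast hm
  obtain ⟨j, θ, hj, a0, a1, ht⟩ := exists_pos hm h0 h1
  have h := sum_stp (m := m) (fun _ => 1) hj a0 a1 ht
  simp only [one_mul, mul_one, sum_const, card_range, nsmul_eq_mul] at h
  unfold av
  rw [h, Fintype.card_fin, ← ht]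
  field_simp

theorem ph_nonneg (ε p : ℝ) (u : Fin m) : 0 ≤ ph ε p u := by
  unfold ph
  have h1 := stp_nonneg (p - 4 * ε * p * (1 - p)) u
  have h2 := stp_nonneg (p + 4 * ε * p * (1 - p)) u
  linarith

theorem ph_le_one (ε p : ℝ) (u : Fin m) : ph ε p u ≤ 1 := by
  unfold ph
  have h1 := stp_le_one (p - 4 * ε * p * (1 - p)) u
  have h2 := stp_le_one (p + 4 * ε * p * (1 - p)) u
  linarith

/-- the two positions are in the unit interval -/
theorem pos_bd {ε p : ℝ} (h0 : 0 ≤ ε) (h1 : ε ≤ 1 / 16) (hp : 0 ≤ p) (hp1 : p ≤ 1) :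
    0 ≤ p - 4 * ε * p * (1 - p) ∧ p - 4 * ε * p * (1 - p) ≤ 1 ∧
      0 ≤ p + 4 * ε * p * (1 - p) ∧ p + 4 * ε * p * (1 - p) ≤ 1 := by
  have hq : 0 ≤ 1 - p := by linarith
  have ha : 0 ≤ 4 * ε * p * (1 - p) := by positivity
  have e1 : 0 ≤ p * (1 - 4 * ε * (1 - p)) := by
    refine mul_nonneg hp ?_
    nlinarith [mul_nonneg h0 hp]
  have e2 : 0 ≤ (1 - p) * (1 - 4 * ε * p) := by
    refine mul_nonneg hq ?_
    nlinarith [mul_nonneg h0 hq]
  refine ⟨by nlinarith, by linarith, by linarith, by nlinarith⟩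

theorem av_ph [NeZero m] {ε p : ℝ} (h0 : 0 ≤ ε) (h1 : ε ≤ 1 / 16) (hp : 0 ≤ p) (hp1 : p ≤ 1) :
    (av fun u : Fin m => ph ε p u) = p := by
  obtain ⟨a, b, c, d⟩ := pos_bd h0 h1 hp hp1
  have e1 : (av fun u : Fin m => ph ε p u) = (1 / 2) *
      av (fun u : Fin m => stp m (p - 4 * ε * p * (1 - p)) u +
        stp m (p + 4 * ε * p * (1 - p)) u) := by
    rw [← av_smul]
    refine congrArg av (funext fun u => ?_)
    unfold ph
    ring
  rw [e1, av_add, av_stp a b, av_stp c d]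
  ring

theorem okd_ph [NeZero m] {ε p : ℝ} (h0 : 0 ≤ ε) (h1 : ε ≤ 1 / 16) (hp : 0 ≤ p) (hp1 : p ≤ 1) :
    Okd ε (fun u : Fin m => ph ε p u) := by
  obtain ⟨a, b, c, d⟩ := pos_bd h0 h1 hp hp1
  refine ⟨fun u => ⟨ph_nonneg ε p u, ph_le_one ε p u⟩, ?_⟩
  rw [av_ph h0 h1 hp hp1]
  have e1 : (av fun u : Fin m => ph ε p u ^ 2) ≤ p - 2 * ε * p * (1 - p) := by
    calc (av fun u : Fin m => ph ε p u ^ 2) ≤ av (fun u : Fin m =>
          (3 / 4) * stp m (p - 4 * ε * p * (1 - p)) u +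
          (1 / 4) * stp m (p + 4 * ε * p * (1 - p)) u) := by
          refine av_mono fun u => ?_
          unfold ph
          have x0 := stp_nonneg (p - 4 * ε * p * (1 - p)) u
          have x1 := stp_le_one (p - 4 * ε * p * (1 - p)) u
          have y0 := stp_nonneg (p + 4 * ε * p * (1 - p)) u
          have y1 := stp_le_one (p + 4 * ε * p * (1 - p)) u
          nlinarith [mul_nonneg x0 (sub_nonneg.2 x1), mul_nonneg x0 (sub_nonneg.2 y1),
            mul_nonneg y0 (sub_nonneg.2 y1)]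
      _ = p - 2 * ε * p * (1 - p) := by
          rw [av_add, av_smul, av_smul, av_stp a b, av_stp c d]
          ring
  have hq : 0 ≤ 1 - p := by linarith
  have e2 : (1 + ε) ^ 2 * ((av fun u : Fin m => ph ε p u ^ 2) - p ^ 2) ≤
      (1 + ε) ^ 2 * (p * (1 - p) * (1 - 2 * ε)) := by
    refine mul_le_mul_of_nonneg_left ?_ (by positivity)
    nlinarith
  refine e2.trans ?_
  have e3 : (1 + ε) ^ 2 * (p * (1 - p) * (1 - 2 * ε)) =
      p * (1 - p) - p * (1 - p) * (ε ^ 2 * (3 + 2 * ε)) := by ring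
  rw [e3]
  have e4 : 0 ≤ p * (1 - p) * (ε ^ 2 * (3 + 2 * ε)) := by positivity
  linarith

theorem ph_mono {ε p p' : ℝ} (h0 : 0 ≤ ε) (h1 : ε ≤ 1 / 16) (hp : 0 ≤ p) (hpp : p ≤ p')
    (hp1 : p' ≤ 1) (u : Fin m) : ph ε p u ≤ ph ε p' u := by
  unfold ph
  have hd : 0 ≤ p' - p := by linarith
  have e1 : 0 ≤ (p' - p) * (1 - 4 * ε * (1 - p - p')) := by
    refine mul_nonneg hd ?_
    nlinarith [mul_nonneg h0 hp, mul_nonneg h0 (hp.trans hpp)]
  have e2 : 0 ≤ (p' - p) * (1 + 4 * ε * (1 - p - p')) := by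
    refine mul_nonneg hd ?_
    nlinarith [mul_nonneg h0 (sub_nonneg.2 (hpp.trans hp1)), mul_nonneg h0 (sub_nonneg.2 hp1)]
  have s1 := stp_mono (m := m) (t := p - 4 * ε * p * (1 - p))
    (t' := p' - 4 * ε * p' * (1 - p')) (by nlinarith) u
  have s2 := stp_mono (m := m) (t := p + 4 * ε * p * (1 - p))
    (t' := p' + 4 * ε * p' * (1 - p')) (by nlinarith) u
  linarith

theorem av_abs_ph [NeZero m] {ε p p' : ℝ} (h0 : 0 ≤ ε) (h1 : ε ≤ 1 / 16) (hp : 0 ≤ p)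
    (hp1 : p ≤ 1) (hp' : 0 ≤ p') (hp1' : p' ≤ 1) :
    (av fun u : Fin m => |ph ε p u - ph ε p' u|) = |p - p'| := by
  rcases le_total p p' with h | h
  · have e1 : (fun u : Fin m => |ph ε p u - ph ε p' u|) = fun u => ph ε p' u - ph ε p u := by
      funext u
      rw [abs_sub_comm, abs_of_nonneg (sub_nonneg.2 (ph_mono h0 h1 hp h hp1' u))]
    rw [e1, av_sub, av_ph h0 h1 hp hp1, av_ph h0 h1 hp' hp1', abs_sub_comm,
      abs_of_nonneg (sub_nonneg.2 h)]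
  · have e1 : (fun u : Fin m => |ph ε p u - ph ε p' u|) = fun u => ph ε p u - ph ε p' u := by
      funext u
      rw [abs_of_nonneg (sub_nonneg.2 (ph_mono h0 h1 hp' h hp1 u))]
    rw [e1, av_sub, av_ph h0 h1 hp hp1, av_ph h0 h1 hp' hp1', abs_of_nonneg (sub_nonneg.2 h)]

/-- the gain of one step -/
theorem stp_gain (hm : 2 ≤ m) (c : ℕ) {t : ℝ} (h0 : 0 ≤ t) (h1 : t ≤ 1) :
    c * h2 t - c * SubBisB.dl m - 1 ≤ av fun u : Fin m => (ee m c u : ℝ) * stp m t u := by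
  have hm0 : 0 < m := by omega
  have hm' : (0 : ℝ) < m := by exact_mod_cast hm0
  obtain ⟨j, θ, hj, a0, a1, ht⟩ := exists_pos hm0 h0 h1
  have hs := sum_stp (m := m) (fun u => (ee m c u : ℝ)) hj a0 a1 ht
  unfold av
  rw [hs, Fintype.card_fin, le_div_iff₀ hm']
  have htx : t = ((j : ℝ) + θ) / m := by
    rw [← ht]
    field_simp
  rw [htx]
  unfold SubBisB.dl
  have s1 := SubBisB.Sm.sum_ee_ge (c := c) hm0 (show j ≤ m by omega)
  have s2 := SubBisB.Sm.sum_ee_ge (c := c) hm0 hj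
  rw [sum_range_succ] at s2
  set S := ∑ u ∈ range j, (ee m c u : ℝ) with hS
  have hint := SubBisB.Sm.h2_interp (k := j) hm hj a0 a1
  have e0 : S + θ * (ee m c j : ℝ) = (1 - θ) * S + θ * (S + (ee m c j : ℝ)) := by ring
  rw [e0]
  have e1 := mul_le_mul_of_nonneg_left s1 (sub_nonneg.2 a1)
  have e2 := mul_le_mul_of_nonneg_left s2 a0
  refine le_trans ?_ (add_le_add e1 e2)
  have e5 := mul_le_mul_of_nonneg_left hint (show (0 : ℝ) ≤ c * m by positivity)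
  have e6 : (c * h2 (((j : ℝ) + θ) / m) - c * (Real.logb 2 ((m : ℝ) + 1) / m + h2 (1 / m)) - 1) *
      m = c * m * h2 (((j : ℝ) + θ) / m) - c * m * h2 (1 / m) -
        (c * Real.logb 2 ((m : ℝ) + 1) + m) := by
    field_simp
    ring
  rw [e6]
  have e7 : (1 - θ) * (c * (m * h2 ((j : ℝ) / m) - Real.logb 2 ((m : ℝ) + 1)) - m) +
      θ * (c * (m * h2 (((j + 1 : ℕ) : ℝ) / m) - Real.logb 2 ((m : ℝ) + 1)) - m) =
      c * m * ((1 - θ) * h2 ((j : ℝ) / m) + θ * h2 (((j + 1 : ℕ) : ℝ) / m)) -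
        (c * Real.logb 2 ((m : ℝ) + 1) + m) := by
    ring
  rw [e7]
  linarith

theorem mul_log_le {y z : ℝ} (hy : 0 < y) (hz : 0 ≤ z) :
    z * Real.log z ≤ z * Real.log y + z * (z / y - 1) := by
  rcases hz.eq_or_lt with h | h
  · rw [← h]
    simp
  · have h1 := Real.log_le_sub_one_of_pos (div_pos h hy)
    rw [Real.log_div h.ne' hy.ne'] at h1
    nlinarith [mul_le_mul_of_nonneg_left h1 h.le]

/-- the second difference of the binary entropy -/
theorem h2_diff {ε p : ℝ} (h0 : 0 ≤ ε) (h1 : ε ≤ 1 / 16) (hp : 0 ≤ p) (hp1 : p ≤ 1) :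
    2 * h2 p - 16 * ε ^ 2 ≤ h2 (p - 4 * ε * p * (1 - p)) + h2 (p + 4 * ε * p * (1 - p)) := by
  rcases hp.eq_or_lt with h | h
  · rw [← h]
    simp only [mul_zero, zero_mul, sub_zero, add_zero]
    nlinarith [sq_nonneg ε]
  rcases hp1.eq_or_lt with h' | h'
  · rw [h']
    simp only [sub_self, mul_zero, sub_zero, add_zero]
    nlinarith [sq_nonneg ε]
  obtain ⟨b1, b2, b3, b4⟩ := pos_bd h0 h1 hp hp1
  set a := 4 * ε * p * (1 - p) with ha
  have hq : 0 < 1 - p := by linarith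
  have l1 := mul_log_le h b1
  have l2 := mul_log_le h b3
  have l3 := mul_log_le hq (show 0 ≤ 1 - (p - a) by linarith)
  have l4 := mul_log_le hq (show 0 ≤ 1 - (p + a) by linarith)
  have hl2 := SubBisB.Sm.log_two_pos
  have hl2' : 1 / 2 ≤ Real.log 2 := by
    have := Real.log_two_gt_d9
    linarith
  have key : 2 * Real.binEntropy p - 8 * ε ^ 2 ≤
      Real.binEntropy (p - a) + Real.binEntropy (p + a) := by
    have r : ∀ x : ℝ, Real.binEntropy x = -(x * Real.log x) - (1 - x) * Real.log (1 - x) := by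
      intro x
      unfold Real.binEntropy
      rw [Real.log_inv, Real.log_inv]
      ring
    rw [r, r, r]
    have q1 : (p - a) * ((p - a) / p - 1) + (p + a) * ((p + a) / p - 1) +
        ((1 - (p - a)) * ((1 - (p - a)) / (1 - p) - 1) +
          (1 - (p + a)) * ((1 - (p + a)) / (1 - p) - 1)) = 2 * a ^ 2 / p + 2 * a ^ 2 / (1 - p) := by
      field_simp
      ring
    have q2 : 2 * a ^ 2 / p + 2 * a ^ 2 / (1 - p) = 32 * ε ^ 2 * (p * (1 - p)) := by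
      rw [ha]
      field_simp
      ring
    have q3 : p * (1 - p) ≤ 1 / 4 := by nlinarith [sq_nonneg (p - 1 / 2)]
    have q4 : 32 * ε ^ 2 * (p * (1 - p)) ≤ 32 * ε ^ 2 * (1 / 4) :=
      mul_le_mul_of_nonneg_left q3 (by positivity)
    linarith
  rw [SubBisB.Sm.h2_eq, SubBisB.Sm.h2_eq, SubBisB.Sm.h2_eq, ← add_div, le_div_iff₀ hl2]
  have e1 : (2 * (Real.binEntropy p / Real.log 2) - 16 * ε ^ 2) * Real.log 2 =
      2 * Real.binEntropy p - 16 * ε ^ 2 * Real.log 2 := by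
    field_simp
  rw [e1]
  have e2 : 16 * ε ^ 2 * (1 / 2) ≤ 16 * ε ^ 2 * Real.log 2 :=
    mul_le_mul_of_nonneg_left hl2' (by positivity)
  linarith

/-- **The gain.** -/
theorem ph_gain (hm : 2 ≤ m) (c : ℕ) {ε p : ℝ} (h0 : 0 ≤ ε) (h1 : ε ≤ 1 / 16) (hp : 0 ≤ p)
    (hp1 : p ≤ 1) : c * h2 p - lossP m c ε ≤ av fun u : Fin m => (ee m c u : ℝ) * ph ε p u := by
  obtain ⟨b1, b2, b3, b4⟩ := pos_bd h0 h1 hp hp1
  have g1 := stp_gain hm c b1 b2
  have g2 := stp_gain hm c b3 b4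
  have hd := mul_le_mul_of_nonneg_left (h2_diff h0 h1 hp hp1) (Nat.cast_nonneg (α := ℝ) c)
  have e1 : (av fun u : Fin m => (ee m c u : ℝ) * ph ε p u) = (1 / 2) *
      av (fun u : Fin m => (ee m c u : ℝ) * stp m (p - 4 * ε * p * (1 - p)) u +
        (ee m c u : ℝ) * stp m (p + 4 * ε * p * (1 - p)) u) := by
    rw [← av_smul]
    refine congrArg av (funext fun u => ?_)
    unfold ph
    ring
  rw [e1, av_add]
  unfold lossP
  linarith

end Pool.Agent.Lib.SubBisF
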