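import Pool.Agent.Lib.SubBisF.Defs

/-!
# SubBisF.Proj (0.75 h): averages of functions of some coordinates

PROOF. `av_inj`: `(A' → X) ≃ (range e → X) × (complement → X)` (`Equiv.piEquivPiSubtypeProd`), `A ≃ range e` (`Equiv.ofInjective`), `av_equiv`,
`av_prod`, `av_const`. The others: `Equiv.curry`.
-/

set_option autoImplicit false

open scoped BigOperators

namespace Pool.Agent.Lib.SubBisF

open Finset SubBis Pool.Agent.Lib.SubBisX.Reg Pool.Agent.Lib.SubBisX.Core
open Pool.Agent.Lib.SubBisX
open Pool.Agent.Lib.SubBisE (agr ker cl gam vl xt Okd)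
open Pool.Agent.Lib.SubBisB (wt2 ZF EG pv Rb Rp psi)

variable {n k m B R : ℕ}

theorem av_inj {A A' X : Type} [Fintype A] [Fintype A'] [DecidableEq A] [DecidableEq A']
    [Fintype X] [Nonempty X] {e : A → A'} (he : Function.Injective e) (G : (A → X) → ℝ) :
    (av fun f : A' → X => G fun a => f (e a)) = av G := by
  classical
  let E1 : (A' → X) ≃ ({a' // a' ∈ Set.range e} → X) × ({a' // ¬ a' ∈ Set.range e} → X) :=
    Equiv.piEquivPiSubtypeProd (fun a' => a' ∈ Set.range e) (fun _ => X)
  let E2 : A ≃ {a' // a' ∈ Set.range e} := Equiv.ofInjective e he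
  have h1 : (av fun f : A' → X => G fun a => f (e a)) =
      av fun p : ({a' // a' ∈ Set.range e} → X) × ({a' // ¬ a' ∈ Set.range e} → X) =>
        G fun a => p.1 (E2 a) :=
    av_equiv E1 (fun p => G fun a => p.1 (E2 a))
  rw [h1, av_prod]
  have h2 : ∀ a : {a' // a' ∈ Set.range e} → X,
      (av fun _ : {a' // ¬ a' ∈ Set.range e} → X => G fun x => a (E2 x)) =
        G fun x => a (E2 x) := fun a => av_const _
  simp only [h2]
  exact av_equiv (Equiv.arrowCongr E2.symm (Equiv.refl X)) G

/-- a pool for each block gives a pool -/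
theorem av_proj [NeZero m] (bet : Fin k → Fin B) (G : (Fin k → Fin R → Fin m) → ℝ) :
    (av fun D : Fin B → Fin R → Fin k → Fin m => G fun w i => D (bet w) i w) = av G := by
  have he : Function.Injective (fun p : Fin k × Fin R => ((bet p.1, p.2), p.1)) := by
    rintro ⟨w, i⟩ ⟨w', i'⟩ h
    simp only [Prod.mk.injEq] at h
    exact Prod.ext h.2 h.1.2
  have h1 := av_inj (X := Fin m) he fun g : Fin k × Fin R → Fin m => G fun w i => g (w, i)
  have h2 : (av fun f : (Fin B × Fin R) × Fin k → Fin m => G fun w i => f ((bet w, i), w)) =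
      av fun D : Fin B → Fin R → Fin k → Fin m => G fun w i => D (bet w) i w :=
    (av_equiv ((Equiv.curry (Fin B × Fin R) (Fin k) (Fin m)).trans
      (Equiv.curry (Fin B) (Fin R) (Fin k → Fin m)))
      (fun D : Fin B → Fin R → Fin k → Fin m => G fun w i => D (bet w) i w))
  have h3 : (av fun g : Fin k × Fin R → Fin m => G fun w i => g (w, i)) = av G :=
    av_equiv (Equiv.curry (Fin k) (Fin R) (Fin m)) G
  rw [← h2, ← h3]
  exact h1

/-- the digits of a fixed world are uniform -/
theorem av_dgt [NeZero m] (bet : Fin k → Fin B) (I : Fin B → Fin R) (G : (Fin k → Fin m) → ℝ) :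
    (av fun D : Fin k → Fin R → Fin m => G (dgt bet D I)) = av G := by
  have he : Function.Injective (fun v : Fin k => (v, I (bet v))) := by
    intro v v' h
    exact (Prod.mk.injEq _ _ _ _ ▸ h).1
  have h1 := av_inj (X := Fin m) he G
  have h2 : (av fun f : Fin k × Fin R → Fin m => G fun v => f (v, I (bet v))) =
      av fun D : Fin k → Fin R → Fin m => G (dgt bet D I) :=
    av_equiv (Equiv.curry (Fin k) (Fin R) (Fin m)) (fun D => G (dgt bet D I))
  rw [← h2]
  exact h1

end Pool.Agent.Lib.SubBisF
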