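import Pool.Agent.Lib.SubBisF.RegF

/-!
# SubBisF.CoreUp: the mean value of the method, upper bound

For each `τ < N`, fixed `bet`, `D` and fixed worlds `σ ≠ τ` the steps do not depend on the world `τ`
(`stF_congr`), and the clipped vector is an adapted function of the world `τ`.
-/

set_option autoImplicit false

open scoped BigOperators

namespace Pool.Agent.Lib.SubBisF

open Finset SubBis Pool.Agent.Lib.SubBisX.Reg Pool.Agent.Lib.SubBisX.Core
open Pool.Agent.Lib.SubBisX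
open Pool.Agent.Lib.SubBisE (agr ker cl gam vl xt Okd)
open Pool.Agent.Lib.SubBisB (wt2 ZF EG pv Rb Rp psi)

variable {n k m B R : ℕ}

namespace CoreUp

theorem ker_congr (d j : ℕ) (U x x' : Fin B → Fin R) (h : ∀ w : Fin B, (w : ℕ) < j → x w = x' w) :
    ker d j U x = ker d j U x' := by
  unfold ker agr
  have : (univ.filter fun w : Fin B => (w : ℕ) < j ∧ U w = x w) =
      univ.filter fun w : Fin B => (w : ℕ) < j ∧ U w = x' w := by
    refine filter_congr fun w _ => ?_
    constructor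
    · rintro ⟨h1, h2⟩
      exact ⟨h1, by rw [h2, h w h1]⟩
    · rintro ⟨h1, h2⟩
      exact ⟨h1, by rw [h2, h w h1]⟩
  rw [this]

theorem kerF_congr (d : ℕ) (bet : Fin k → Fin B) (D : Fin k → Fin R → Fin m) (v : Fin k)
    (U I I' : Fin B → Fin R) (h : ∀ j, j < bet v → I j = I' j)
    (h' : D v (I (bet v)) = D v (I' (bet v))) :
    kerF d bet D v U I = kerF d bet D v U I' := by
  unfold kerF
  rw [show dgt bet D I v = dgt bet D I' v from h',
    ker_congr d (bet v : ℕ) U I I' fun w hw => h w (Fin.lt_def.2 hw)]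

/-- One step. -/
theorem step [NeZero m] [NeZero R] {c M d : ℕ} {F : Finset (Fin k) → ℤ} (hF0 : F ∅ = 0)
    {bet : Fin k → Fin B} {D : Fin k → Fin R → Fin m} {u : ℝ}
    (hY : ∀ Y : (Fin B → Fin R) → Fin k → ℤ, (∀ I v, 0 ≤ Y I v) → (∀ I v, Y I v ≤ M) →
      (∀ I I' v, (∀ j, j < bet v → I j = I' j) → D v (I (bet v)) = D v (I' (bet v)) →
        Y I v = Y I' v) →
      (av fun I : Fin B → Fin R =>
        ((∑ v, ee m c (D v (I (bet v))) * Y I v - c * Bounds.Fhat F M (Y I) : ℤ) : ℝ)) ≤ u)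
    {N τ : ℕ} (hτ : τ < N) :
    (av fun w : Fin N → Fin B → Fin R =>
        (vl c M F (dgt bet D (xt w τ)) (yyF d bet D (stF c M d F bet D (xt w) τ) (xt w) τ) : ℝ)) ≤
      u := by
  rw [← Bounds.av_update (⟨τ, hτ⟩ : Fin N)]
  have hc : (av fun _ : Fin N → Fin B → Fin R => u) = u := av_const _
  rw [← hc]
  refine av_mono fun w => ?_
  set S := stF c M d F bet D (xt w) τ with hS
  set Y : (Fin B → Fin R) → Fin k → ℤ := fun x =>
    cl M fun v => ∑ σ ∈ range τ, S σ v * (kerF d bet D v (xt w σ) x : ℤ) with hYd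
  have hst : ∀ x, stF c M d F bet D (xt (Function.update w ⟨τ, hτ⟩ x)) τ = S := by
    intro x
    refine stF_congr fun σ hσ => ?_
    exact SubBisE.CU.xt_update_of_ne w hτ (ne_of_lt hσ) x
  have hyy : ∀ x, yyF d bet D S (xt (Function.update w ⟨τ, hτ⟩ x)) τ =
      fun v => ∑ σ ∈ range τ, S σ v * (kerF d bet D v (xt w σ) x : ℤ) := by
    intro x
    funext v
    unfold yyF
    refine sum_congr rfl fun σ hσ => ?_
    rw [SubBisE.CU.xt_update_self w hτ,
      SubBisE.CU.xt_update_of_ne w hτ (ne_of_lt (mem_range.1 hσ))]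
  have h := hY Y (fun x v => SubBisE.CU.cl_nonneg M _ v) (fun x v => SubBisE.CU.cl_le M _ v) (by
      intro a b v hab hab'
      show clip (M : ℤ) _ = clip (M : ℤ) _
      congr 1
      refine sum_congr rfl fun σ _ => ?_
      rw [kerF_congr d bet D v (xt w σ) a b hab hab'])
  refine (le_of_eq (congrArg av (funext fun x => ?_))).trans h
  rw [hst x, hyy x, SubBisE.CU.xt_update_self w hτ, SubBisE.CU.vl_eq c M hF0]
  rfl

/-- All steps, for fixed labels and a fixed pool. -/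
theorem upper [NeZero m] [NeZero R] {c M d : ℕ} {F : Finset (Fin k) → ℤ} (hF0 : F ∅ = 0)
    {bet : Fin k → Fin B} {D : Fin k → Fin R → Fin m} {u : ℝ}
    (hY : ∀ Y : (Fin B → Fin R) → Fin k → ℤ, (∀ I v, 0 ≤ Y I v) → (∀ I v, Y I v ≤ M) →
      (∀ I I' v, (∀ j, j < bet v → I j = I' j) → D v (I (bet v)) = D v (I' (bet v)) →
        Y I v = Y I' v) →
      (av fun I : Fin B → Fin R =>
        ((∑ v, ee m c (D v (I (bet v))) * Y I v - c * Bounds.Fhat F M (Y I) : ℤ) : ℝ)) ≤ u)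
    (N : ℕ) :
    (av fun w : Fin N → Fin B → Fin R => (VlF c M d F bet D N (xt w) : ℝ)) ≤ N * u := by
  have h1 : (fun w : Fin N → Fin B → Fin R => (VlF c M d F bet D N (xt w) : ℝ)) = fun w =>
      ∑ τ ∈ range N,
        (vl c M F (dgt bet D (xt w τ)) (yyF d bet D (stF c M d F bet D (xt w) τ) (xt w) τ) : ℝ) := by
    funext w
    unfold VlF
    push_cast
    rfl
  rw [h1, av_sum]
  refine (sum_le_card_nsmul _ _ u fun τ hτ => step hF0 hY (mem_range.1 hτ)).trans (le_of_eq ?_)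
  rw [card_range, nsmul_eq_mul]

/-- **The upper bound** (the hypothesis is `UpHyp` of `CoreF.lean`). -/
theorem coreF_upper [NeZero m] [NeZero R] {c M d : ℕ} {F : Finset (Fin k) → ℤ} (hF0 : F ∅ = 0)
    {bet : Fin k → Fin B} {e : ℝ}
    (hUp : ∃ UB : (Fin k → Fin R → Fin m) → ℝ,
      (∀ (D : Fin k → Fin R → Fin m) (Y : (Fin B → Fin R) → Fin k → ℤ),
        (∀ I v, 0 ≤ Y I v) → (∀ I v, Y I v ≤ M) →
        (∀ I I' v, (∀ j, j < bet v → I j = I' j) → D v (I (bet v)) = D v (I' (bet v)) →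
          Y I v = Y I' v) →
        (av fun I : Fin B → Fin R =>
          ((∑ v, ee m c (D v (I (bet v))) * Y I v - c * Bounds.Fhat F M (Y I) : ℤ) : ℝ)) ≤
            M * (c * Bounds.logZ F + UB D)) ∧
      av UB ≤ e) (N : ℕ) :
    (av fun p : (Fin k → Fin R → Fin m) × (Fin N → Fin B → Fin R) =>
        (VlF c M d F bet p.1 N (xt p.2) : ℝ)) ≤ N * (M * (c * Bounds.logZ F + e)) := by
  obtain ⟨UB, h1, h2⟩ := hUp
  rw [av_prod]
  refine (av_mono fun D => upper (d := d) hF0 (h1 D) N).trans ?_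
  rw [av_smul, av_smul, av_add, av_const]
  have hM : (0 : ℝ) ≤ M := Nat.cast_nonneg M
  have hN : (0 : ℝ) ≤ N := Nat.cast_nonneg N
  exact mul_le_mul_of_nonneg_left (mul_le_mul_of_nonneg_left (by linarith) hM) hN

end CoreUp

end Pool.Agent.Lib.SubBisF
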