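import Pool.Agent.Lib.SubBisF.RegF
import Pool.Agent.Lib.SubBisF.CoreUp
import Pool.Agent.Lib.SubBisF.CoreLow
import Pool.Agent.Lib.SubBisF.ResF
import Pool.Agent.Lib.SubBisF.Cmp

/-!
# SubBisF.CoreF (2 h): the mean value of the method

`UpHyp` is the statement of helper71's `up_pool` (file `Up3.lean`); it is a hypothesis here, so this file is independent of it.
PROOF. `coreF_upper`: for each `τ < N`, fixed `bet`, `D` and fixed worlds `σ ≠ τ` (`Bounds.av_update` for `Fin N → (Fin B → Fin R)`, as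
`CU.upper_step` in SubBisE/Core.lean): the steps do not depend on the world `τ` (`stF_congr`), `Y I = cl M (yyF .. )` is in `[0, M]` and
adapted (`kerF d bet D v I' I` depends on `I j`, `j < bet v`, and on `dgt bet D I v`), `CU.vl_eq`. Average over `D`.
`coreF_lower`: `vlF_ge` with `ys v I = yx ε F bet v (dgt bet D I v) (dgt bet D I)`, `a v = aF ε d F bet v D`, `Rr = m R^d`, averaged:
`av_D av_w CV (dgt bet D (xt w τ)) = av CV` (`av_dgt` for fixed `w`), `lowF_res` with `CU.av_xt`.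
-/

set_option autoImplicit false

open scoped BigOperators

namespace Pool.Agent.Lib.SubBisF

open Finset SubBis Pool.Agent.Lib.SubBisX.Reg Pool.Agent.Lib.SubBisX.Core
open Pool.Agent.Lib.SubBisX
open Pool.Agent.Lib.SubBisE (agr ker cl gam vl xt Okd)
open Pool.Agent.Lib.SubBisB (wt2 ZF EG pv Rb Rp psi)

variable {n k m B R : ℕ}

/-- The upper bound for all adapted policies on the pool. -/
def UpHyp (m B R k c M : ℕ) (F : Finset (Fin k) → ℤ) (bet : Fin k → Fin B) (e : ℝ) : Prop :=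
  ∃ UB : (Fin k → Fin R → Fin m) → ℝ,
    (∀ (D : Fin k → Fin R → Fin m) (Y : (Fin B → Fin R) → Fin k → ℤ),
      (∀ I v, 0 ≤ Y I v) → (∀ I v, Y I v ≤ M) →
      (∀ I I' v, (∀ j, j < bet v → I j = I' j) → D v (I (bet v)) = D v (I' (bet v)) →
        Y I v = Y I' v) →
      (av fun I : Fin B → Fin R =>
        ((∑ v, ee m c (D v (I (bet v))) * Y I v - c * Bounds.Fhat F M (Y I) : ℤ) : ℝ)) ≤
          M * (c * Bounds.logZ F + UB D)) ∧
    av UB ≤ e

theorem coreF_upper [NeZero m] [NeZero R] {c M d : ℕ} {F : Finset (Fin k) → ℤ} (hF0 : F ∅ = 0)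
    {bet : Fin k → Fin B} {e : ℝ} (hUp : UpHyp m B R k c M F bet e) (N : ℕ) :
    (av fun p : (Fin k → Fin R → Fin m) × (Fin N → Fin B → Fin R) =>
        (VlF c M d F bet p.1 N (xt p.2) : ℝ)) ≤ N * (M * (c * Bounds.logZ F + e)) :=
  CoreUp.coreF_upper hF0 hUp N

theorem coreF_lower [NeZero m] [NeZero R] {c M d : ℕ} (hM : 0 < M) (hm : 2 ≤ m) {ε : ℝ}
    (h0 : 0 ≤ ε) (h1 : ε ≤ 1 / 16) {F : Finset (Fin k) → ℤ} (hF : FCS.Subm F) (hF0 : F ∅ = 0)
    {Γ κ : ℕ} (hΓ : ∀ (U : Fin k → Fin m) (y : Fin k → ℤ) v, |gr c F v (U v) y| ≤ Γ)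
    (hκ : ∀ (y : Fin k → ℤ) v, |FCS.kv F y v| ≤ κ) (bet : Fin k → Fin B) (N : ℕ) :
    N * (M * (c * Bounds.logZ F - k * lossP m c ε - c * κ * gap F bet)) -
        k * ((M : ℝ) ^ 2 * (m * (R : ℝ) ^ d) + N * ((Γ : ℝ) ^ 2 * ((B : ℝ) + 1) ^ d)) / 2 -
        M * Γ * (N * (k / (1 + ε) ^ (d + 1))) ≤
      av fun p : (Fin k → Fin R → Fin m) × (Fin N → Fin B → Fin R) =>
        (VlF c M d F bet p.1 N (xt p.2) : ℝ) :=
  CoreLow.coreF_lower hM hm h0 h1 hF hF0 hΓ hκ bet N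

end Pool.Agent.Lib.SubBisF
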