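import Pool.Agent.Lib.SubBisE.Core
import Pool.Agent.Lib.SubBisB.GibChain
import Pool.Agent.Lib.SubBisB.LabB
import Pool.Agent.Lib.SubBisB.DigB

/-!
# The method with a pool of digit vectors (MP_a7c826_lc)

The sites have labels `bet v` in `Fin B` (blocks). A pool `D` has `R` vectors of digits. A world is a
vector of indices `I : Fin B → Fin R`; its digits are `D v (I (bet v))`. The policies are functions of
the indices of the earlier blocks and of the own digit, and the kernel is of degree `d` in the
indices: the cost does not depend on the number of sites.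
-/

set_option autoImplicit false

open scoped BigOperators

namespace Pool.Agent.Lib.SubBisF

open Finset SubBis Pool.Agent.Lib.SubBisX.Reg Pool.Agent.Lib.SubBisX.Core
open Pool.Agent.Lib.SubBisX
open Pool.Agent.Lib.SubBisE (agr ker cl gam vl xt Okd)
open Pool.Agent.Lib.SubBisB (wt2 ZF EG pv Rb Rp psi)

variable {n k m B R : ℕ}

/-! ### The method -/

/-- the digits of the world `I` -/
def dgt (bet : Fin k → Fin B) (D : Fin k → Fin R → Fin m) (I : Fin B → Fin R) (v : Fin k) : Fin m :=
  D v (I (bet v))

/-- the kernel of the site `v` -/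
def kerF (d : ℕ) (bet : Fin k → Fin B) (D : Fin k → Fin R → Fin m) (v : Fin k)
    (I I' : Fin B → Fin R) : ℕ :=
  if dgt bet D I v = dgt bet D I' v then ker d (bet v) I I' else 0

/-- the policy in the world `W τ`, from the steps `g σ`, `σ < τ` -/
def yyF (d : ℕ) (bet : Fin k → Fin B) (D : Fin k → Fin R → Fin m) (g : ℕ → Fin k → ℤ)
    (W : ℕ → Fin B → Fin R) (τ : ℕ) (v : Fin k) : ℤ :=
  ∑ σ ∈ range τ, g σ v * (kerF d bet D v (W σ) (W τ) : ℤ)

/-- the steps number `< T`; the other entries are zero -/
def stF (c M d : ℕ) (F : Finset (Fin k) → ℤ) (bet : Fin k → Fin B) (D : Fin k → Fin R → Fin m)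
    (W : ℕ → Fin B → Fin R) : ℕ → ℕ → Fin k → ℤ
  | 0 => fun _ _ => 0
  | T + 1 => fun τ => if τ = T then
        gam c M F (dgt bet D (W T)) (yyF d bet D (stF c M d F bet D W T) W T)
      else stF c M d F bet D W T τ

/-- the sum of the values over the first `N` steps -/
def VlF (c M d : ℕ) (F : Finset (Fin k) → ℤ) (bet : Fin k → Fin B) (D : Fin k → Fin R → Fin m)
    (N : ℕ) (W : ℕ → Fin B → Fin R) : ℤ :=
  ∑ τ ∈ range N, vl c M F (dgt bet D (W τ)) (yyF d bet D (stF c M d F bet D W τ) W τ)

/-! ### The order of the sites -/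

/-- the sites of the block `j` in increasing order -/
def Lj (bet : Fin k → Fin B) (j : Fin B) : List (Fin k) := (List.finRange k).filter fun v => bet v = j

/-- all sites in the order of the blocks -/
def LL (bet : Fin k → Fin B) : List (Fin k) := (List.finRange B).flatMap (Lj bet)

/-- the sites of the first `j` blocks -/
def Rj (bet : Fin k → Fin B) (j : ℕ) : Finset (Fin k) := univ.filter fun x => (bet x : ℕ) < j

/-- the list `l` is a segment of the order, from the set `R` of the sites before it to the set `R'`
of the sites up to its end -/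
def Seg (bet : Fin k → Fin B) : Finset (Fin k) → List (Fin k) → Finset (Fin k) → Prop
  | R, [], R' => R = R'
  | R, v :: l, R' => R = Rp bet v ∧ v ∉ R ∧ Seg bet (insert v R) l R'

/-! ### The comparison process -/

/-- The mean of `r` over the random set that starts with `z` and passes through the list `l`: the
site `v` is inserted with the probability `φ v z (U v)`, `z` the set so far. -/
def run (φ : Fin k → Finset (Fin k) → Fin m → ℝ) :
    List (Fin k) → (Finset (Fin k) → ℝ) → Finset (Fin k) → (Fin k → Fin m) → ℝ
  | [], r, z, _ => r z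
  | v :: l, r, z, U => φ v z (U v) * run φ l r (insert v z) U +
      (1 - φ v z (U v)) * run φ l r z U

/-- the step function with mean `t` -/
noncomputable def stp (m : ℕ) (t : ℝ) (u : Fin m) : ℝ := max 0 (min 1 (t * m - (u : ℕ)))

/-- the decision with mean `p` and small variance -/
noncomputable def ph (ε p : ℝ) (u : Fin m) : ℝ :=
  (stp m (p - 4 * ε * p * (1 - p)) u + stp m (p + 4 * ε * p * (1 - p)) u) / 2

/-- the decisions of the process: the conditional probabilities of the Gibbs measure -/
noncomputable def phF (ε : ℝ) (F : Finset (Fin k) → ℤ) (bet : Fin k → Fin B) (v : Fin k)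
    (z : Finset (Fin k)) (u : Fin m) : ℝ := ph ε (pv F v (Rp bet v) z) u

/-- the policy of the site `v`, with the own digit `x`: only the sites of the earlier blocks are
used in the conditional probability -/
noncomputable def yx (ε : ℝ) (F : Finset (Fin k) → ℤ) (bet : Fin k → Fin B) (v : Fin k) (x : Fin m)
    (U : Fin k → Fin m) : ℝ :=
  run (phF ε F bet) (LL bet) (fun z => ph ε (pv F v (Rb bet v) z) x) ∅ U

/-- the gap between the policy and the process -/
noncomputable def gap (F : Finset (Fin k) → ℤ) (bet : Fin k → Fin B) : ℝ :=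
  ∑ v, Real.sqrt (psi F v (Rp bet v) - psi F v (Rb bet v))

/-- the loss per site, in units of `1 / c` -/
noncomputable def lossP (m c : ℕ) (ε : ℝ) : ℝ := 1 + c * (SubBisB.dl m + 8 * ε ^ 2)

/-! ### The anti-noise on any finite space -/

/-- the mean over the first coordinate -/
noncomputable def mnG {Ω : Type} [Fintype Ω] (y : (Fin (n + 1) → Ω) → ℝ) (U : Fin n → Ω) : ℝ :=
  av fun x : Ω => y (Fin.cons x U : Fin (n + 1) → Ω)

/-- the anti-noise of strength `ε` in every coordinate -/
noncomputable def anG {Ω : Type} [Fintype Ω] (ε : ℝ) : ∀ n : ℕ, ((Fin n → Ω) → ℝ) → (Fin n → Ω) → ℝ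
  | 0, y => y
  | n + 1, y => fun U => anG ε n (fun U' => mnG y U' +
      (1 + ε) * (y (Fin.cons (U 0) U' : Fin (n + 1) → Ω) - mnG y U')) (fun i => U i.succ)

/-- the digits of a vector of super-digits -/
def dig (bet : Fin k → Fin B) (X : Fin B → Fin k → Fin m) (w : Fin k) : Fin m := X (bet w) w

end Pool.Agent.Lib.SubBisF
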