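import Pool.Agent.Lib.SubBisF.MachPool
import Pool.Agent.Lib.SubBisE.MachSeed

/-!
The estimate of the method with pools, computed from random bits in polynomial time.
-/

set_option autoImplicit false

namespace Pool.Agent.Lib.SubBisF.Mach

open Finset Pool.Agent.Lib.PolyTime Pool.Agent.Lib.Pa7c826 Pool.Agent.Lib.Pa7c826t
open Pool.Agent.Lib.SubBisX.Tab Pool.Agent.Lib.SubBisX.Tab.TabAux Pool.Agent.Lib.SubBisB.BTab
open Pool.Agent.Lib.SubBisX.Reg Pool.Agent.Lib.SubBisX.Core Pool.Agent.Lib.SubBisX.Seed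
open Pool.Agent.Lib.SubBisC
open Pool.Agent.Lib.SubBisE (xt)

/-- the number of random bits of one copy -/
def cbF (μ ρ lam n N : ℕ) : ℕ := n * lam + (n * (2 ^ ρ * μ) + N * (2 ^ lam * ρ))

/-- the number of random bits -/
def nbF (μ ρ lam n N K : ℕ) : ℕ := K * cbF μ ρ lam n N

/-- one copy, read off a bit stream -/
def decF1 (μ ρ lam n N : ℕ) (b : ℕ → Bool) : CpF n (2 ^ μ) (2 ^ lam) (2 ^ ρ) N :=
  (fun v => rd lam fun i => b (v * lam + i),
    (fun v r => rd μ fun i => b (n * lam + (v * (2 ^ ρ * μ) + (r * μ + i))),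
      fun t j => rd ρ fun i => b (n * lam + (n * (2 ^ ρ * μ) + (t * (2 ^ lam * ρ) + (j * ρ + i))))))

/-- `K` copies, read off a bit stream -/
def decF (μ ρ lam n N K : ℕ) (b : ℕ → Bool) : Fin K → CpF n (2 ^ μ) (2 ^ lam) (2 ^ ρ) N :=
  fun k => decF1 μ ρ lam n N fun i => b (k * cbF μ ρ lam n N + i)

theorem unif_decF1 (μ ρ lam n N : ℕ) : Unif (cbF μ ρ lam n N) (decF1 μ ρ lam n N) :=
  ((unif_rd lam).pow n).prod ((((unif_rd μ).pow (2 ^ ρ)).pow n).prod
    (((unif_rd ρ).pow (2 ^ lam)).pow N))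

theorem unif_decF (μ ρ lam n N K : ℕ) : Unif (nbF μ ρ lam n N K) (decF μ ρ lam n N K) :=
  (unif_decF1 μ ρ lam n N).pow K

/-! ### The arrays of the copy `k` -/

section arrays

variable (μ ρ lam n N k : ℕ) (b : ℕ → Bool)

/-- the labels -/
def LkF (v : ℕ) : ℕ := bv lam fun i => b (k * cbF μ ρ lam n N + (v * lam + i))

/-- the pool -/
def PkF (j : ℕ) : ℕ := bv μ fun i => b (k * cbF μ ρ lam n N + (n * lam + (j * μ + i)))

/-- the worlds -/
def IkF (j : ℕ) : ℕ :=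
  bv ρ fun i => b (k * cbF μ ρ lam n N + (n * lam + (n * (2 ^ ρ * μ) + (j * ρ + i))))

end arrays

variable {μ ρ lam n N K : ℕ} (b : ℕ → Bool)

theorem decF_L (k : Fin K) (v : Fin n) :
    ((decF μ ρ lam n N K b k).1 v : ℕ) = LkF μ ρ lam n N k b v := rfl

theorem decF_P (k : Fin K) (v : Fin n) (r : Fin (2 ^ ρ)) :
    ((decF μ ρ lam n N K b k).2.1 v r : ℕ) = PkF μ ρ lam n N k b (v * 2 ^ ρ + r) := by
  show bv μ _ = bv μ _
  congr 1
  funext i
  congr 1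
  ring

theorem decF_I (k : Fin K) {t : ℕ} (ht : t < N) (j : Fin (2 ^ lam)) :
    (xt (decF μ ρ lam n N K b k).2.2 t j : ℕ) = IkF μ ρ lam n N k b (t * 2 ^ lam + j) := by
  unfold xt
  rw [dif_pos ht]
  show bv ρ _ = bv ρ _
  congr 1
  funext i
  congr 1
  ring

/-- The positive part of the sum over the copies. -/
def totPF (n μ ρ lam N c d Γ M K : ℕ) (G : Finset ℕ → ℕ) (b : ℕ → Bool) : ℕ :=
  ∑ k ∈ range K, posK n (2 ^ μ) c Γ M N G
    (dA n (2 ^ lam) (2 ^ ρ) (LkF μ ρ lam n N k b) (PkF μ ρ lam n N k b) (IkF μ ρ lam n N k b))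
    (krF (2 ^ lam) (2 ^ ρ) d (LkF μ ρ lam n N k b) (PkF μ ρ lam n N k b) (IkF μ ρ lam n N k b))

/-- The negative part of the sum over the copies. -/
def totNF (n μ ρ lam N c d Γ M K : ℕ) (G : Finset ℕ → ℕ) (b : ℕ → Bool) : ℕ :=
  ∑ k ∈ range K, negK n (2 ^ μ) c Γ M N G
    (dA n (2 ^ lam) (2 ^ ρ) (LkF μ ρ lam n N k b) (PkF μ ρ lam n N k b) (IkF μ ρ lam n N k b))
    (krF (2 ^ lam) (2 ^ ρ) d (LkF μ ρ lam n N k b) (PkF μ ρ lam n N k b) (IkF μ ρ lam n N k b))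

theorem totF_eq (c d Γ M : ℕ) (G : Finset ℕ → ℕ)
    (hΓ : ∀ (v : Fin n) (u : Fin (2 ^ μ)) (y : Fin n → ℤ), |gr c (GF G) v u y| ≤ Γ) :
    (∑ k : Fin K, VF c M d (GF G) (decF μ ρ lam n N K b k)) =
      (totPF n μ ρ lam N c d Γ M K G b : ℤ) - (totNF n μ ρ lam N c d Γ M K G b : ℤ) := by
  unfold totPF totNF
  push_cast
  rw [← sum_sub_distrib, ← Fin.sum_univ_eq_sum_range (fun k =>
    (posK n (2 ^ μ) c Γ M N G
      (dA n (2 ^ lam) (2 ^ ρ) (LkF μ ρ lam n N k b) (PkF μ ρ lam n N k b) (IkF μ ρ lam n N k b))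
      (krF (2 ^ lam) (2 ^ ρ) d (LkF μ ρ lam n N k b) (PkF μ ρ lam n N k b)
        (IkF μ ρ lam n N k b)) : ℤ) -
    negK n (2 ^ μ) c Γ M N G
      (dA n (2 ^ lam) (2 ^ ρ) (LkF μ ρ lam n N k b) (PkF μ ρ lam n N k b) (IkF μ ρ lam n N k b))
      (krF (2 ^ lam) (2 ^ ρ) d (LkF μ ρ lam n N k b) (PkF μ ρ lam n N k b)
        (IkF μ ρ lam n N k b))) K]
  exact sum_congr rfl fun k _ =>
    (posK_negK_F (decF_L b k) (decF_P b k) (fun _ ht j => decF_I b k ht j) c d Γ M G hΓ).symm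

universe u

variable {α : Type u} {Dm : α → Prop} {ctx : List (α → List Bool)}

section general

variable {n : α → ℕ} {G : α → Finset ℕ → ℕ} {μ ρ lam N c d Γ M K k : α → ℕ} {r : α → List Bool}

/-- The hypotheses of the estimator, for `n` sites and the set function `G`. -/
structure HF (Dm : α → Prop) (ctx : List (α → List Bool)) (n : α → ℕ)
    (G : α → Finset ℕ → ℕ) (μ ρ lam N c d Γ M : α → ℕ) (r : α → List Bool) : Prop where
  hn : PolyN Dm ctx n
  hG : PG Dm ctx n G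
  hμ : PolyN Dm ctx μ
  hm : PolyN Dm ctx (fun a => 2 ^ μ a)
  hρ : PolyN Dm ctx ρ
  hR : PolyN Dm ctx (fun a => 2 ^ ρ a)
  hl : PolyN Dm ctx lam
  hB : PolyN Dm ctx (fun a => 2 ^ lam a)
  hN : PolyN Dm ctx N
  hc : PolyN Dm ctx c
  hd : PolyN Dm ctx d
  hΓ : PolyN Dm ctx Γ
  hM : PolyN Dm ctx M
  hK : PolyN Dm ctx (fun a => (2 ^ lam a + 1) ^ d a)
  hr : PolyC Dm ctx r

theorem HF.up (h : HF Dm ctx n G μ ρ lam N c d Γ M r) (k : α → ℕ) :
    HF (fun p : α × ℕ => Dm p.1 ∧ p.2 < k p.1) (PolyTime.lift ctx ++ [fun p => un p.2])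
      (fun b => n b.1) (fun b => G b.1) (fun b => μ b.1) (fun b => ρ b.1) (fun b => lam b.1)
      (fun b => N b.1) (fun b => c b.1) (fun b => d b.1) (fun b => Γ b.1) (fun b => M b.1)
      (fun b => r b.1) :=
  ⟨upN h.hn, h.hG.lft Prod.fst (fun _ hb => hb.1)
      (fun _ ht => Pool.Agent.Lib.Pa7c826.up (n := k) ht),
    upN h.hμ, upN h.hm, upN h.hρ, upN h.hR, upN h.hl, upN h.hB, upN h.hN, upN h.hc, upN h.hd,
    upN h.hΓ, upN h.hM, upN h.hK, Pool.Agent.Lib.Pa7c826.up h.hr⟩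

theorem HF.pool (h : HF Dm ctx n G μ ρ lam N c d Γ M r) (hk : PolyN Dm ctx k) :
    HP Dm ctx n (fun a => 2 ^ μ a) (fun a => 2 ^ lam a) (fun a => 2 ^ ρ a) N d
      (fun a => LkF (μ a) (ρ a) (lam a) (n a) (N a) (k a) fun i => (r a).getD i false)
      (fun a => PkF (μ a) (ρ a) (lam a) (n a) (N a) (k a) fun i => (r a).getD i false)
      (fun a => IkF (μ a) (ρ a) (lam a) (n a) (N a) (k a) fun i => (r a).getD i false) := by
  have hcb : PolyN Dm ctx (fun a => cbF (μ a) (ρ a) (lam a) (n a) (N a)) :=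
    (h.hn.mul h.hl).add ((h.hn.mul (h.hR.mul h.hμ)).add (h.hN.mul (h.hB.mul h.hρ)))
  have hp := hk.mul hcb
  refine ⟨h.hn, h.hm, h.hB, h.hR, h.hN, h.hd, h.hK, ?_, ?_, ?_, fun a _ v _ => bv_lt _ _,
    fun a _ i _ => bv_lt _ _⟩
  · refine (SeedAuxB.poly_rdG (o := fun _ => 0) h.hr h.hn h.hl h.hB hp h.hl
      (PolyN.const 0)).congr (fun a _ i _ => ?_)
    unfold LkF
    simp only [Nat.zero_add]
  · refine (SeedAuxB.poly_rdG (o := fun _ => 0) h.hr (h.hn.mul h.hR) h.hμ h.hm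
      (hp.add (h.hn.mul h.hl)) h.hμ (PolyN.const 0)).congr (fun a _ i _ => ?_)
    unfold PkF
    simp only [Nat.zero_add, Nat.add_assoc]
  · refine (SeedAuxB.poly_rdG (o := fun _ => 0) h.hr (h.hN.mul h.hB) h.hρ h.hR
      (hp.add ((h.hn.mul h.hl).add (h.hn.mul (h.hR.mul h.hμ)))) h.hρ (PolyN.const 0)).congr
      (fun a _ i _ => ?_)
    unfold IkF
    simp only [Nat.zero_add, Nat.add_assoc]

theorem HF.copy (h : HF Dm ctx n G μ ρ lam N c d Γ M r) (hk : PolyN Dm ctx k) :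
    HM Dm ctx n G (fun a => 2 ^ μ a) c Γ M N
      (fun a => dA (n a) (2 ^ lam a) (2 ^ ρ a)
        (LkF (μ a) (ρ a) (lam a) (n a) (N a) (k a) fun i => (r a).getD i false)
        (PkF (μ a) (ρ a) (lam a) (n a) (N a) (k a) fun i => (r a).getD i false)
        (IkF (μ a) (ρ a) (lam a) (n a) (N a) (k a) fun i => (r a).getD i false))
      (fun a => krF (2 ^ lam a) (2 ^ ρ a) (d a)
        (LkF (μ a) (ρ a) (lam a) (n a) (N a) (k a) fun i => (r a).getD i false)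
        (PkF (μ a) (ρ a) (lam a) (n a) (N a) (k a) fun i => (r a).getD i false)
        (IkF (μ a) (ρ a) (lam a) (n a) (N a) (k a) fun i => (r a).getD i false)) :=
  ⟨h.hn, h.hG, h.hm, h.hc, h.hΓ, h.hM, h.hN, arr_dA (h.pool hk), pk_krF (h.pool hk)⟩

theorem poly_totPF (h : HF Dm ctx n G μ ρ lam N c d Γ M r) (hK : PolyN Dm ctx K) :
    PolyN Dm ctx (fun a => totPF (n a) (μ a) (ρ a) (lam a) (N a) (c a) (d a) (Γ a) (M a) (K a)
      (G a) fun i => (r a).getD i false) :=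
  P8e91ed.PT.nSum (f := fun a k => posK (n a) (2 ^ μ a) (c a) (Γ a) (M a) (N a) (G a)
      (dA (n a) (2 ^ lam a) (2 ^ ρ a)
        (LkF (μ a) (ρ a) (lam a) (n a) (N a) k fun i => (r a).getD i false)
        (PkF (μ a) (ρ a) (lam a) (n a) (N a) k fun i => (r a).getD i false)
        (IkF (μ a) (ρ a) (lam a) (n a) (N a) k fun i => (r a).getD i false))
      (krF (2 ^ lam a) (2 ^ ρ a) (d a)
        (LkF (μ a) (ρ a) (lam a) (n a) (N a) k fun i => (r a).getD i false)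
        (PkF (μ a) (ρ a) (lam a) (n a) (N a) k fun i => (r a).getD i false)
        (IkF (μ a) (ρ a) (lam a) (n a) (N a) k fun i => (r a).getD i false)))
    hK (poly_posK ((h.up K).copy (last (D := Dm) (ctx := ctx) (n := K))))

theorem poly_totNF (h : HF Dm ctx n G μ ρ lam N c d Γ M r) (hK : PolyN Dm ctx K) :
    PolyN Dm ctx (fun a => totNF (n a) (μ a) (ρ a) (lam a) (N a) (c a) (d a) (Γ a) (M a) (K a)
      (G a) fun i => (r a).getD i false) :=
  P8e91ed.PT.nSum (f := fun a k => negK (n a) (2 ^ μ a) (c a) (Γ a) (M a) (N a) (G a)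
      (dA (n a) (2 ^ lam a) (2 ^ ρ a)
        (LkF (μ a) (ρ a) (lam a) (n a) (N a) k fun i => (r a).getD i false)
        (PkF (μ a) (ρ a) (lam a) (n a) (N a) k fun i => (r a).getD i false)
        (IkF (μ a) (ρ a) (lam a) (n a) (N a) k fun i => (r a).getD i false))
      (krF (2 ^ lam a) (2 ^ ρ a) (d a)
        (LkF (μ a) (ρ a) (lam a) (n a) (N a) k fun i => (r a).getD i false)
        (PkF (μ a) (ρ a) (lam a) (n a) (N a) k fun i => (r a).getD i false)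
        (IkF (μ a) (ρ a) (lam a) (n a) (N a) k fun i => (r a).getD i false)))
    hK (poly_negK ((h.up K).copy (last (D := Dm) (ctx := ctx) (n := K))))

end general

open PolyAux Pool.Agent.Lib.SubBisE.Mach

/-- The estimate of the logarithm of the number of independent subsets of `W`, computed from the
random bits `r` in polynomial time. -/
theorem poly_eVF {w : α → List Bool} {C W : α → Finset ℕ}
    {μ ρ lam N c d Γ M κ K den nW : α → ℕ}
    {r : α → List Bool} (hw : PolyC Dm ctx w) (hC' : PolyS Dm ctx (fun x => nOf (w x)) C)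
    (hnW : PolyN Dm ctx nW) (hW : PolyS Dm ctx nW W)
    (hμ : PolyN Dm ctx μ) (hm : PolyN Dm ctx (fun a => 2 ^ μ a))
    (hρ : PolyN Dm ctx ρ) (hR : PolyN Dm ctx (fun a => 2 ^ ρ a))
    (hl : PolyN Dm ctx lam) (hB : PolyN Dm ctx (fun a => 2 ^ lam a))
    (hN : PolyN Dm ctx N) (hc : PolyN Dm ctx c)
    (hd : PolyN Dm ctx d) (hΓ : PolyN Dm ctx Γ) (hM : PolyN Dm ctx M)
    (hker : PolyN Dm ctx (fun a => (2 ^ lam a + 1) ^ d a))
    (hκ : PolyN Dm ctx κ) (hK : PolyN Dm ctx K) (hden : PolyN Dm ctx den) (hr : PolyC Dm ctx r)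
    (hgr : ∀ a, Dm a → ∀ (v : Fin (C a).card) (u : Fin (2 ^ μ a)) (y : Fin (C a).card → ℤ),
      |gr (c a) (FC (nOf (w a)) (aOf (w a)) (adjOf (w a)) (κ a) (C a) (W a)) v u y| ≤ Γ a) :
    PolyN Dm ctx (fun a => eC (C a) (W a)
      ((∑ k : Fin (K a), VF (c a) (M a) (d a)
        (FC (nOf (w a)) (aOf (w a)) (adjOf (w a)) (κ a) (C a) (W a))
        (decF (μ a) (ρ a) (lam a) (C a).card (N a) (K a) (fun i => (r a).getD i false) k)) -
        (den a : ℤ) * FC (nOf (w a)) (aOf (w a)) (adjOf (w a)) (κ a) (C a) (W a) ∅) (den a)) := by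
  have hn := poly_nOf hw
  have hk := PolyS.card hn hC'
  have hG := pg_cnC hw hκ hC' hW
  have h : HF Dm ctx (fun a => (C a).card)
      (fun a => cnC (nOf (w a)) (aOf (w a)) (adjOf (w a)) (κ a) (C a) (W a))
      μ ρ lam N c d Γ M r :=
    ⟨hk, hG, hμ, hm, hρ, hR, hl, hB, hN, hc, hd, hΓ, hM, hker, hr⟩
  refine (poly_eC hw hC' hnW hW (poly_totPF h hK)
    ((poly_totNF h hK).add (hden.mul (pg_empty hk hG))) hden).congr (fun a haD => ?_)
  rw [FC_empty, ← GF_cnC, totF_eq _ _ _ (Γ a) _ _ (hgr a haD), sub_add_mul]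

end Pool.Agent.Lib.SubBisF.Mach
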