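import Pool.Agent.Lib.SubBisE.ParE
import Pool.Agent.Lib.SubBisC.CSys

/-!
The sites of a vertex cover `C` and any random value with the right mean and range: for seven eighths
of the seeds all estimates are good; the success probability over uniform random bits.
-/

set_option autoImplicit false

open Finset
open scoped BigOperators

namespace Pool.Agent.Lib.SubBisF

open Pool.Agent.Lib.Pa7c826 Pool.Agent.Lib.Pa7c826t Pool.Agent.Lib.SubBisX Pool.Agent.Lib.SubBisC
  Pool.Agent.Lib.SubBisX.Node Pool.Agent.Lib.SubBisX.Prob P7sG SubBis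

variable {Ω : Type} {n a : ℕ} {adj : ℕ → ℕ → Bool} {C : Finset ℕ} {Q : ℕ}

/-- the estimate of the binary logarithm of the number of independent subsets of `W`, from the random
values `V F w` with the denominator `D` -/
def esV (n a : ℕ) (adj : ℕ → ℕ → Bool) (C : Finset ℕ) (Q D : ℕ)
    (V : (Finset (Fin C.card) → ℤ) → Ω → ℤ) (s : Fin (KC n Q) → Ω) (W : Finset ℕ) : ℕ :=
  eC C W ((∑ k : Fin (KC n Q), V (FC n a adj (ParA.kap Q) C W) (s k)) -
    ((KC n Q * D : ℕ) : ℤ) * FC n a adj (ParA.kap Q) C W ∅) (KC n Q * D)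

theorem esV_eq (D : ℕ) (V : (Finset (Fin C.card) → ℤ) → Ω → ℤ) (s : Fin (KC n Q) → Ω)
    (W : Finset ℕ) : esV n a adj C Q D V s W =
    eC C W (∑ k : Fin (KC n Q), (V (FC n a adj (ParA.kap Q) C W) (s k) -
      D * FC n a adj (ParA.kap Q) C W ∅)) (KC n Q * D) := by
  unfold esV
  rw [sum_sub_distrib, sum_const, card_univ, Fintype.card_fin, nsmul_eq_mul]
  congr 1
  push_cast
  ring

/-- The hypotheses on the random values: the mean and the range. -/
structure VOk [Fintype Ω] (k Q D : ℕ) (V : (Finset (Fin k) → ℤ) → Ω → ℤ) : Prop where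
  pos : 0 < D
  core : ∀ F : Finset (Fin k) → ℤ, FCS.Subm F → (∀ S v, |F (insert v S) - F S| ≤ ParA.kap Q) →
    |(Reg.av fun w => (V F w : ℝ)) / D - (Bounds.logZ F + F ∅)| ≤ 6 * k / Q
  range : ∀ F : Finset (Fin k) → ℤ, (∀ S v, |F (insert v S) - F S| ≤ ParA.kap Q) → ∀ w,
    |V F w| ≤ D * (k * (ParA.mu Q + ParA.kap Q))

open Classical in
/-- **Most seeds are good.** -/
theorem good_seedsV [Fintype Ω] [Nonempty Ω] {D : ℕ} {V : (Finset (Fin C.card) → ℤ) → Ω → ℤ}
    (hQ : 1 ≤ Q) (h : Cov n a adj C) (hV : VOk C.card Q D V) :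
    8 * (univ.filter fun s : Fin (KC n Q) → Ω =>
      ¬ GoodC (n + n) adj C (dl C.card Q) (esV n a adj C Q D V s)).card ≤
      Fintype.card (Fin (KC n Q) → Ω) := by
  have hq0 : (0 : ℝ) < Q := by exact_mod_cast hQ
  have hD := hV.pos
  have hleaf : ∀ (s : Fin (KC n Q) → Ω) (W : Finset ℕ), W ∩ C = ∅ →
      ind adj W = 2 ^ esV n a adj C Q D V s W := fun s W hW => eC_leaf h hW _ _
  rcases Nat.eq_zero_or_pos C.card with hk | hk
  · have h1 : (univ.filter fun s : Fin (KC n Q) → Ω =>
        ¬ GoodC (n + n) adj C (dl C.card Q) (esV n a adj C Q D V s)) = ∅ := by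
      rw [filter_eq_empty_iff]
      intro s _
      rw [not_not]
      refine ⟨fun W _ => ?_, fun W _ hW => hleaf s W hW⟩
      have hC : C = ∅ := card_eq_zero.1 hk
      have h2 := hleaf s W (by rw [hC, inter_empty])
      rw [h2]
      push_cast
      rw [Real.logb_pow, Real.logb_self_eq_one (by norm_num), mul_one, sub_self, abs_zero]
      unfold dl
      positivity
    rw [h1, card_empty]
    exact Nat.zero_le _
  · have hk0 : (0 : ℝ) < C.card := by exact_mod_cast hk
    have key := good_seedsG (N := n + n) (D := D) (K := KC n Q)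
      (V := fun W w => V (FC n a adj (ParA.kap Q) C W) w - D * FC n a adj (ParA.kap Q) C W ∅)
      (L := fun W => Bounds.logZ (FC n a adj (ParA.kap Q) C W))
      (tgt := fun W => Real.logb 2 (ind adj W)) (est := eC C) hD
      (by
        unfold KC
        positivity) (δ₁ := 6 * C.card / (Q : ℝ)) (δ₂ := C.card / (Q : ℝ))
      (B := C.card * (4 * Q.size + 6)) (x := C.card * (2 / 2 ^ ParA.kap Q) + 1)
      (δ := dl C.card Q) (by positivity) (div_pos hk0 hq0) ?_ ?_ ?_ ?_ ?_
    · refine le_trans (Nat.mul_le_mul_left 8 (card_le_card ?_)) key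
      intro s hs
      rw [mem_filter] at hs ⊢
      refine ⟨mem_univ _, fun hcon => hs.2 ⟨fun W hW => ?_, fun W _ hW => hleaf s W hW⟩⟩
      rw [esV_eq]
      exact hcon W hW
    · intro W _
      have h1 := hV.core (FC n a adj (ParA.kap Q) C W)
        (fun S S' => FC_sub h W S S') (fun S v => FC_insert h W v S)
      have hDr : (0 : ℝ) < D := by exact_mod_cast hD
      have h3 : (Reg.av fun w : Ω => ((V (FC n a adj (ParA.kap Q) C W) w -
            D * FC n a adj (ParA.kap Q) C W ∅ : ℤ) : ℝ)) =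
          (Reg.av fun w : Ω => (V (FC n a adj (ParA.kap Q) C W) w : ℝ)) +
            -((D : ℝ) * FC n a adj (ParA.kap Q) C W ∅) := by
        rw [← Reg.av_const (Ω := Ω) (-((D : ℝ) * FC n a adj (ParA.kap Q) C W ∅)), ← Reg.av_add]
        congr 1
        funext w
        push_cast
        ring
      rw [h3, add_div, neg_div, mul_div_cancel_left₀ _ hDr.ne']
      refine le_trans (le_of_eq ?_) h1
      congr 1
      ring
    · intro W _ w
      have h0 : |FC n a adj (ParA.kap Q) C W ∅| ≤ ((ParA.kap Q * C.card : ℕ) : ℤ) := by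
        rw [abs_of_nonneg (FC_nonneg W ∅)]
        push_cast
        exact FC_le h W ∅
      have h1 := hV.range (FC n a adj (ParA.kap Q) C W) (fun S v => FC_insert h W v S) w
      have h4 : |V (FC n a adj (ParA.kap Q) C W) w - D * FC n a adj (ParA.kap Q) C W ∅| ≤
          D * (C.card * (ParA.mu Q + ParA.kap Q)) + D * ((ParA.kap Q * C.card : ℕ) : ℤ) := by
        refine (abs_sub _ _).trans (add_le_add h1 ?_)
        rw [abs_mul, abs_of_nonneg (show (0 : ℤ) ≤ D by positivity)]
        exact mul_le_mul_of_nonneg_left h0 (by positivity)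
      have h2 : |((V (FC n a adj (ParA.kap Q) C W) w -
            D * FC n a adj (ParA.kap Q) C W ∅ : ℤ) : ℝ)| ≤
          ((D * (C.card * (ParA.mu Q + ParA.kap Q)) +
            D * ((ParA.kap Q * C.card : ℕ) : ℤ) : ℤ) : ℝ) := by
        exact_mod_cast h4
      refine h2.trans ?_
      have h5 : (ParA.mu Q : ℝ) + 2 * ParA.kap Q ≤ 4 * Q.size + 6 := by
        have h6 : ParA.mu Q + 2 * ParA.kap Q ≤ 4 * Q.size + 6 := by
          unfold ParA.mu ParA.kap
          omega
        exact_mod_cast h6
      have h7 : ((D * (C.card * (ParA.mu Q + ParA.kap Q)) +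
            D * ((ParA.kap Q * C.card : ℕ) : ℤ) : ℤ) : ℝ) =
          D * (C.card * ((ParA.mu Q : ℝ) + 2 * ParA.kap Q)) := by
        push_cast
        ring
      rw [h7]
      exact mul_le_mul_of_nonneg_left (mul_le_mul_of_nonneg_left h5 hk0.le) (by positivity)
    · unfold KC
      push_cast
      apply le_of_eq
      field_simp
      ring
    · intro W _ tot den hden d hd
      have h1 := eC_err h (show 0 < ParA.kap Q by unfold ParA.kap; omega) W hden hd
      linarith
    · have h9 : (C.card : ℝ) * (2 / 2 ^ ParA.kap Q) ≤ C.card / (Q : ℝ) := by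
        have h10 : (Q : ℝ) ≤ 2 ^ Q.size := by exact_mod_cast (Nat.lt_size_self Q).le
        have h11 : (2 : ℝ) / 2 ^ ParA.kap Q = 1 / 2 ^ Q.size := by
          unfold ParA.kap
          rw [pow_succ]
          field_simp
        rw [h11, mul_one_div]
        exact div_le_div_of_nonneg_left hk0.le hq0 h10
      have h12 : (8 : ℝ) * C.card / (Q : ℝ) = 6 * C.card / (Q : ℝ) +
          C.card / (Q : ℝ) + C.card / (Q : ℝ) := by ring
      unfold dl
      linarith

/-! ### Random bits -/

section bits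

variable [Fintype Ω] [Nonempty Ω] {D : ℕ} {V : (Finset (Fin C.card) → ℤ) → Ω → ℤ} {off : ℕ}
  {dec : (ℕ → Bool) → Fin (KC n Q) → Ω}

/-- the final size of the population -/
def cntV (n a : ℕ) (adj : ℕ → ℕ → Bool) (C : Finset ℕ) (Q D : ℕ)
    (V : (Finset (Fin C.card) → ℤ) → Ω → ℤ) (dec : (ℕ → Bool) → Fin (KC n Q) → Ω)
    (off K cap : ℕ) (l : List Bool) : ℕ :=
  (runC (chC n C adj) (fun X => esV n a adj C Q D V (dec (str l)) X.2) cap
    (coinT l off cap (10 * n + 1)) (List.replicate K (0, range (n + n))) C.card).length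

open Classical in
/-- **The success probability of the approximation scheme.** -/
theorem prob_SV (hdec : SubBisX.Seed.Unif off dec) (hQ : 1 ≤ Q) (h : Cov n a adj C)
    (hV : VOk C.card Q D V) {K cap m : ℕ} {t : ℝ} (ht : 1 ≤ t)
    (hK0 : 0 < K) (hK : 8 * (C.card * ((2 : ℝ) ^ dl C.card Q) ^ 2 * t ^ 2) ≤ K)
    (hcap : 2 * ((2 : ℝ) ^ dl C.card Q) ^ 2 * K ≤ cap)
    (hm : off + C.card * cap * 2 * (10 * n + 1) ≤ m) :
    3 * 2 ^ m ≤ 4 * (univ.filter fun τ : Fin m → Bool =>
      |(cntV n a adj C Q D V dec off K cap (List.ofFn τ) : ℝ) *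
          2 ^ esV n a adj C Q D V (dec (str (List.ofFn τ))) (range (n + n)) -
        K * (2 ^ n * ind adj (range n) : ℕ)| ≤ K * (2 ^ n * ind adj (range n) : ℕ) / t).card := by
  have hkn : C.card ≤ n := by simpa using card_le_card h.sub
  have key := prob_SG hdec (bad := fun s : Fin (KC n Q) → Ω =>
      ¬ GoodC (n + n) adj C (dl C.card Q) (esV n a adj C Q D V s))
    (by
      have h1 := good_seedsV hQ h hV
      convert h1) (ch := chC n C adj)
    (e := fun s X => esV n a adj C Q D V s X.2) (Z := fun X => (ind adj X.2 : ℝ)) (ok := okC n C)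
    (lev := C.card) (dm := 10 * n + 1) (α := (2 : ℝ) ^ dl C.card Q)
    (fun s hs => good_systemC h (not_not.1 hs) (dl_le hQ hkn)) (root := (0, range (n + n)))
    (okC_root h) ht hK0 hK hcap hm
  have hr := h.ind_range n
  simp only [hr] at key
  exact key

open Classical in
/-- **The success probability of the estimate of the logarithm.** -/
theorem prob_PV (hdec : SubBisX.Seed.Unif off dec) (hQ : 1 ≤ Q) (h : Cov n a adj C)
    (hV : VOk C.card Q D V) {m : ℕ} (hm : off ≤ m) :
    3 * 2 ^ m ≤ 4 * (univ.filter fun τ : Fin m → Bool =>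
      |(esV n a adj C Q D V (dec (str (List.ofFn τ))) (range n) : ℝ) -
        Real.logb 2 (ind adj (range n))| ≤ 8 * C.card / Q + 1).card := by
  exact prob_PG hdec (bad := fun s : Fin (KC n Q) → Ω =>
      ¬ GoodC (n + n) adj C (dl C.card Q) (esV n a adj C Q D V s))
    (good := fun s => |(esV n a adj C Q D V s (range n) : ℝ) -
      Real.logb 2 (ind adj (range n))| ≤ 8 * C.card / Q + 1)
    (by
      have h1 := good_seedsV hQ h hV
      convert h1)
    (fun s hs => (not_not.1 hs).1 (range n) (range_subset_range.2 (by omega))) hm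

end bits

end Pool.Agent.Lib.SubBisF
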