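import Pool.Agent.Lib.SubBisF.Up2
import Pool.Agent.Lib.SubBisB.BUp

/-!
# The upper bound in the world of the pools

For EVERY pool `D` and every policy on the worlds `I : Fin B → Fin R` (the decision at `v` depends on
the indices of the earlier blocks and on the own digit) the mean of the objective is at most
`M (c log₂ Z + UB D)`, and the mean of `UB` over the pools is at most
`k (1 + l G²) + B k (1 + m) ln 2 / (l R)`.
-/

set_option autoImplicit false

open scoped BigOperators

namespace Pool.Agent.Lib.SubBisF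

open Finset SubBis Pool.Agent.Lib.SubBisX Pool.Agent.Lib.SubBisX.Reg
open Pool.Agent.Lib.SubBisX.Bounds

variable {k m B R : ℕ}

/-- The bound for one block. -/
noncomputable def UBj (c : ℕ) (W : (Fin k → Bool) → ℝ) (bet : Fin k → Fin B) (G l : ℝ) (j : Fin B)
    (D : Fin k → Fin R → Fin m) : ℝ :=
  (aa k m R bet G l j + (XX c W bet G l j D - 1) / l) / R

/-- The bound. -/
noncomputable def UBm (c : ℕ) (W : (Fin k → Bool) → ℝ) (bet : Fin k → Fin B) (G l : ℝ)
    (D : Fin k → Fin R → Fin m) : ℝ :=
  ∑ j : Fin B, UBj c W bet G l j D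

theorem SS_le (c : ℕ) (W : (Fin k → Bool) → ℝ) (bet : Fin k → Fin B) {G l : ℝ} (hl : 0 < l)
    (j : Fin B) (D : Fin k → Fin R → Fin m) (s : Fin k → Bool) (g : Fin k → Fin m → Bool) :
    SS c W bet j s g D ≤ aa k m R bet G l j + (XX c W bet G l j D - 1) / l := by
  have h1 : Real.exp (l * (SS c W bet j s g D - aa k m R bet G l j)) ≤ XX c W bet G l j D := by
    unfold XX
    set f : (Fin k → Bool) × (Fin k → Fin m → Bool) → ℝ := fun p =>
      Real.exp (l * (SS c W bet j p.1 p.2 D - aa k m R bet G l j)) with hf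
    have h0 : ∀ p ∈ (Finset.univ : Finset ((Fin k → Bool) × (Fin k → Fin m → Bool))), 0 ≤ f p :=
      fun p _ => (Real.exp_pos _).le
    have h := Finset.single_le_sum h0 (Finset.mem_univ (s, g))
    exact h
  have h2 := Real.add_one_le_exp (l * (SS c W bet j s g D - aa k m R bet G l j))
  have h3 : l * (SS c W bet j s g D - aa k m R bet G l j) ≤ XX c W bet G l j D - 1 := by linarith
  have h4 : SS c W bet j s g D - aa k m R bet G l j ≤ (XX c W bet G l j D - 1) / l := by
    rw [le_div_iff₀ hl]
    linarith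
  linarith

/-- The average over the index of one block. -/
theorem av_block [NeZero m] [NeZero R] (c : ℕ) (W : (Fin k → Bool) → ℝ) {bet : Fin k → Fin B}
    (hbet : Monotone bet) {G l : ℝ} (hl : 0 < l) (D : Fin k → Fin R → Fin m)
    (z : (Fin B → Fin R) → Fin k → Bool)
    (hz : ∀ v, ∀ I I' : Fin B → Fin R, (∀ j, j < bet v → I j = I' j) →
      D v (I (bet v)) = D v (I' (bet v)) → z I v = z I' v) (j : Fin B) :
    (av fun I : Fin B → Fin R => ∑ v ∈ univ.filter (fun v => bet v = j),
      Dl m c W v (z I) (D v (I j))) ≤ UBj c W bet G l j D := by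
  classical
  have hR : (0 : ℝ) < R := by exact_mod_cast Nat.pos_of_ne_zero (NeZero.ne R)
  rw [← av_update j]
  have hc : (av fun _ : Fin B → Fin R => UBj c W bet G l j D) = UBj c W bet G l j D := av_const _
  rw [← hc]
  apply av_mono
  intro I
  set s : Fin k → Bool := fun v => z I v with hs
  set g : Fin k → Fin m → Bool := fun v x =>
    decide (∃ i, D v i = x ∧ z (Function.update I j i) v = true) with hg
  have h1 : ∀ i : Fin R, ∀ v, bet v = j → ∀ w ≤ v, z (Function.update I j i) w =
      zz bet j s g (fun v => D v i) w := by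
    intro i v hv w hw
    have hwj : bet w ≤ j := hv ▸ hbet hw
    unfold zz
    by_cases h : bet w < j
    · rw [if_pos h]
      apply hz w
      · intro i' hi'
        rw [Function.update_of_ne (hi'.trans h).ne]
      · rw [Function.update_of_ne h.ne]
    · have hwj' : bet w = j := le_antisymm hwj (not_lt.1 h)
      rw [if_neg h]
      have h2 : (z (Function.update I j i) w = true) ↔
          (∃ i', D w i' = D w i ∧ z (Function.update I j i') w = true) := by
        constructor
        · intro h3
          exact ⟨i, rfl, h3⟩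
        · rintro ⟨i', h3, h4⟩
          rw [← h4]
          apply hz w
          · intro i'' hi''
            rw [hwj'] at hi''
            rw [Function.update_of_ne hi''.ne, Function.update_of_ne hi''.ne]
          · rw [hwj', Function.update_self, Function.update_self, h3]
      show z (Function.update I j i) w = decide _
      cases hb : z (Function.update I j i) w
      · symm
        rw [decide_eq_false_iff_not]
        intro h3
        have := h2.2 h3
        rw [hb] at this
        exact absurd this (by simp)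
      · symm
        rw [decide_eq_true_iff]
        exact h2.1 hb
  have h2 : (fun i : Fin R => ∑ v ∈ univ.filter (fun v => bet v = j),
      Dl m c W v (z (Function.update I j i)) (D v (Function.update I j i j))) = fun i =>
      ∑ v ∈ univ.filter (fun v => bet v = j),
        Dl m c W v (zz bet j s g fun v => D v i) (D v i) := by
    funext i
    apply Finset.sum_congr rfl
    intro v hv
    have hv' : bet v = j := by simpa using hv
    rw [Function.update_self]
    exact Dl_congr c W _ (h1 i v hv')
  rw [h2]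
  have h3 := SS_le c W bet (G := G) hl j D s g
  unfold UBj av
  rw [Fintype.card_fin]
  exact div_le_div_of_nonneg_right h3 hR.le

/-- THE UPPER BOUND for one pool, Boolean policies, sorted labels. -/
theorem sup_bool [NeZero m] [NeZero R] (c : ℕ) (W : (Fin k → Bool) → ℝ) {bet : Fin k → Fin B}
    (hbet : Monotone bet) {G l : ℝ} (hl : 0 < l) (D : Fin k → Fin R → Fin m)
    (z : (Fin B → Fin R) → Fin k → Bool)
    (hz : ∀ v, ∀ I I' : Fin B → Fin R, (∀ j, j < bet v → I j = I' j) →
      D v (I (bet v)) = D v (I' (bet v)) → z I v = z I' v) :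
    (av fun I : Fin B → Fin R => ∑ v, (ee m c (D v (I (bet v))) : ℝ) * bit (z I v) + c * W (z I)) ≤
      c * Real.logb 2 (∑ y, (2 : ℝ) ^ W y) + UBm c W bet G l D := by
  classical
  set L : ℝ := Real.logb 2 (∑ y, (2 : ℝ) ^ W y) with hL
  have h1 : (fun I : Fin B → Fin R => ∑ v, (ee m c (D v (I (bet v))) : ℝ) * bit (z I v)
      + c * W (z I)) = fun I => (∑ j : Fin B, ∑ v ∈ univ.filter (fun v => bet v = j),
        Dl m c W v (z I) (D v (I j))) + c * L := by
    funext I
    have h2 : ∑ j : Fin B, ∑ v ∈ univ.filter (fun v => bet v = j),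
        Dl m c W v (z I) (D v (I j)) = ∑ v, Dl m c W v (z I) (D v (I (bet v))) := by
      rw [← Finset.sum_fiberwise univ bet fun v => Dl m c W v (z I) (D v (I (bet v)))]
      apply Finset.sum_congr rfl
      intro j _
      apply Finset.sum_congr rfl
      intro v hv
      have hv' : bet v = j := by simpa using hv
      rw [hv']
    have h3 := VV_telescope W (z I)
    rw [h2]
    unfold Dl
    rw [Finset.sum_add_distrib, ← Finset.mul_sum, ← h3]
    ring
  rw [h1, av_add, av_const, av_sum, add_comm]
  unfold UBm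
  exact add_le_add le_rfl (Finset.sum_le_sum fun j _ => av_block c W hbet hl D z hz j)

/-- The mean of the bound over the pools. -/
theorem av_UBm [NeZero m] [NeZero R] {c : ℕ} {W : (Fin k → Bool) → ℝ} {G l : ℝ}
    (hG : ∀ (v : Fin k) (z : Fin k → Bool) (u : Fin m), |Dl m c W v z u| ≤ G)
    (hl : 0 < l) (hlG : l * G ≤ 1) (bet : Fin k → Fin B) :
    (av fun D : Fin k → Fin R → Fin m => UBm c W bet G l D) ≤
      k * (1 + l * G ^ 2) + B * ((k + k * m : ℕ) * Real.log 2) / (l * R) := by
  classical
  have hR : (0 : ℝ) < R := by exact_mod_cast Nat.pos_of_ne_zero (NeZero.ne R)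
  unfold UBm
  rw [av_sum]
  have h1 : ∀ j : Fin B, (av fun D : Fin k → Fin R → Fin m => UBj c W bet G l j D) ≤
      (univ.filter fun v => bet v = j).card * (1 + l * G ^ 2) +
        ((k + k * m : ℕ) * Real.log 2) / (l * R) := by
    intro j
    have h2 : (fun D : Fin k → Fin R → Fin m => UBj c W bet G l j D) = fun D =>
        (1 / (l * R)) * XX c W bet G l j D + (aa k m R bet G l j - 1 / l) / R := by
      funext D
      unfold UBj
      field_simp
      ring
    rw [h2, av_add, av_smul, av_const]
    have h3 := av_XX (R := R) hG hl hlG bet j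
    have h4 : 1 / (l * R) * (av fun D : Fin k → Fin R → Fin m => XX c W bet G l j D) ≤
        1 / (l * R) * 1 := mul_le_mul_of_nonneg_left h3 (by positivity)
    refine (add_le_add h4 le_rfl).trans (le_of_eq ?_)
    unfold aa
    field_simp
    ring
  refine (Finset.sum_le_sum fun j _ => h1 j).trans (le_of_eq ?_)
  rw [Finset.sum_add_distrib, ← Finset.sum_mul, Finset.sum_const, Finset.card_univ,
    Fintype.card_fin, nsmul_eq_mul]
  congr 1
  · congr 1
    rw [← Nat.cast_sum, ← Finset.card_eq_sum_card_fiberwise (fun v _ => Finset.mem_univ _),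
      Finset.card_univ, Fintype.card_fin]
  · rw [mul_div_assoc, mul_div_assoc, mul_div_assoc]

/-! ### All labels, integer policies -/

theorem sum_bool_F (F : Finset (Fin k) → ℤ) :
    Real.logb 2 (∑ y : Fin k → Bool, (2 : ℝ) ^ (-(F (Bounds.setOf y) : ℝ))) = logZ F := by
  unfold logZ
  rw [sum_bool_eq]

/-- Sorted labels, integer policies. -/
theorem sup_int [NeZero m] [NeZero R] (c M : ℕ) (F : Finset (Fin k) → ℤ) {bet : Fin k → Fin B}
    (hbet : Monotone bet) {G l : ℝ} (hl : 0 < l) (D : Fin k → Fin R → Fin m)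
    (Y : (Fin B → Fin R) → Fin k → ℤ) (hY0 : ∀ I v, 0 ≤ Y I v) (hY1 : ∀ I v, Y I v ≤ M)
    (hY : ∀ v, ∀ I I' : Fin B → Fin R, (∀ j, j < bet v → I j = I' j) →
      D v (I (bet v)) = D v (I' (bet v)) → Y I v = Y I' v) :
    (av fun I : Fin B → Fin R =>
      ((∑ v, ee m c (D v (I (bet v))) * Y I v - c * Fhat F M (Y I) : ℤ) : ℝ)) ≤
      M * (c * logZ F + UBm c (fun z => -(F (Bounds.setOf z) : ℝ)) bet G l D) := by
  classical
  have h1 : ∀ i ∈ range M, (av fun I : Fin B → Fin R => ∑ v, (ee m c (D v (I (bet v))) : ℝ)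
        * bit (decide (((i : ℤ) + 1) ≤ Y I v))
        + c * (-(F (Bounds.setOf (fun v => decide (((i : ℤ) + 1) ≤ Y I v))) : ℝ)))
      ≤ c * logZ F + UBm c (fun z => -(F (Bounds.setOf z) : ℝ)) bet G l D := by
    intro i _
    have h := sup_bool c (fun z => -(F (Bounds.setOf z) : ℝ)) hbet (G := G) hl D
      (fun I v => decide (((i : ℤ) + 1) ≤ Y I v)) (by
        intro v I I' h1 h2
        have := hY v I I' h1 h2
        simp only [this])
    rw [sum_bool_F] at h
    exact h
  have h2 : (fun I : Fin B → Fin R =>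
      ((∑ v, ee m c (D v (I (bet v))) * Y I v - c * Fhat F M (Y I) : ℤ) : ℝ))
      = fun I => ∑ i ∈ range M, (∑ v, (ee m c (D v (I (bet v))) : ℝ)
        * bit (decide (((i : ℤ) + 1) ≤ Y I v))
        + c * (-(F (Bounds.setOf (fun v => decide (((i : ℤ) + 1) ≤ Y I v))) : ℝ))) := by
    funext I
    rw [Finset.sum_add_distrib, Finset.sum_comm]
    have e1 : ∀ v : Fin k, ∑ i ∈ range M, (ee m c (D v (I (bet v))) : ℝ)
        * bit (decide (((i : ℤ) + 1) ≤ Y I v)) = (ee m c (D v (I (bet v))) : ℝ) * (Y I v : ℝ) := by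
      intro v
      rw [← Finset.mul_sum, sum_levels (hY0 I v) (hY1 I v)]
    simp only [e1]
    rw [← Finset.mul_sum, Finset.sum_neg_distrib]
    unfold Fhat Bounds.setOf
    push_cast
    simp only [decide_eq_true_eq]
    ring
  rw [h2, av_sum]
  refine (Finset.sum_le_sum h1).trans (le_of_eq ?_)
  simp only [Finset.sum_const, Finset.card_range, nsmul_eq_mul]

/-- the Lipschitz condition in Boolean form -/
theorem lip_bool {F : Finset (Fin k) → ℤ} {κ : ℝ} (hκ : 0 ≤ κ)
    (hF : ∀ S v, |((F (insert v S) - F S : ℤ) : ℝ)| ≤ κ) (z : Fin k → Bool) (v : Fin k)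
    (b b' : Bool) : (fun z => -(F (Bounds.setOf z) : ℝ)) (Function.update z v b) ≤
      (fun z => -(F (Bounds.setOf z) : ℝ)) (Function.update z v b') + κ := by
  classical
  have h1 : Bounds.setOf (Function.update z v true) = insert v (Bounds.setOf (Function.update z v false)) := by
    ext x
    unfold Bounds.setOf
    simp only [mem_filter, mem_univ, true_and, mem_insert]
    by_cases hx : x = v
    · subst hx; simp
    · rw [Function.update_of_ne hx, Function.update_of_ne hx]
      simp [hx]
  have h2 := hF (Bounds.setOf (Function.update z v false)) v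
  rw [← h1] at h2
  push_cast at h2
  have h3 := abs_le.1 h2
  cases b <;> cases b' <;> simp only <;> linarith

/-- **THE UPPER BOUND in the world of the pools.** -/
theorem up_pool [NeZero m] [NeZero R] (c M : ℕ) (F : Finset (Fin k) → ℤ) (bet : Fin k → Fin B)
    {E κ l : ℝ} (hE0 : 0 ≤ E) (hE : ∀ u : Fin m, |(ee m c u : ℝ)| ≤ E) (hκ : 0 ≤ κ)
    (hF : ∀ S v, |((F (insert v S) - F S : ℤ) : ℝ)| ≤ κ) (hl : 0 < l)
    (hlG : l * (E + c * (κ + 1)) ≤ 1) :
    ∃ UB : (Fin k → Fin R → Fin m) → ℝ,
      (∀ (D : Fin k → Fin R → Fin m) (Y : (Fin B → Fin R) → Fin k → ℤ), (∀ I v, 0 ≤ Y I v) →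
        (∀ I v, Y I v ≤ M) →
        (∀ v, ∀ I I' : Fin B → Fin R, (∀ j, j < bet v → I j = I' j) →
          D v (I (bet v)) = D v (I' (bet v)) → Y I v = Y I' v) →
        (av fun I : Fin B → Fin R =>
          ((∑ v, ee m c (D v (I (bet v))) * Y I v - c * Fhat F M (Y I) : ℤ) : ℝ)) ≤
          M * (c * logZ F + UB D)) ∧
      av UB ≤ k * (1 + l * (E + c * (κ + 1)) ^ 2) +
        B * ((k + k * m : ℕ) * Real.log 2) / (l * R) := by
  classical
  set σ : Equiv.Perm (Fin k) := Tuple.sort bet with hσ
  have hmono : Monotone (bet ∘ σ) := Tuple.monotone_sort bet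
  set F' : Finset (Fin k) → ℤ := fun S => F (S.map σ.toEmbedding) with hF'
  have hF2 : ∀ S v, |((F' (insert v S) - F' S : ℤ) : ℝ)| ≤ κ := by
    intro S v
    show |((F ((insert v S).map σ.toEmbedding) - F (S.map σ.toEmbedding) : ℤ) : ℝ)| ≤ κ
    rw [Finset.map_insert]
    exact hF _ _
  set G : ℝ := E + c * (κ + 1) with hG
  set W : (Fin k → Bool) → ℝ := fun z => -(F' (Bounds.setOf z) : ℝ) with hW
  have hGb : ∀ (v : Fin k) (z : Fin k → Bool) (u : Fin m), |Dl m c W v z u| ≤ G :=
    fun v z u => Dl_abs hE0 (fun z v b b' => lip_bool hκ hF2 z v b b') hE v z u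
  refine ⟨fun D => UBm c W (bet ∘ σ) G l fun i => D (σ i), ?_, ?_⟩
  · intro D Y hY0 hY1 hY
    have h := sup_int c M F' hmono (G := G) hl (fun i => D (σ i)) (fun I i => Y I (σ i))
      (fun I i => hY0 I _) (fun I i => hY1 I _) (fun i I I' h1 h2 => hY (σ i) I I' h1 h2)
    rw [SubBisB.logZ_map] at h
    refine le_trans (le_of_eq ?_) h
    congr 1
    funext I
    rw [SubBisB.Fhat_map]
    congr 2
    exact (Equiv.sum_comp σ (fun v => ee m c (D v (I (bet v))) * Y I v)).symm
  · have h1 := av_equiv (Equiv.arrowCongr σ.symm (Equiv.refl (Fin R → Fin m)))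
      (fun D : Fin k → Fin R → Fin m => UBm c W (bet ∘ σ) G l D)
    have h2 : (av fun D : Fin k → Fin R → Fin m => UBm c W (bet ∘ σ) G l fun i => D (σ i)) =
        av fun D : Fin k → Fin R → Fin m => UBm c W (bet ∘ σ) G l D := h1
    rw [h2]
    exact av_UBm hGb hl hlG (bet ∘ σ)

end Pool.Agent.Lib.SubBisF
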