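import Pool.Agent.Lib.SubBisF.ParF
import Pool.Agent.Lib.SubBisF.SysG
import Pool.Agent.Lib.SubBisF.Up3
import Pool.Agent.Lib.SubBisF.MachSeed

/-!
The sites of a vertex cover and the method with pools: the upper bound for the pools of the
parameters, the seed, the success probability over uniform random bits.
-/

set_option autoImplicit false

open Finset
open scoped BigOperators

namespace Pool.Agent.Lib.SubBisF

open Pool.Agent.Lib.Pa7c826 Pool.Agent.Lib.Pa7c826t Pool.Agent.Lib.SubBisX Pool.Agent.Lib.SubBisC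
  Pool.Agent.Lib.SubBisX.Node Pool.Agent.Lib.SubBisX.Prob P7sG SubBis
open Pool.Agent.Lib.SubBisE (mu kap dg Gm xt)

/-! ### The upper bound -/

theorem upHyp_q {k q : ℕ} (hq : 1 ≤ q) (M : ℕ) (F : Finset (Fin k) → ℤ)
    (hF : ∀ S v, |F (insert v S) - F S| ≤ kap q) (bet : Fin k → Fin (2 ^ lamF q)) :
    UpHyp (2 ^ mu q) (2 ^ lamF q) (2 ^ rhoF q) k (q ^ 2) M F bet (3 * k) := by
  set E : ℝ := q ^ 2 * mu q with hE
  set G : ℝ := E + ((q ^ 2 : ℕ) : ℝ) * (kap q + 1) with hG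
  have hq1 : (1 : ℝ) ≤ (q : ℝ) ^ 2 := by
    have : (1 : ℝ) ≤ q := by exact_mod_cast hq
    nlinarith
  have hE0 : 0 ≤ E := by positivity
  have hG1 : 1 ≤ G := by
    rw [hG]
    push_cast
    have h1 : (0 : ℝ) ≤ kap q := Nat.cast_nonneg _
    nlinarith
  have hGG : G = Gm q + q ^ 2 := by
    rw [hG, hE]
    unfold Gm
    push_cast
    ring
  obtain ⟨UB, h1, h2⟩ := up_pool (R := 2 ^ rhoF q) (q ^ 2) M F bet (E := E) (κ := kap q)
    (l := 1 / G ^ 2) hE0 (fun u => by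
      have h3 := abs_ee_le (mu := mu q) (c := q ^ 2) u.2
      have h4 : |(ee (2 ^ mu q) (q ^ 2) u : ℝ)| ≤ ((q ^ 2 * mu q : ℕ) : ℝ) := by
        exact_mod_cast h3
      refine h4.trans (le_of_eq ?_)
      rw [hE]
      push_cast
      ring) (Nat.cast_nonneg _) (fun S v => by exact_mod_cast hF S v) (by positivity)
    (by
      rw [← hG, one_div_mul_eq_div, div_le_one (by positivity)]
      nlinarith)
  refine ⟨UB, fun D Y hY0 hY1 hY => h1 D Y hY0 hY1 fun v I I' => hY I I' v, h2.trans ?_⟩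
  rw [← hG]
  have h5 : 1 / G ^ 2 * G ^ 2 = 1 := by
    field_simp
  have hR : (2 : ℝ) * 2 ^ lamF q * (1 + 2 ^ mu q) * G ^ 2 ≤ 2 ^ rhoF q := by
    have h6 : G ^ 2 ≤ ((2 : ℝ) ^ (Gm q + 2 * q ^ 2).size) ^ 2 := by
      refine pow_le_pow_left₀ (by linarith) ?_ 2
      have h7 : ((Gm q + 2 * q ^ 2 : ℕ) : ℝ) ≤ ((2 ^ (Gm q + 2 * q ^ 2).size : ℕ) : ℝ) := by
        exact_mod_cast (Nat.lt_size_self _).le
      push_cast at h7
      rw [hGG]
      linarith
    have h8 : (1 : ℝ) + 2 ^ mu q ≤ 2 ^ (mu q + 1) := by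
      have h9 : (1 : ℝ) ≤ 2 ^ mu q := one_le_pow₀ (by norm_num)
      rw [pow_succ]
      linarith
    have h10 : (2 : ℝ) ^ rhoF q = 2 * 2 ^ lamF q * 2 ^ (mu q + 1) *
        ((2 : ℝ) ^ (Gm q + 2 * q ^ 2).size) ^ 2 := by
      unfold rhoF
      rw [← pow_mul]
      ring
    rw [h10]
    gcongr
  have hl2 : Real.log 2 ≤ 1 := by
    have := Real.log_two_lt_d9
    linarith
  have hl0 : 0 ≤ Real.log 2 := Real.log_nonneg (by norm_num)
  have h11 : ((2 ^ lamF q : ℕ) : ℝ) * ((k + k * 2 ^ mu q : ℕ) * Real.log 2) /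
      (1 / G ^ 2 * (2 ^ rhoF q : ℕ)) ≤ k := by
    push_cast
    rw [div_le_iff₀ (by positivity)]
    have h12 : (1 : ℝ) / G ^ 2 * (2 * 2 ^ lamF q * (1 + 2 ^ mu q) * G ^ 2) ≤
        1 / G ^ 2 * 2 ^ rhoF q := mul_le_mul_of_nonneg_left hR (by positivity)
    have h13 : (1 : ℝ) / G ^ 2 * (2 * 2 ^ lamF q * (1 + 2 ^ mu q) * G ^ 2) =
        2 * 2 ^ lamF q * (1 + 2 ^ mu q) := by
      field_simp
    rw [h13] at h12
    have h14 : (0 : ℝ) ≤ (k : ℝ) := Nat.cast_nonneg _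
    have h15 : (0 : ℝ) ≤ 2 ^ lamF q * (1 + 2 ^ mu q) := by positivity
    calc (2 : ℝ) ^ lamF q * ((k + k * 2 ^ mu q) * Real.log 2)
        = k * (2 ^ lamF q * (1 + 2 ^ mu q)) * Real.log 2 := by ring
      _ ≤ k * (2 ^ lamF q * (1 + 2 ^ mu q)) * 1 :=
          mul_le_mul_of_nonneg_left hl2 (by positivity)
      _ ≤ k * (2 * 2 ^ lamF q * (1 + 2 ^ mu q)) := by nlinarith
      _ ≤ k * (1 / G ^ 2 * 2 ^ rhoF q) := mul_le_mul_of_nonneg_left h12 h14
  rw [h5]
  push_cast at h11 ⊢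
  linarith

/-! ### The machine's value -/

theorem stK_eq_stF {k m B R N : ℕ} [NeZero R] (c M d : ℕ) (F : Finset (Fin k) → ℤ)
    (p : Mach.CpF k m B R N) (T : ℕ) :
    Mach.stK c M F (Mach.UF p) (Mach.KF d p) T = stF c M d F p.1 p.2.1 (xt p.2.2) T := by
  induction T with
  | zero => rfl
  | succ T ih =>
    funext τ
    show (if τ = T then _ else _) = (if τ = T then _ else _)
    rw [ih]
    rfl

theorem VF_eq_VlF {k m B R N : ℕ} [NeZero R] (c M d : ℕ) (F : Finset (Fin k) → ℤ)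
    (p : Mach.CpF k m B R N) : Mach.VF c M d F p = VlF c M d F p.1 p.2.1 N (xt p.2.2) := by
  unfold Mach.VF Mach.VlK VlF
  refine sum_congr rfl fun τ _ => ?_
  rw [stK_eq_stF]
  rfl

/-! ### The system -/

/-- the denominator of the value of one copy -/
def DDF (q : ℕ) : ℕ := NNF q * MMF q * q ^ 2

theorem MMF_pos {q : ℕ} (hq : 1 ≤ q) : 0 < MMF q := by
  unfold MMF Gm
  have h1 : 0 < mu q + kap q := by
    unfold kap ParA.kap
    omega
  positivity

theorem DDF_pos {q : ℕ} (hq : 1 ≤ q) : 0 < DDF q := by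
  have h1 := MMF_pos hq
  unfold DDF NNF
  positivity

/-- the random value of a copy -/
def VQ (k q : ℕ) (F : Finset (Fin k) → ℤ) (p : CpQ k q) : ℤ :=
  Mach.VF (q ^ 2) (MMF q) (dg q) F p

theorem vok {q : ℕ} (hq : 1 ≤ q) (k : ℕ) : VOk k (q ^ 2) (DDF q) (VQ k q) := by
  refine ⟨DDF_pos hq, fun F hF hk => ?_, fun F hk p => ?_⟩
  · have h1 := coreF hq hF hk fun F' hF' bet => upHyp_q hq (MMF q) F' hF' bet
    have h2 : ((NNF q : ℝ) * MMF q * (q : ℝ) ^ 2) = DDF q := by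
      unfold DDF
      push_cast
      ring
    rw [h2] at h1
    unfold VQ
    simp only [VF_eq_VlF]
    push_cast at h1 ⊢
    exact h1
  · have h1 := range_VlF hk p.1 p.2.1 (xt p.2.2)
    unfold VQ
    rw [VF_eq_VlF]
    refine h1.trans (le_of_eq ?_)
    unfold DDF mu kap
    push_cast
    ring

/-- the number of bits of the seed -/
def offF (k n q : ℕ) : ℕ :=
  Mach.nbF (mu q) (rhoF q) (lamF q) k (NNF q) (KC n (q ^ 2))

/-- the seed read off a stream of bits -/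
def decQ (k n q : ℕ) (b : ℕ → Bool) : Fin (KC n (q ^ 2)) → CpQ k q :=
  Mach.decF (mu q) (rhoF q) (lamF q) k (NNF q) (KC n (q ^ 2)) b

theorem unif_decQ (k n q : ℕ) : SubBisX.Seed.Unif (offF k n q) (decQ k n q) :=
  Mach.unif_decF _ _ _ _ _ _

/-- the estimate of the tape -/
def esT (n a : ℕ) (adj : ℕ → ℕ → Bool) (C : Finset ℕ) (q : ℕ) (l : List Bool)
    (W : Finset ℕ) : ℕ :=
  esV n a adj C (q ^ 2) (DDF q) (VQ C.card q) (decQ C.card n q (str l)) W

theorem esT_eq (n a : ℕ) (adj : ℕ → ℕ → Bool) (C : Finset ℕ) (q : ℕ) (l : List Bool)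
    (W : Finset ℕ) : esT n a adj C q l W =
    eC C W ((∑ k : Fin (KC n (q ^ 2)), Mach.VF (q ^ 2) (MMF q) (dg q)
      (FC n a adj (kap q) C W) (Mach.decF (mu q) (rhoF q) (lamF q) C.card (NNF q)
        (KC n (q ^ 2)) (str l) k)) -
      ((KC n (q ^ 2) * DDF q : ℕ) : ℤ) * FC n a adj (kap q) C W ∅) (KC n (q ^ 2) * DDF q) := rfl

/-- the final size of the population -/
def cntT (n a : ℕ) (adj : ℕ → ℕ → Bool) (C : Finset ℕ) (q K cap : ℕ) (l : List Bool) : ℕ :=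
  (runC (chC n C adj) (fun X => esT n a adj C q l X.2) cap
    (coinT l (offF C.card n q) cap (10 * n + 1)) (List.replicate K (0, range (n + n)))
      C.card).length

variable {n a : ℕ} {adj : ℕ → ℕ → Bool} {C : Finset ℕ} {q : ℕ}

open Classical in
/-- **The success probability of the approximation scheme.** -/
theorem prob_SF (hq : 1 ≤ q) (h : Cov n a adj C) {K cap m : ℕ} {t : ℝ} (ht : 1 ≤ t)
    (hK0 : 0 < K) (hK : 8 * (C.card * ((2 : ℝ) ^ dl C.card (q ^ 2)) ^ 2 * t ^ 2) ≤ K)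
    (hcap : 2 * ((2 : ℝ) ^ dl C.card (q ^ 2)) ^ 2 * K ≤ cap)
    (hm : offF C.card n q + C.card * cap * 2 * (10 * n + 1) ≤ m) :
    3 * 2 ^ m ≤ 4 * (univ.filter fun τ : Fin m → Bool =>
      |(cntT n a adj C q K cap (List.ofFn τ) : ℝ) *
          2 ^ esT n a adj C q (List.ofFn τ) (range (n + n)) -
        K * (2 ^ n * ind adj (range n) : ℕ)| ≤ K * (2 ^ n * ind adj (range n) : ℕ) / t).card :=
  prob_SV (unif_decQ C.card n q) (Nat.one_le_pow _ _ hq) h (vok hq C.card) ht hK0 hK hcap hm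

open Classical in
/-- **The success probability of the estimate of the logarithm.** -/
theorem prob_PF (hq : 1 ≤ q) (h : Cov n a adj C) {m : ℕ} (hm : offF C.card n q ≤ m) :
    3 * 2 ^ m ≤ 4 * (univ.filter fun τ : Fin m → Bool =>
      |(esT n a adj C q (List.ofFn τ) (range n) : ℝ) - Real.logb 2 (ind adj (range n))| ≤
        8 * C.card / (q : ℝ) ^ 2 + 1).card := by
  have h1 := prob_PV (unif_decQ C.card n q) (Nat.one_le_pow 2 _ hq) h (vok hq C.card) hm
  have h2 : (((q ^ 2 : ℕ) : ℝ)) = (q : ℝ) ^ 2 := by push_cast; ring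
  rw [h2] at h1
  exact h1

end Pool.Agent.Lib.SubBisF
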