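import Pool.Agent.Lib.SubBisF.ParQ
import Pool.Agent.Lib.SubBisF.SysF
import Pool.Agent.Lib.SubBisF.MachSeed

/-!
A randomised algorithm approximates the number of independent sets of all bipartite graphs up to a
factor `2 ^ (C k (log log N) ^ 4 / (log N) ^ 2)` in polynomial time, `k` the vertex cover number.
-/

set_option autoImplicit false

namespace Pool.Agent.Lib.SubBisF.FF

open Finset Pool.Agent.Lib.PolyTime Pool.Agent.Lib.Pa7c826 Pool.Agent.Lib.Pa7c826t
open Pool.Agent.Lib.SubBisX Pool.Agent.Lib.P8e91ed.PT Pool.Agent.Lib.P7sG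
open Pool.Agent.Lib.SubBisB Pool.Agent.Lib.SubBisC
open Pool.Agent.Lib.SubBisE (mu kap Gm qE expT)

/-! ### The estimate -/

/-- the random numbers of one copy -/
abbrev Cpy (k q : ℕ) : Type := Mach.CpF k (2 ^ mu q) (2 ^ lamF q) (2 ^ rhoF q) (NNF q)

/-- the random value of a copy -/
def VQ (k q : ℕ) (F : Finset (Fin k) → ℤ) (p : Cpy k q) : ℤ := Mach.VF (q ^ 2) (MMF q) (SubBisE.dg q) F p

/-- the denominator -/
def DQ (q : ℕ) : ℕ := NNF q * MMF q * q ^ 2

/-- the number of bits of the seed -/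
def offQ (k n q : ℕ) : ℕ := Mach.nbF (mu q) (rhoF q) (lamF q) k (NNF q) (KC n (q ^ 2))

/-- the seed read off a stream of bits -/
def decQ (k n q : ℕ) (b : ℕ → Bool) : Fin (KC n (q ^ 2)) → Cpy k q :=
  Mach.decF (mu q) (rhoF q) (lamF q) k (NNF q) (KC n (q ^ 2)) b

theorem unif_decQ (k n q : ℕ) : SubBisX.Seed.Unif (offQ k n q) (decQ k n q) :=
  Mach.unif_decF _ _ _ _ _ _

/-- the estimate of the tape -/
def esQ (n a : ℕ) (adj : ℕ → ℕ → Bool) (C : Finset ℕ) (q : ℕ) (l : List Bool)
    (W : Finset ℕ) : ℕ :=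
  esV n a adj C (q ^ 2) (DQ q) (VQ C.card q) (decQ C.card n q (Prob.str l)) W

section poly

variable {α : Type} {D : α → Prop} {ctx : List (α → List Bool)} {w : α → List Bool}
  {C : α → Finset ℕ}

/-- The parameters of the estimate are computable. -/
structure QComp (D : α → Prop) (ctx : List (α → List Bool)) (q : α → ℕ) : Prop where
  qq : PolyN D ctx q
  N : PolyN D ctx (fun a => (2 ^ lamF (q a) + 1) ^ SubBisE.dg (q a))
  P : PolyN D ctx (fun a => (2 ^ rhoF (q a)) ^ SubBisE.dg (q a))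

section par

variable {q : α → ℕ}

theorem QComp.Q (h : QComp D ctx q) : PolyN D ctx (fun a => q a ^ 2) :=
  (h.qq.mul h.qq).congr fun a _ => by ring

theorem poly_mu (h : PolyN D ctx q) : PolyN D ctx (fun a => mu (q a)) :=
  ParB.poly_mu ((h.mul h).congr fun a _ => by ring)

theorem poly_dg (h : PolyN D ctx q) : PolyN D ctx (fun a => SubBisE.dg (q a)) :=
  ((PolyN.const 16).mul h).mul (poly_mu h)

theorem poly_kap (h : PolyN D ctx q) : PolyN D ctx (fun a => kap (q a)) :=
  ParB.poly_kap ((h.mul h).congr fun a _ => by ring)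

theorem poly_two_mu (h : PolyN D ctx q) : PolyN D ctx (fun a => 2 ^ mu (q a)) :=
  ParB.poly_two_mu ((h.mul h).congr fun a _ => by ring)

theorem poly_Gm (h : PolyN D ctx q) : PolyN D ctx (fun a => Gm (q a)) :=
  ((h.mul h).mul ((poly_mu h).add (poly_kap h))).congr fun a _ => by
    unfold Gm
    ring

theorem poly_bF (h : PolyN D ctx q) : PolyN D ctx (fun a => bF (q a)) :=
  Par.poly_size (((h.mul h).mul (poly_kap h)).congr fun a _ => by ring)

theorem poly_two_bF (h : PolyN D ctx q) : PolyN D ctx (fun a => 2 ^ bF (q a)) :=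
  Par.poly_two_size (((h.mul h).mul (poly_kap h)).congr fun a _ => by ring)

theorem poly_lamF (h : PolyN D ctx q) : PolyN D ctx (fun a => lamF (q a)) :=
  (PolyN.const 2).mul (poly_bF h)

theorem poly_two_lamF (h : PolyN D ctx q) : PolyN D ctx (fun a => 2 ^ lamF (q a)) :=
  ((poly_two_bF h).mul (poly_two_bF h)).congr fun a _ => by
    unfold lamF
    ring

theorem poly_G2 (h : PolyN D ctx q) : PolyN D ctx (fun a => Gm (q a) + 2 * q a ^ 2) :=
  ((poly_Gm h).add ((PolyN.const 2).mul (h.mul h))).congr fun a _ => by ring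

theorem poly_rhoF (h : PolyN D ctx q) : PolyN D ctx (fun a => rhoF (q a)) :=
  ((((poly_lamF h).add (poly_mu h).succ)).add
    ((PolyN.const 2).mul (Par.poly_size (poly_G2 h)))).succ.congr fun _ _ => rfl

theorem poly_two_rhoF (h : PolyN D ctx q) : PolyN D ctx (fun a => 2 ^ rhoF (q a)) := by
  have h1 := Par.poly_two_size (poly_G2 h)
  exact ((PolyN.const 4).mul (((poly_two_lamF h).mul (poly_two_mu h)).mul (h1.mul h1))).congr
    fun a _ => by
      unfold rhoF
      ring

theorem QComp.MM (h : QComp D ctx q) : PolyN D ctx (fun a => MMF (q a)) :=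
  (((poly_Gm h.qq).mul (poly_Gm h.qq)).mul h.N).congr fun a _ => by
    unfold MMF
    ring

theorem QComp.NN (h : QComp D ctx q) : PolyN D ctx (fun a => NNF (q a)) :=
  h.MM.mul ((poly_two_mu h.qq).mul h.P)

theorem QComp.DQ (h : QComp D ctx q) : PolyN D ctx (fun a => DQ (q a)) :=
  (h.NN.mul h.MM).mul h.Q

theorem QComp.KC {n : α → ℕ} (h : QComp D ctx q) (hn : PolyN D ctx n) :
    PolyN D ctx (fun a => KC (n a) (q a ^ 2)) :=
  FS.poly_KC hn h.Q

theorem QComp.off {n k : α → ℕ} (h : QComp D ctx q) (hk : PolyN D ctx k) (hn : PolyN D ctx n) :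
    PolyN D ctx (fun a => offQ (k a) (n a) (q a)) :=
  (h.KC hn).mul ((hk.mul (poly_lamF h.qq)).add ((hk.mul ((poly_two_rhoF h.qq).mul
    (poly_mu h.qq))).add (h.NN.mul ((poly_two_lamF h.qq).mul (poly_rhoF h.qq)))))

end par

theorem poly_qF {x : α → ℕ} (hx : PolyN D ctx x) : PolyN D ctx (fun a => qF (x a)) := by
  have hs := Par.poly_size hx
  have hss := Par.poly_size hs
  have h2 : PolyN D ctx (fun a => 5264 * (x a).size.size ^ 2) :=
    ((PolyN.const 5264).mul (hss.mul hss)).congr fun a _ => by ring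
  have h1 : PolyN D ctx (fun a => (x a).size / (5264 * (x a).size.size ^ 2)) :=
    Tab.TabAux.divz hs h2
  exact ((PolyN.const 1).add (PolyN.sub h1 (PolyN.const 1))).congr
    (fun a _ => by
      unfold qF
      omega)

theorem qcomp_qF {x : α → ℕ} (hx : PolyN D ctx x) : QComp D ctx (fun a => qF (x a)) := by
  have hq := poly_qF hx
  have h2 := Par.poly_two_size hx
  obtain ⟨B, hB⟩ := Bdd.ofN h2
  refine ⟨hq, n_pow (poly_two_lamF hq).succ (poly_dg hq) ?_,
    n_pow (poly_two_rhoF hq) (poly_dg hq) ?_⟩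
  · refine ⟨Polynomial.C ((2 ^ lamF 1 + 1) ^ SubBisE.dg 1) + B, fun a ha => (ker_le (x a)).trans ?_⟩
    rw [Polynomial.eval_add, Polynomial.eval_C]
    exact Nat.add_le_add_left (hB a ha) _
  · refine ⟨Polynomial.C ((2 ^ rhoF 1) ^ SubBisE.dg 1) + B, fun a ha => (pool_le (x a)).trans ?_⟩
    rw [Polynomial.eval_add, Polynomial.eval_C]
    exact Nat.add_le_add_left (hB a ha) _

theorem poly_esQ (hw : PolyC D ctx w) (hC : PolyS D ctx (fun x => nOf (w x)) C)
    (hcov : SubBisE.FE.CovD D w C) {q nW : α → ℕ} {W : α → Finset ℕ} (hnW : PolyN D ctx nW)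
    (hW : PolyS D ctx nW W) (hq : QComp D ctx q) {r : α → List Bool} (hr : PolyC D ctx r) :
    PolyN D ctx (fun x =>
      esQ (nOf (w x)) (aOf (w x)) (adjOf (w x)) (C x) (q x) (r x) (W x)) := by
  have hn := poly_nOf hw
  have h := Mach.poly_eVF (W := W) (C := C) (μ := fun x => mu (q x)) (ρ := fun x => rhoF (q x))
    (lam := fun x => lamF (q x)) (N := fun x => NNF (q x)) (c := fun x => q x ^ 2)
    (d := fun x => SubBisE.dg (q x)) (Γ := fun x => Gm (q x)) (M := fun x => MMF (q x))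
    (κ := fun x => kap (q x)) (K := fun x => KC (nOf (w x)) (q x ^ 2))
    (den := fun x => KC (nOf (w x)) (q x ^ 2) * DQ (q x))
    hw hC hnW hW (poly_mu hq.qq) (poly_two_mu hq.qq) (poly_rhoF hq.qq) (poly_two_rhoF hq.qq)
    (poly_lamF hq.qq) (poly_two_lamF hq.qq) hq.NN hq.Q (poly_dg hq.qq) (poly_Gm hq.qq) hq.MM
    hq.N (poly_kap hq.qq) (hq.KC hn) ((hq.KC hn).mul hq.DQ) hr (fun a ha v u y =>
      SubBisE.abs_gr_le (fun S v => FC_insert (hcov a ha) (W a) v S) v u y)
  exact h

/-! ### The machine -/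

/-- the output `2 ^ e` -/
def p2 (e : ℕ) : List Bool := false :: (List.replicate e false ++ [true])

theorem outVal_p2 (e : ℕ) : outVal (p2 e) = ((2 ^ e : ℕ) : ℚ) := by
  show ((binVal (List.replicate e false ++ [true]) : ℕ) : ℚ) = _
  rw [binVal_eq_bval, bval_append, bval_replicate_false, List.length_replicate]
  simp [bval]

theorem poly_p2 {e : α → ℕ} (he : PolyN D ctx e) : PolyC D ctx (fun x => p2 (e x)) :=
  PolyC.cons false ((PolyC.replicateFalse he).append (PolyC.const [true]))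

/-- the size of the input -/
def xw (w : List Bool) : ℕ := nOf w + tOf w

/-- the vertex cover number -/
def kw (w : List Bool) : ℕ := (FS.cvW w).card

/-- the accuracy for small covers -/
def tw (c : ℕ) (w : List Bool) : ℕ := (xw w + 4) ^ c

/-- the output -/
noncomputable def outF (c : ℕ) (w r : List Bool) : List Bool :=
  if decide (kw w = 0) then p2 (nOf w)
  else if decide (kw w ≤ (xw w).size ^ 2) then
    SubBisE.FE.ansE (nOf w) (aOf w) (adjOf w) (FS.cvW w) (qE (kw w) (tw c w)) (tw c w) r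
  else p2 (esQ (nOf w) (aOf w) (adjOf w) (FS.cvW w) (qF (xw w)) r (range (nOf w)))

/-- the number of random bits -/
def needF (c : ℕ) (w : List Bool) : ℕ :=
  SubBisE.FE.needE (nOf w) (kw w) (qE (kw w) (tw c w)) (tw c w) +
    offQ (kw w) (nOf w) (qF (xw w))

/-- the machine's cover is a vertex cover -/
def Cd (D : α → Prop) (w : α → List Bool) : Prop := SubBisE.FE.CovD D w fun a => FS.cvW (w a)

theorem poly_outF (c : ℕ) (hw : PolyC D ctx w) (hcov : Cd D w) {r : α → List Bool}
    (hr : PolyC D ctx r) : PolyC D ctx (fun x => outF c (w x) (r x)) := by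
  have hn := poly_nOf hw
  have hC : PolyS D ctx (fun x => nOf (w x)) (fun x => FS.cvW (w x)) := poly_cv hw
  have hk : PolyN D ctx (fun x => kw (w x)) := PolyS.card hn hC
  have hx : PolyN D ctx (fun x => xw (w x)) := hn.add (poly_tOf hw)
  have ht : PolyN D ctx (fun x => tw c (w x)) := PolyN.pow (hx.add (PolyN.const 4)) c
  have ht1 : ∀ a, D a → 1 ≤ tw c (w a) := fun a _ => Nat.one_le_pow _ _ (by omega)
  have hs := Par.poly_size hx
  refine PolyC.ite (PolyB.natEq hk (PolyN.const 0))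
    (PolyC.mono (poly_p2 hn) fun _ h => h.1) ?_
  refine PolyC.mono (PolyC.ite (PolyB.le hk
    ((hs.mul hs).congr fun a _ => by ring)) (PolyC.mono ?_ fun _ h => h.1)
    (PolyC.mono ?_ fun _ h => h.1)) fun _ h => h.1
  · exact SubBisE.FE.poly_ansE hw hC hcov (SubBisE.FE.qcomp_qE hk ht ht1) ht ht1 hr
  · exact poly_p2 (poly_esQ hw hC hcov hn (PolyS.range hn) (qcomp_qF hx) hr)

theorem poly_needF (c : ℕ) (hw : PolyC D ctx w) : PolyN D ctx (fun x => needF c (w x)) := by
  have hn := poly_nOf hw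
  have hC : PolyS D ctx (fun x => nOf (w x)) (fun x => FS.cvW (w x)) := poly_cv hw
  have hk : PolyN D ctx (fun x => kw (w x)) := PolyS.card hn hC
  have hx : PolyN D ctx (fun x => xw (w x)) := hn.add (poly_tOf hw)
  have ht : PolyN D ctx (fun x => tw c (w x)) := PolyN.pow (hx.add (PolyN.const 4)) c
  have ht1 : ∀ a, D a → 1 ≤ tw c (w a) := fun a _ => Nat.one_le_pow _ _ (by omega)
  exact (SubBisE.FE.poly_needE hn (SubBisE.FE.qcomp_qE hk ht ht1) ht ht1).add
    ((qcomp_qF hx).off hk hn)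

end poly

/-! ### The code of a graph does not depend on the accuracy -/

theorem adjOf_inCode_eq (G : BGraph) (t t' : ℕ) : adjOf (inCode G t) = adjOf (inCode G t') := by
  have key : ∀ (s s' : ℕ) (u v : ℕ), adjOf (inCode G s) u v = true →
      adjOf (inCode G s') u v = true := by
    intro s s' u v h
    have hu : u < G.a + G.b ∧ v < G.a + G.b := by
      have h1 := adjOf_bip h
      rw [aOf_inCode, bOf_inCode] at h1
      omega
    obtain ⟨x, rfl⟩ := (num_range G u).1 hu.1
    obtain ⟨y, rfl⟩ := (num_range G v).1 hu.2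
    rw [adjOf_num] at h ⊢
    exact h
  funext u v
  rw [Bool.eq_iff_iff]
  exact ⟨key t t' u v, key t' t u v⟩

theorem cvW_inCode_eq (G : BGraph) (t t' : ℕ) : FS.cvW (inCode G t) = FS.cvW (inCode G t') := by
  unfold FS.cvW
  rw [adjOf_inCode_eq G t t', nOf_inCode, nOf_inCode, aOf_inCode, aOf_inCode]

/-! ### The theorem -/

/-- The three cases of the analysis. -/
theorem good_out {c : ℕ} (hc2 : 2 ≤ c)
    (hc : ∀ x k : ℕ, k ≤ x.size ^ 2 → (2 : ℝ) ^ expT k ≤ (((x + 4) ^ c : ℕ) : ℝ))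
    (hV : ∀ q k : ℕ, 1 ≤ q → VOk k (q ^ 2) (DQ q) (VQ k q)) (G : BGraph) (t : ℕ) (ht : 1 ≤ t)
    (N : ℕ) (hN : needF c (inCode G t) ≤ N) :
    3 * 2 ^ N ≤ 4 * Nat.card {r : Fin N → Bool //
      LogGood G ((8 * 284256 ^ 2 + 9) * coverNum G *
        (Real.logb 2 (Real.logb 2 (((G.a + G.b : ℕ) : ℝ) + t + 4))) ^ 4 /
          (Real.logb 2 (((G.a + G.b : ℕ) : ℝ) + t + 4)) ^ 2)
        (outF c (inCode G t) (List.ofFn r))} := by
  classical
  have hn : nOf (inCode G t) = G.a + G.b := nOf_inCode G t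
  have htt : tOf (inCode G t) = t := tOf_inCode G t
  have hk : kw (inCode G t) = coverNum G := FS.card_cvW G t
  have hcov := FS.cov_cvW G t
  have hx : xw (inCode G t) = G.a + G.b + t := by
    unfold xw
    rw [hn, htt]
  set x : ℕ := G.a + G.b + t with hxd
  have hx1 : 1 ≤ x := by omega
  have hcast : ((G.a + G.b : ℕ) : ℝ) + t + 4 = (x : ℝ) + 4 := by
    rw [hxd]
    push_cast
    ring
  rw [hcast]
  have hlam2 : 2 ≤ Real.logb 2 ((x : ℝ) + 4) := Fin2.two_le_log x
  have hL1 : 1 ≤ Real.logb 2 (Real.logb 2 ((x : ℝ) + 4)) := Fin2.one_le_loglog x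
  have hinv := inv_sq_le hx1
  have hsz := lam_le_size hx1
  set lam := Real.logb 2 ((x : ℝ) + 4) with hlam
  set L := Real.logb 2 lam with hL
  set k : ℕ := coverNum G with hkd
  have hL4 : (1 : ℝ) ≤ L ^ 4 := one_le_pow₀ hL1
  have hlam0 : 0 < lam ^ 2 := by positivity
  have hind : ind (adjOf (inCode G t)) (range (G.a + G.b)) = numIndep G.graph :=
    ind_eq_numIndep G t
  have hpos : 0 < numIndep G.graph := by
    rw [← hind]
    exact card_pos.2 ⟨∅, by simp⟩
  have hall : ∀ P : (Fin N → Bool) → Prop, (∀ r, P r) →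
      3 * 2 ^ N ≤ 4 * Nat.card {r : Fin N → Bool // P r} := by
    intro P hP
    rw [Nat.card_congr (Equiv.subtypeUnivEquiv hP), Nat.card_eq_fintype_card, Fintype.card_fun,
      Fintype.card_bool, Fintype.card_fin]
    omega
  by_cases hk0 : k = 0
  · -- no edges
    refine hall _ fun r => ?_
    have h1 : outF c (inCode G t) (List.ofFn r) = p2 (G.a + G.b) := by
      unfold outF
      rw [if_pos (decide_eq_true (by rw [hk]; exact hk0)), hn]
    have h2 : numIndep G.graph = 2 ^ (G.a + G.b) := by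
      refine le_antisymm ?_ ?_
      · rw [← hind]
        refine (ind_le_two_pow _).trans (le_of_eq ?_)
        rw [card_range]
      · have h3 := FinC.two_pow_le G t
        have h4 : vc G = 0 := hk0
        rw [h4, Nat.sub_zero] at h3
        exact h3
    rw [h1]
    refine ⟨by rw [outVal_p2]; positivity, ?_⟩
    rw [outVal_p2, h2, Rat.cast_natCast, sub_self, abs_zero]
    positivity
  have hkpos : 1 ≤ k := Nat.one_le_iff_ne_zero.2 hk0
  have hkr : (1 : ℝ) ≤ k := by exact_mod_cast hkpos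
  by_cases hks : k ≤ x.size ^ 2
  · -- small covers
    set t' : ℕ := (x + 4) ^ c with ht'
    have htw : tw c (inCode G t) = t' := by
      unfold tw
      rw [hx]
    have ht2 : (x + 4) ^ 2 ≤ t' := Nat.pow_le_pow_right (by omega) hc2
    have ht21 : 2 ≤ t' := by nlinarith
    have h1 : ∀ r : Fin N → Bool, outF c (inCode G t) (List.ofFn r) =
        SubBisE.FE.ansE (G.a + G.b) G.a (adjOf (inCode G t')) (FS.cvW (inCode G t'))
          (qE k t') t' (List.ofFn r) := by
      intro r
      unfold outF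
      rw [if_neg (by rw [decide_eq_true_eq, hk]; exact hk0),
        if_pos (decide_eq_true (by rw [hk, hx]; exact hks)), hn, hk, htw, aOf_inCode,
        adjOf_inCode_eq G t t', cvW_inCode_eq G t t']
    have h2 := SubBisE.FE.goodE (G := G) (t := t') (q := qE k t') (C := FS.cvW (inCode G t'))
      (FS.cov_cvW G t') (SubBisE.one_le_qE k t') (by omega)
      (Or.inr (by
        rw [FS.card_cvW]
        exact SubBisE.par_T hkpos (by omega) (hc x k hks)))
      (m := N) (by
        rw [FS.card_cvW]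
        refine le_trans ?_ hN
        unfold needF
        rw [hn, hk, htw]
        exact Nat.le_add_right _ _)
    refine h2.trans (Nat.mul_le_mul_left 4 ?_)
    refine Nat.card_le_card_of_injective (fun r => ⟨r.1, ?_⟩) ?_
    · rw [h1]
      refine logGood_of_good ht21 ?_ r.2
      have h3 : lam ≤ (x : ℝ) + 4 := logb_le_self (by positivity)
      have h4 : lam ^ 2 ≤ (t' : ℝ) := by
        refine (pow_le_pow_left₀ (by linarith) h3 2).trans ?_
        exact_mod_cast ht2
      have ht0 : (0 : ℝ) < t' := lt_of_lt_of_le hlam0 h4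
      rw [div_le_div_iff₀ ht0 hlam0]
      calc 4 * lam ^ 2 ≤ 4 * t' := by linarith
        _ ≤ ((8 * 284256 ^ 2 + 9) * k * L ^ 4) * t' := by
            refine mul_le_mul_of_nonneg_right ?_ ht0.le
            nlinarith
    · intro r r' hrr
      simp only [Subtype.mk.injEq] at hrr
      exact Subtype.ext hrr
  · -- large covers
    rw [not_le] at hks
    set q := qF x with hq
    have hq1 : 1 ≤ q := one_le_qF x
    have h1 : ∀ r : Fin N → Bool, outF c (inCode G t) (List.ofFn r) =
        p2 (esQ (G.a + G.b) G.a (adjOf (inCode G t)) (FS.cvW (inCode G t)) q (List.ofFn r)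
          (range (G.a + G.b))) := by
      intro r
      unfold outF
      rw [if_neg (by rw [decide_eq_true_eq, hk]; exact hk0),
        if_neg (by rw [decide_eq_true_eq, hk, hx]; omega), hn, hx, aOf_inCode]
    have hP := prob_PV (unif_decQ (FS.cvW (inCode G t)).card (G.a + G.b) q)
      (Nat.one_le_pow 2 q hq1) hcov (hV q _ hq1) (m := N) (by
        refine le_trans ?_ hN
        unfold needF
        rw [hn, hx]
        exact Nat.le_add_left _ _)
    refine hP.trans (Nat.mul_le_mul_left 4 ?_)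
    rw [Nat.card_eq_fintype_card, Fintype.card_subtype]
    refine card_le_card fun r hr => mem_filter.2 ⟨mem_univ r, ?_⟩
    have h2 := (mem_filter.1 hr).2
    set E : ℕ := esQ (G.a + G.b) G.a (adjOf (inCode G t)) (FS.cvW (inCode G t)) q (List.ofFn r)
      (range (G.a + G.b)) with hE
    have h3 : |(E : ℝ) - Real.logb 2 (numIndep G.graph : ℝ)| ≤ 8 * k / ((q ^ 2 : ℕ) : ℝ) + 1 := by
      have hkk : ((FS.cvW (inCode G t)).card : ℝ) = (k : ℝ) := by
        exact_mod_cast FS.card_cvW G t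
      rw [← hind, ← hkk]
      exact h2
    rw [h1 r]
    refine ⟨by rw [outVal_p2]; positivity, ?_⟩
    have h5 : Real.logb 2 (((2 ^ E : ℕ) : ℚ) : ℝ) = (E : ℝ) := by
      rw [Rat.cast_natCast]
      push_cast
      rw [Real.logb_pow, Real.logb_self_eq_one (by norm_num), mul_one]
    rw [outVal_p2, h5]
    refine h3.trans ?_
    have hks' : ((x.size : ℕ) : ℝ) ^ 2 ≤ k := by exact_mod_cast hks.le
    have h6 : lam ^ 2 ≤ 9 * k := by
      have h7 := pow_le_pow_left₀ (by linarith) hsz 2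
      nlinarith
    have h8 : (1 : ℝ) ≤ 9 * k * L ^ 4 / lam ^ 2 := by
      rw [le_div_iff₀ hlam0]
      have h9 : 9 * (k : ℝ) * 1 ≤ 9 * k * L ^ 4 := mul_le_mul_of_nonneg_left hL4 (by positivity)
      linarith
    have h10 : 8 * (k : ℝ) / ((q ^ 2 : ℕ) : ℝ) ≤ 8 * k * (284256 ^ 2 * L ^ 4 / lam ^ 2) := by
      have h11 := mul_le_mul_of_nonneg_left hinv (show (0 : ℝ) ≤ 8 * k by positivity)
      have h12 : 8 * (k : ℝ) / ((q ^ 2 : ℕ) : ℝ) = 8 * k * (1 / ((q : ℝ) ^ 2)) := by
        push_cast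
        ring
      rw [h12]
      exact h11
    have h13 : (8 * 284256 ^ 2 + 9) * (k : ℝ) * L ^ 4 / lam ^ 2 =
        8 * k * (284256 ^ 2 * L ^ 4 / lam ^ 2) + 9 * k * L ^ 4 / lam ^ 2 := by
      ring
    rw [h13]
    linarith

/-- **Theorem.** -/
theorem rschemeG_log (hV : ∀ q k : ℕ, 1 ≤ q → VOk k (q ^ 2) (DQ q) (VQ k q)) :
    ∃ C : ℝ, RSchemeG fun G t => C * coverNum G *
      (Real.logb 2 (Real.logb 2 (((G.a + G.b : ℕ) : ℝ) + t + 4))) ^ 4 /
        (Real.logb 2 (((G.a + G.b : ℕ) : ℝ) + t + 4)) ^ 2 := by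
  obtain ⟨c, hc2, hc⟩ := exists_exp
  refine ⟨8 * 284256 ^ 2 + 9, rSchemeG_of (need := fun G t => needF c (inCode G t))
    (out := fun G t r => outF c (inCode G t) r) ?_ ?_ (good_out hc2 hc hV)⟩
  · have hw : PolyC (fun x : BGraph × ℕ => 1 ≤ x.2) [fun x => inCode x.1 x.2]
        (fun x => inCode x.1 x.2) := PolyC.var (by simp)
    exact poly_needF c hw
  · have hw : PolyC (fun x : BGraph × ℕ × List Bool =>
        1 ≤ x.2.1 ∧ needF c (inCode x.1 x.2.1) ≤ x.2.2.length)
        [fun x => inCode x.1 x.2.1, fun x => x.2.2] (fun x => inCode x.1 x.2.1) :=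
      PolyC.var (by simp)
    have hr : PolyC (fun x : BGraph × ℕ × List Bool =>
        1 ≤ x.2.1 ∧ needF c (inCode x.1 x.2.1) ≤ x.2.2.length)
        [fun x => inCode x.1 x.2.1, fun x => x.2.2] (fun x => x.2.2) :=
      PolyC.var (by simp)
    refine poly_outF c hw (fun x _ => ?_) hr
    have h := FS.cov_cvW x.1 x.2.1
    rw [nOf_inCode, aOf_inCode]
    exact h

/-- **Theorem.** A randomised algorithm approximates the number of independent sets of all
bipartite graphs up to a factor `2 ^ (C k (log log N) ^ 4 / (log N) ^ 2)` in polynomial time. -/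
theorem rschemeG_vok : ∃ C : ℝ, RSchemeG fun G t => C * coverNum G *
      (Real.logb 2 (Real.logb 2 (((G.a + G.b : ℕ) : ℝ) + t + 4))) ^ 4 /
        (Real.logb 2 (((G.a + G.b : ℕ) : ℝ) + t + 4)) ^ 2 :=
  rschemeG_log fun _ k hq => vok hq k

end Pool.Agent.Lib.SubBisF.FF
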