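import Pool.Agent.Lib.SubBisF.Run
import Pool.Agent.Lib.SubBisF.Phi

/-!
# SubBisF.Law: the law of the process

Along `Seg` (induction on `l`, `z ⊆ R1`).
`law`: `av_U run l r z U = ce F R1 r z` for `Seg bet R1 l univ`: the digit `U v` is independent of
`run l' ..` (`v ∉ l'`: `run_congr_dig`, `Bounds.av_update`), `av_u φ = pv F v R1 z` and
`ce F R1 r z = pv · ce F (insert v R1) r (insert v z) + (1 - pv) · ce F (insert v R1) r z`.
`run_ind` (R8) and `av_run_own` (R9): if the first site `w` of the list is not `v`, expand both sides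
and use the induction hypothesis; if `w = v`, `Seg.run_eq`.
-/

set_option autoImplicit false

open scoped BigOperators

namespace Pool.Agent.Lib.SubBisF

open Finset SubBis Pool.Agent.Lib.SubBisX.Reg Pool.Agent.Lib.SubBisX.Core
open Pool.Agent.Lib.SubBisX
open Pool.Agent.Lib.SubBisE (agr ker cl gam vl xt Okd)
open Pool.Agent.Lib.SubBisB (wt2 ZF EG pv Rb Rp psi)

variable {n k m B R : ℕ}

namespace LawAux

/-- the site is not in the rest of the list -/
theorem notMem_tail {bet : Fin k → Fin B} {R1 : Finset (Fin k)} {v : Fin k} {l : List (Fin k)}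
    (hs : Seg bet (insert v R1) l univ) : v ∉ l := fun h =>
  ((hs.mem_iff v).1 h).2 (mem_insert_self v R1)

/-- the mean over one digit -/
theorem av_digit1 [NeZero m] (v : Fin k) (a : Fin m → ℝ) {G H : (Fin k → Fin m) → ℝ}
    (hG : ∀ U x, G (Function.update U v x) = G U) (hH : ∀ U x, H (Function.update U v x) = H U) :
    (av fun U : Fin k → Fin m => a (U v) * G U + (1 - a (U v)) * H U) =
      av a * av G + (1 - av a) * av H := by
  rw [← Bounds.av_update v fun U : Fin k → Fin m => a (U v) * G U + (1 - a (U v)) * H U]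
  have h1 : ∀ U : Fin k → Fin m, (av fun x : Fin m =>
      a (Function.update U v x v) * G (Function.update U v x) +
        (1 - a (Function.update U v x v)) * H (Function.update U v x)) =
      av a * G U + (1 - av a) * H U := by
    intro U
    have h2 : (fun x : Fin m => a (Function.update U v x v) * G (Function.update U v x) +
        (1 - a (Function.update U v x v)) * H (Function.update U v x)) =
        fun x : Fin m => (G U - H U) * a x + H U := by
      funext x
      rw [Function.update_self, hG, hH]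
      ring
    rw [h2, av_add, av_smul, av_const]
    ring
  simp only [h1]
  rw [av_add, av_smul, av_smul]

/-- the classes of the larger set of sites, with `v` -/
theorem mem_sm_insert {R1 z : Finset (Fin k)} {v : Fin k} (hv : v ∉ R1) (S : Finset (Fin k)) :
    S ∈ SubBisB.sm (insert v R1) (insert v z) ↔ S ∈ SubBisB.sm R1 z ∧ v ∈ S := by
  unfold SubBisB.sm
  simp only [mem_filter, mem_univ, true_and]
  constructor
  · intro h
    have hvS : v ∈ S := by
      have h1 : v ∈ insert v z ∩ insert v R1 :=
        mem_inter.2 ⟨mem_insert_self _ _, mem_insert_self _ _⟩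
      rw [← h] at h1
      exact (mem_inter.1 h1).1
    refine ⟨?_, hvS⟩
    ext x
    have h1 := Finset.ext_iff.1 h x
    simp only [mem_inter, mem_insert] at h1 ⊢
    by_cases hx : x = v
    · subst hx
      exact ⟨fun h2 => absurd h2.2 hv, fun h2 => absurd h2.2 hv⟩
    · simp only [hx, false_or] at h1
      exact h1
  · rintro ⟨h, hvS⟩
    ext x
    have h1 := Finset.ext_iff.1 h x
    simp only [mem_inter, mem_insert] at h1 ⊢
    by_cases hx : x = v
    · subst hx
      simp [hvS]
    · simp only [hx, false_or]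
      exact h1

/-- the classes of the larger set of sites, without `v` -/
theorem mem_sm_of_notMem {R1 z : Finset (Fin k)} {v : Fin k} (hv : v ∉ R1) (hz : v ∉ z)
    (S : Finset (Fin k)) :
    S ∈ SubBisB.sm (insert v R1) z ↔ S ∈ SubBisB.sm R1 z ∧ ¬ v ∈ S := by
  unfold SubBisB.sm
  simp only [mem_filter, mem_univ, true_and]
  constructor
  · intro h
    have hvS : v ∉ S := by
      intro h0
      have h1 : v ∈ S ∩ insert v R1 := mem_inter.2 ⟨h0, mem_insert_self _ _⟩
      rw [h] at h1
      exact hz (mem_inter.1 h1).1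
    refine ⟨?_, hvS⟩
    ext x
    have h1 := Finset.ext_iff.1 h x
    simp only [mem_inter, mem_insert] at h1 ⊢
    by_cases hx : x = v
    · subst hx
      exact ⟨fun h2 => absurd h2.2 hv, fun h2 => absurd h2.2 hv⟩
    · simp only [hx, false_or] at h1
      exact h1
  · rintro ⟨h, hvS⟩
    ext x
    have h1 := Finset.ext_iff.1 h x
    simp only [mem_inter, mem_insert] at h1 ⊢
    by_cases hx : x = v
    · subst hx
      simp [hvS, hz]
    · simp only [hx, false_or]
      exact h1

theorem self_mem_sm (R1 z : Finset (Fin k)) : z ∈ SubBisB.sm R1 z :=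
  mem_filter.2 ⟨mem_univ _, rfl⟩

theorem sum_sm_pos (F : Finset (Fin k) → ℤ) (R1 z : Finset (Fin k)) :
    0 < ∑ S ∈ SubBisB.sm R1 z, wt2 F S :=
  sum_pos (fun S _ => SubBisB.wt2_pos S) ⟨z, self_mem_sm R1 z⟩

/-- the split of a sum over a class -/
theorem sum_sm_split {R1 z : Finset (Fin k)} {v : Fin k} (hv : v ∉ R1) (hz : v ∉ z)
    (f : Finset (Fin k) → ℝ) :
    ∑ S ∈ SubBisB.sm R1 z, f S = ∑ S ∈ SubBisB.sm (insert v R1) (insert v z), f S +
      ∑ S ∈ SubBisB.sm (insert v R1) z, f S := by
  rw [← sum_filter_add_sum_filter_not (SubBisB.sm R1 z) (fun S => v ∈ S) f]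
  congr 1
  · refine sum_congr ?_ fun _ _ => rfl
    ext S
    rw [mem_filter, mem_sm_insert hv]
  · refine sum_congr ?_ fun _ _ => rfl
    ext S
    rw [mem_filter, mem_sm_of_notMem hv hz]

/-- one step of the conditional mean -/
theorem ce_step (F : Finset (Fin k) → ℤ) {R1 z : Finset (Fin k)} {v : Fin k} (hv : v ∉ R1)
    (hz : v ∉ z) (r : Finset (Fin k) → ℝ) :
    SubBisB.ce F R1 r z = pv F v R1 z * SubBisB.ce F (insert v R1) r (insert v z) +
      (1 - pv F v R1 z) * SubBisB.ce F (insert v R1) r z := by
  have hA1 := sum_sm_pos F (insert v R1) (insert v z)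
  have hA0 := sum_sm_pos F (insert v R1) z
  have hp : pv F v R1 z = (∑ S ∈ SubBisB.sm (insert v R1) (insert v z), wt2 F S) /
      ((∑ S ∈ SubBisB.sm (insert v R1) (insert v z), wt2 F S) +
        ∑ S ∈ SubBisB.sm (insert v R1) z, wt2 F S) := by
    unfold SubBisB.pv SubBisB.ce
    rw [sum_sm_split hv hz (fun S' => wt2 F S'),
      sum_sm_split hv hz (fun S' => wt2 F S' * SubBisB.ind1 v S')]
    have h1 : ∑ S ∈ SubBisB.sm (insert v R1) (insert v z), wt2 F S * SubBisB.ind1 v S =
        ∑ S ∈ SubBisB.sm (insert v R1) (insert v z), wt2 F S := by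
      refine sum_congr rfl fun S hS => ?_
      unfold SubBisB.ind1
      rw [if_pos ((mem_sm_insert hv S).1 hS).2, mul_one]
    have h2 : ∑ S ∈ SubBisB.sm (insert v R1) z, wt2 F S * SubBisB.ind1 v S = 0 := by
      refine sum_eq_zero fun S hS => ?_
      unfold SubBisB.ind1
      rw [if_neg ((mem_sm_of_notMem hv hz S).1 hS).2, mul_zero]
    rw [h1, h2, add_zero]
  rw [hp]
  unfold SubBisB.ce
  rw [sum_sm_split hv hz (fun S' => wt2 F S'), sum_sm_split hv hz (fun S' => wt2 F S' * r S')]
  have h3 : (∑ S ∈ SubBisB.sm (insert v R1) (insert v z), wt2 F S) +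
      ∑ S ∈ SubBisB.sm (insert v R1) z, wt2 F S ≠ 0 := (add_pos hA1 hA0).ne'
  have h4 := hA1.ne'
  have h5 := hA0.ne'
  field_simp
  ring

theorem ce_univ (F : Finset (Fin k) → ℤ) (r : Finset (Fin k) → ℝ) (z : Finset (Fin k)) :
    SubBisB.ce F univ r z = r z := by
  have h1 : SubBisB.sm univ z = {z} := by
    ext S
    unfold SubBisB.sm
    simp
  unfold SubBisB.ce
  rw [h1, sum_singleton, sum_singleton]
  exact mul_div_cancel_left₀ _ (SubBisB.wt2_pos z).ne'

theorem ce_empty (F : Finset (Fin k) → ℤ) (r : Finset (Fin k) → ℝ) :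
    SubBisB.ce F ∅ r ∅ = EG F r := by
  have h1 : SubBisB.sm (∅ : Finset (Fin k)) ∅ = univ := by
    ext S
    unfold SubBisB.sm
    simp
  unfold SubBisB.ce SubBisB.EG SubBisB.ZF
  rw [h1]

end LawAux

open LawAux

section

variable {φ : Fin k → Finset (Fin k) → Fin m → ℝ}

/-- the indicator of `v` and the decision at `v` have the same mean (R8) -/
theorem run_ind {bet : Fin k → Fin B} (hφ : ∀ v u, SubBisB.Dep (Rp bet v) fun z => φ v z u)
    {R1 : Finset (Fin k)} {l : List (Fin k)} (hs : Seg bet R1 l univ) {z : Finset (Fin k)}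
    (hz : z ⊆ R1) {v : Fin k} (hv : v ∉ R1) (U : Fin k → Fin m) :
    run φ l (fun S => if v ∈ S then 1 else 0) z U = run φ l (fun S => φ v S (U v)) z U := by
  induction l generalizing R1 z with
  | nil =>
    have e : R1 = univ := hs
    exact absurd (mem_univ v) (e ▸ hv)
  | cons w l ih =>
    by_cases hwv : w = v
    · subst hwv
      have hw : w ∉ z := fun h => hv (hz h)
      have h1 : run φ (w :: l) (fun S => φ w S (U w)) z U = φ w z (U w) :=
        hs.run_eq (fun S hS => hφ w (U w) S z (hs.1 ▸ hS)) U
      have h2 : run φ l (fun S => if w ∈ S then (1 : ℝ) else 0) (insert w z) U = 1 := by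
        refine hs.2.2.run_eq (fun S hS => if_pos ?_) U
        have h3 : w ∈ insert w z ∩ insert w R1 :=
          mem_inter.2 ⟨mem_insert_self _ _, mem_insert_self _ _⟩
        rw [← hS] at h3
        exact (mem_inter.1 h3).1
      have h4 : run φ l (fun S => if w ∈ S then (1 : ℝ) else 0) z U = 0 := by
        refine hs.2.2.run_eq (fun S hS => if_neg fun h0 => ?_) U
        have h3 : w ∈ S ∩ insert w R1 := mem_inter.2 ⟨h0, mem_insert_self _ _⟩
        rw [hS] at h3
        exact hw (mem_inter.1 h3).1
      rw [h1]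
      show φ w z (U w) * run φ l (fun S => if w ∈ S then (1 : ℝ) else 0) (insert w z) U +
        (1 - φ w z (U w)) * run φ l (fun S => if w ∈ S then (1 : ℝ) else 0) z U = φ w z (U w)
      rw [h2, h4]
      ring
    · have hv' : v ∉ insert w R1 := fun h => (mem_insert.1 h).elim (fun h1 => hwv h1.symm) hv
      show φ w z (U w) * run φ l (fun S => if v ∈ S then (1 : ℝ) else 0) (insert w z) U +
        (1 - φ w z (U w)) * run φ l (fun S => if v ∈ S then (1 : ℝ) else 0) z U =
        φ w z (U w) * run φ l (fun S => φ v S (U v)) (insert w z) U +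
        (1 - φ w z (U w)) * run φ l (fun S => φ v S (U v)) z U
      rw [ih hs.2.2 (insert_subset_insert w hz) hv', ih hs.2.2 (hz.trans (subset_insert w R1)) hv']

/-- the own digit is independent of the past (R9) -/
theorem av_run_own [NeZero m] {bet : Fin k → Fin B} {R1 : Finset (Fin k)} {l : List (Fin k)}
    (hs : Seg bet R1 l univ) {z : Finset (Fin k)} (hz : z ⊆ R1) {v : Fin k} (hv : v ∉ R1)
    {s : Finset (Fin k) → Fin m → ℝ} (hd : ∀ u, SubBisB.Dep (Rp bet v) fun S => s S u) :
    (av fun U : Fin k → Fin m => run φ l (fun S => s S (U v)) z U) =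
      av fun U : Fin k → Fin m => run φ l (fun S => av fun u => s S u) z U := by
  induction l generalizing R1 z with
  | nil =>
    have e : R1 = univ := hs
    exact absurd (mem_univ v) (e ▸ hv)
  | cons w l ih =>
    by_cases hwv : w = v
    · subst hwv
      have h1 : ∀ U : Fin k → Fin m, run φ (w :: l) (fun S => s S (U w)) z U = s z (U w) :=
        fun U => hs.run_eq (fun S hS => hd (U w) S z (hs.1 ▸ hS)) U
      have h2 : ∀ U : Fin k → Fin m, run φ (w :: l) (fun S => av fun u => s S u) z U =
          av fun u => s z u :=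
        fun U => hs.run_eq (fun S hS =>
          congrArg av (funext fun u => hd u S z (hs.1 ▸ hS))) U
      simp only [h1, h2]
      rw [av_const]
      exact av_coord w fun u => s z u
    · have hv' : v ∉ insert w R1 := fun h => (mem_insert.1 h).elim (fun h1 => hwv h1.symm) hv
      have hw := notMem_tail hs.2.2
      have hc : ∀ (r : Finset (Fin k) → ℝ) (z' : Finset (Fin k)) (U : Fin k → Fin m) (x : Fin m),
          run φ l r z' (Function.update U w x) = run φ l r z' U := fun r z' U x =>
        run_congr_dig l r z' fun y hy => by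
          have hne : y ≠ w := fun h => hw (h ▸ hy)
          exact Function.update_of_ne hne x U
      have hG : ∀ (z' : Finset (Fin k)) (U : Fin k → Fin m) (x : Fin m),
          run φ l (fun S => s S (Function.update U w x v)) z' (Function.update U w x) =
            run φ l (fun S => s S (U v)) z' U := fun z' U x => by
        rw [hc, Function.update_of_ne (fun h => hwv h.symm)]
      have e1 := av_digit1 w (φ w z) (G := fun U => run φ l (fun S => s S (U v)) (insert w z) U)
        (H := fun U => run φ l (fun S => s S (U v)) z U) (hG _) (hG _)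
      have e2 := av_digit1 w (φ w z)
        (G := fun U => run φ l (fun S => av fun u => s S u) (insert w z) U)
        (H := fun U => run φ l (fun S => av fun u => s S u) z U) (hc _ _) (hc _ _)
      rw [ih hs.2.2 (insert_subset_insert w hz) hv', ih hs.2.2 (hz.trans (subset_insert w R1)) hv',
        ← e2] at e1
      exact e1

/-- THE LAW (R4). -/
theorem law_run [NeZero m] {F : Finset (Fin k) → ℤ} {bet : Fin k → Fin B}
    (hφ : ∀ v z, (av fun u : Fin m => φ v z u) = pv F v (Rp bet v) z) {R1 : Finset (Fin k)}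
    {l : List (Fin k)} (hs : Seg bet R1 l univ) {z : Finset (Fin k)} (hz : z ⊆ R1)
    (r : Finset (Fin k) → ℝ) :
    (av fun U : Fin k → Fin m => run φ l r z U) = SubBisB.ce F R1 r z := by
  induction l generalizing R1 z with
  | nil =>
    have e : R1 = univ := hs
    subst e
    rw [ce_univ]
    exact av_const (r z)
  | cons v l ih =>
    have hv : v ∉ z := fun h => hs.2.1 (hz h)
    have hl := notMem_tail hs.2.2
    have hc : ∀ (z' : Finset (Fin k)) (U : Fin k → Fin m) (x : Fin m),
        run φ l r z' (Function.update U v x) = run φ l r z' U := fun z' U x =>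
      run_congr_dig l r z' fun y hy => by
        have hne : y ≠ v := fun h => hl (h ▸ hy)
        exact Function.update_of_ne hne x U
    have e1 := av_digit1 v (φ v z) (G := fun U => run φ l r (insert v z) U)
      (H := fun U => run φ l r z U) (hc _) (hc _)
    rw [ih hs.2.2 (insert_subset_insert v hz), ih hs.2.2 (hz.trans (subset_insert v R1))] at e1
    rw [ce_step F hs.2.1 hv r, hs.1, ← hφ v z, ← hs.1]
    exact e1

end

theorem dep_phF (ε : ℝ) (F : Finset (Fin k) → ℤ) (bet : Fin k → Fin B) (v : Fin k) (u : Fin m) :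
    SubBisB.Dep (Rp bet v) fun z => phF ε F bet v z u := fun S S' h => by
  show ph ε (pv F v (Rp bet v) S) u = ph ε (pv F v (Rp bet v) S') u
  rw [SubBisB.dep_pv v (Rp bet v) S S' h]

/-- the mean of a function of the process and the own digit -/
theorem av_yx [NeZero m] {ε : ℝ} (h0 : 0 ≤ ε) (h1 : ε ≤ 1 / 16) (F : Finset (Fin k) → ℤ)
    (bet : Fin k → Fin B) (v : Fin k) {s : Finset (Fin k) → Fin m → ℝ}
    (hd : ∀ u, SubBisB.Dep (Rp bet v) fun S => s S u) :
    (av fun U : Fin k → Fin m => run (phF ε F bet) (LL bet) (fun S => s S (U v)) ∅ U) =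
      EG F fun S => av fun u => s S u := by
  rw [av_run_own (seg_LL bet) (Subset.refl _) (notMem_empty v) hd,
    law_run (φ := phF ε F bet) (F := F) (bet := bet) (fun v z => av_ph h0 h1 (SubBisB.pv_nonneg v _ z)
      (SubBisB.pv_le_one v _ z)) (seg_LL bet) (Subset.refl _), ce_empty]

/-- the mean of a function of the process -/
theorem av_run_LL [NeZero m] {ε : ℝ} (h0 : 0 ≤ ε) (h1 : ε ≤ 1 / 16) (F : Finset (Fin k) → ℤ)
    (bet : Fin k → Fin B) (r : Finset (Fin k) → ℝ) :
    (av fun U : Fin k → Fin m => run (phF ε F bet) (LL bet) r ∅ U) = EG F r := by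
  rw [law_run (φ := phF ε F bet) (F := F) (bet := bet) (fun v z => av_ph h0 h1 (SubBisB.pv_nonneg v _ z)
      (SubBisB.pv_le_one v _ z)) (seg_LL bet) (Subset.refl _), ce_empty]

end Pool.Agent.Lib.SubBisF
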