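import Pool.Agent.Lib.SubBisF.MachDefs
import Pool.Agent.Lib.SubBisX.TabBridge

/-!
The arrays of `MachDefs` contain the steps of the method, and `posK - negK` is its value.
-/

set_option autoImplicit false

namespace Pool.Agent.Lib.SubBisF.Mach

open Finset SubBis Pool.Agent.Lib.SubBisX.Reg Pool.Agent.Lib.SubBisX.Core
open Pool.Agent.Lib.SubBisX.Tab Pool.Agent.Lib.SubBisE

variable {n m : ℕ}

section

variable {D : ℕ → ℕ} {U : ℕ → Fin n → Fin m} {R : ℕ} {kr : ℕ → ℕ → ℕ → ℕ}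
  {K : ℕ → ℕ → Fin n → ℕ}

/-- The iterate. -/
theorem pq_eq (hK : ∀ t < R, ∀ t' < t, ∀ v : Fin n, K t' t v = kr t t' v) (Γ : ℕ) {g : ℕ → ℕ}
    {s : ℕ → Fin n → ℤ} {t : ℕ} (ht : t < R)
    (hg : ∀ t' < t, ∀ v : Fin n, (g (t' * n + v) : ℤ) = s t' v + Γ) (v : Fin n) :
    (pN n kr g t v : ℤ) - qN Γ kr t v = yyK K s t v := by
  unfold pN qN yyK
  push_cast
  rw [mul_sum, ← sum_sub_distrib]
  refine sum_congr rfl fun t' ht' => ?_
  rw [mem_range] at ht'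
  rw [hg t' ht' v, hK t ht t' ht' v]
  ring

theorem yN_eq (hK : ∀ t < R, ∀ t' < t, ∀ v : Fin n, K t' t v = kr t t' v) (Γ M : ℕ) {g : ℕ → ℕ}
    {s : ℕ → Fin n → ℤ} {t : ℕ} (ht : t < R)
    (hg : ∀ t' < t, ∀ v : Fin n, (g (t' * n + v) : ℤ) = s t' v + Γ) (v : Fin n) :
    cl M (yyK K s t) v = (yN n Γ M kr g t v : ℤ) := by
  unfold cl yN Pool.Agent.Lib.SubBisX.Reg.clip
  rw [← pq_eq hK Γ ht hg v]
  omega

theorem grN_eq (hU : ∀ t < R, ∀ v : Fin n, (U t v : ℕ) = D (t * n + v))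
    (hK : ∀ t < R, ∀ t' < t, ∀ v : Fin n, K t' t v = kr t t' v) (c Γ M : ℕ)
    (G : Finset ℕ → ℕ)
    (hΓ : ∀ (v : Fin n) (u : Fin m) (y : Fin n → ℤ), |gr c (GF G) v u y| ≤ Γ)
    {g : ℕ → ℕ} {s : ℕ → Fin n → ℤ} {t : ℕ} (ht : t < R)
    (hg : ∀ t' < t, ∀ v : Fin n, (g (t' * n + v) : ℤ) = s t' v + Γ) (v : Fin n) :
    (grN n m c Γ M G D kr g t v : ℤ) =
      gr c (GF G) v (U t v) (cl M (yyK K s t)) + Γ := by
  have h := hΓ v (U t v) (cl M (yyK K s t))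
  rw [abs_le] at h
  unfold grN
  have hy := yN_eq hK Γ M ht hg
  have e : gr c (GF G) v (U t v) (cl M (yyK K s t)) =
      ((Nat.log 2 ((m - D (t * n + v)) ^ c) : ℕ) : ℤ) -
        ((Nat.log 2 ((D (t * n + v) + 1) ^ c) : ℕ) : ℤ) -
        (((c * G (upS n (yN n Γ M kr g t) v) : ℕ) : ℤ) -
          ((c * G (upoS n (yN n Γ M kr g t) v) : ℕ) : ℤ)) := by
    unfold gr GF SubBis.ee
    rw [map_Up hy, map_Upo hy, hU t ht v]
    push_cast
    ring
  rw [e] at h ⊢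
  generalize c * G (upS n (yN n Γ M kr g t) v) = a at h ⊢
  generalize c * G (upoS n (yN n Γ M kr g t) v) = b at h ⊢
  generalize Nat.log 2 ((m - D (t * n + v)) ^ c) = P at h ⊢
  generalize Nat.log 2 ((D (t * n + v) + 1) ^ c) = Q at h ⊢
  omega

theorem gaN_eq (hU : ∀ t < R, ∀ v : Fin n, (U t v : ℕ) = D (t * n + v))
    (hK : ∀ t < R, ∀ t' < t, ∀ v : Fin n, K t' t v = kr t t' v) (c Γ M : ℕ)
    (G : Finset ℕ → ℕ)
    (hΓ : ∀ (v : Fin n) (u : Fin m) (y : Fin n → ℤ), |gr c (GF G) v u y| ≤ Γ)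
    {g : ℕ → ℕ} {s : ℕ → Fin n → ℤ} {t : ℕ} (ht : t < R)
    (hg : ∀ t' < t, ∀ v : Fin n, (g (t' * n + v) : ℤ) = s t' v + Γ) (v : Fin n) :
    (gaN n m c Γ M G D kr g t v : ℤ) = gam c M (GF G) (U t) (yyK K s t) v + Γ := by
  have h1 := grN_eq hU hK c Γ M G hΓ ht hg v
  have h2 := pq_eq hK Γ ht hg v
  unfold gaN gam
  generalize gr c (GF G) v (U t v) (cl M (yyK K s t)) = X at h1 ⊢
  generalize yyK K s t v = Y at h2 ⊢
  generalize grN n m c Γ M G D kr g t v = A at h1 ⊢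
  generalize pN n kr g t v = P at h2 ⊢
  generalize qN Γ kr t v = Q at h2 ⊢
  split_ifs <;> omega

/-- The array contains the steps. -/
theorem sN_eq (hU : ∀ t < R, ∀ v : Fin n, (U t v : ℕ) = D (t * n + v))
    (hK : ∀ t < R, ∀ t' < t, ∀ v : Fin n, K t' t v = kr t t' v) (c Γ M : ℕ)
    (G : Finset ℕ → ℕ)
    (hΓ : ∀ (v : Fin n) (u : Fin m) (y : Fin n → ℤ), |gr c (GF G) v u y| ≤ Γ) :
    ∀ T ≤ R, ∀ t < T, ∀ v : Fin n,
      (sN n m c Γ M G D kr T (t * n + v) : ℤ) = stK c M (GF G) U K T t v + Γ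
  | 0, _, t, ht, _ => absurd ht (Nat.not_lt_zero t)
  | T + 1, hT, t, ht, v => by
    have hn : 0 < n := lt_of_le_of_lt (Nat.zero_le _) v.isLt
    have e1 : (t * n + (v : ℕ)) / n = t := by
      rw [mul_comm, Nat.mul_add_div hn, Nat.div_eq_of_lt v.isLt, add_zero]
    have e2 : (t * n + (v : ℕ)) % n = v := by
      rw [mul_comm, Nat.mul_add_mod, Nat.mod_eq_of_lt v.isLt]
    have ih := sN_eq hU hK c Γ M G hΓ T (by omega)
    unfold sN stK
    rw [e1, e2]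
    by_cases h : t = T
    · rw [if_pos h]
      subst h
      simp only [if_true]
      exact gaN_eq hU hK c Γ M G hΓ (by omega) ih v
    · rw [if_neg h]
      simp only [if_neg h]
      exact ih t (by omega) v

theorem stK_stable (c M : ℕ) (F : Finset (Fin n) → ℤ) (U : ℕ → Fin n → Fin m)
    (K : ℕ → ℕ → Fin n → ℕ) (T : ℕ) :
    ∀ j, ∀ t < T, stK c M F U K (T + j) t = stK c M F U K T t
  | 0, _, _ => rfl
  | j + 1, t, ht => by
    show (if t = T + j then _ else stK c M F U K (T + j) t) = _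
    rw [if_neg (by omega), stK_stable c M F U K T j t ht]

theorem yR_eq (hU : ∀ t < R, ∀ v : Fin n, (U t v : ℕ) = D (t * n + v))
    (hK : ∀ t < R, ∀ t' < t, ∀ v : Fin n, K t' t v = kr t t' v) (c Γ M : ℕ)
    (G : Finset ℕ → ℕ)
    (hΓ : ∀ (v : Fin n) (u : Fin m) (y : Fin n → ℤ), |gr c (GF G) v u y| ≤ Γ) {t : ℕ} (ht : t < R)
    (v : Fin n) :
    cl M (yyK K (stK c M (GF G) U K t) t) v = (yR n m c Γ M R G D kr t v : ℤ) := by
  refine yN_eq hK Γ M ht (fun t' ht' v => ?_) v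
  rw [sN_eq hU hK c Γ M G hΓ R le_rfl t' (ht'.trans ht) v]
  obtain ⟨j, rfl⟩ := Nat.exists_eq_add_of_le ht.le
  rw [stK_stable c M (GF G) U K t j t' ht']

/-- **The machine computes the value.** -/
theorem posK_negK (hU : ∀ t < R, ∀ v : Fin n, (U t v : ℕ) = D (t * n + v))
    (hK : ∀ t < R, ∀ t' < t, ∀ v : Fin n, K t' t v = kr t t' v) (c Γ M : ℕ)
    (G : Finset ℕ → ℕ)
    (hΓ : ∀ (v : Fin n) (u : Fin m) (y : Fin n → ℤ), |gr c (GF G) v u y| ≤ Γ) :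
    (posK n m c Γ M R G D kr : ℤ) - negK n m c Γ M R G D kr = VlK c M (GF G) U K R := by
  unfold posK negK VlK vl
  push_cast
  rw [← sum_sub_distrib]
  refine sum_congr rfl fun t ht => ?_
  rw [mem_range] at ht
  rw [← sum_sub_distrib, sum_range]
  refine sum_congr rfl fun v _ => ?_
  have hy := yR_eq hU hK c Γ M G hΓ ht
  generalize cl M (yyK K (stK c M (GF G) U K t) t) = Y at hy ⊢
  rw [hy v]
  unfold gr GF SubBis.ee
  rw [map_Up hy, map_Upo hy, hU t ht v]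
  push_cast
  ring

end

end Pool.Agent.Lib.SubBisF.Mach
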