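import Pool.Agent.Lib.SubBisX.TabDefs
import Pool.Agent.Lib.SubBisE.Defs

/-!
# The method with any kernel as a computation with arrays of natural numbers

There are `R` rounds, the world of the round `t < R` has the digits `D (t * n + v)`, `v < n`, and
`kr t t' v` is the kernel of the site `v` between the rounds `t` and `t'`. The array `g` has the
entries `g (t * n + v) = γ + Γ`, `γ` the truncated gradient of the round `t` at `v`, `|γ| ≤ Γ`.
-/

set_option autoImplicit false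

namespace Pool.Agent.Lib.SubBisF.Mach

open Finset Pool.Agent.Lib.SubBisX.Tab

/-! ### The method for any kernel -/

section method

open Pool.Agent.Lib.SubBisE

variable {n m : ℕ}

/-- the policy in the round `τ`, from the steps `g σ`, `σ < τ`; `K σ τ v` is the kernel -/
def yyK (K : ℕ → ℕ → Fin n → ℕ) (g : ℕ → Fin n → ℤ) (τ : ℕ) (v : Fin n) : ℤ :=
  ∑ σ ∈ range τ, g σ v * (K σ τ v : ℤ)

/-- the steps number `< T`; the other entries are zero -/
def stK (c M : ℕ) (F : Finset (Fin n) → ℤ) (U : ℕ → Fin n → Fin m) (K : ℕ → ℕ → Fin n → ℕ) :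
    ℕ → ℕ → Fin n → ℤ
  | 0 => fun _ _ => 0
  | T + 1 => fun τ => if τ = T then gam c M F (U T) (yyK K (stK c M F U K T) T)
      else stK c M F U K T τ

/-- the sum of the values over the first `N` rounds -/
def VlK (c M : ℕ) (F : Finset (Fin n) → ℤ) (U : ℕ → Fin n → Fin m) (K : ℕ → ℕ → Fin n → ℕ)
    (N : ℕ) : ℤ :=
  ∑ τ ∈ range N, vl c M F (U τ) (yyK K (stK c M F U K τ) τ)

end method

/-! ### Arrays -/

/-- the iterate of the round `t` plus `qN` -/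
def pN (n : ℕ) (kr : ℕ → ℕ → ℕ → ℕ) (g : ℕ → ℕ) (t v : ℕ) : ℕ :=
  ∑ t' ∈ range t, g (t' * n + v) * kr t t' v

/-- the shift of the iterate of the round `t` -/
def qN (Γ : ℕ) (kr : ℕ → ℕ → ℕ → ℕ) (t v : ℕ) : ℕ := Γ * ∑ t' ∈ range t, kr t t' v

/-- the clipped iterate of the round `t` -/
def yN (n Γ M : ℕ) (kr : ℕ → ℕ → ℕ → ℕ) (g : ℕ → ℕ) (t v : ℕ) : ℕ :=
  min M (pN n kr g t v - qN Γ kr t v)

/-- the gradient of the round `t` plus `Γ` -/
def grN (n m c Γ M : ℕ) (G : Finset ℕ → ℕ) (D : ℕ → ℕ) (kr : ℕ → ℕ → ℕ → ℕ) (g : ℕ → ℕ)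
    (t v : ℕ) : ℕ :=
  min (2 * Γ) ((Γ + Nat.log 2 ((m - D (t * n + v)) ^ c) +
      c * G (upoS n (yN n Γ M kr g t) v)) -
    (Nat.log 2 ((D (t * n + v) + 1) ^ c) + c * G (upS n (yN n Γ M kr g t) v)))

/-- the truncated gradient of the round `t` plus `Γ` -/
def gaN (n m c Γ M : ℕ) (G : Finset ℕ → ℕ) (D : ℕ → ℕ) (kr : ℕ → ℕ → ℕ → ℕ) (g : ℕ → ℕ)
    (t v : ℕ) : ℕ :=
  if qN Γ kr t v + M < pN n kr g t v then min (grN n m c Γ M G D kr g t v) Γ
  else if pN n kr g t v < qN Γ kr t v then max (grN n m c Γ M G D kr g t v) Γ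
  else grN n m c Γ M G D kr g t v

/-- the array after `t` rounds -/
def sN (n m c Γ M : ℕ) (G : Finset ℕ → ℕ) (D : ℕ → ℕ) (kr : ℕ → ℕ → ℕ → ℕ) : ℕ → ℕ → ℕ
  | 0, _ => 0
  | t + 1, i => if i / n = t then gaN n m c Γ M G D kr (sN n m c Γ M G D kr t) t (i % n)
      else sN n m c Γ M G D kr t i

/-- the clipped iterate of the round `t`, from the array after `R` rounds -/
def yR (n m c Γ M R : ℕ) (G : Finset ℕ → ℕ) (D : ℕ → ℕ) (kr : ℕ → ℕ → ℕ → ℕ) (t v : ℕ) : ℕ :=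
  yN n Γ M kr (sN n m c Γ M G D kr R) t v

/-- the positive part of the sum of the values -/
def posK (n m c Γ M R : ℕ) (G : Finset ℕ → ℕ) (D : ℕ → ℕ) (kr : ℕ → ℕ → ℕ → ℕ) : ℕ :=
  ∑ t ∈ range R, ∑ v ∈ range n, yR n m c Γ M R G D kr t v *
    (Nat.log 2 ((m - D (t * n + v)) ^ c) + c * G (upoS n (yR n m c Γ M R G D kr t) v))

/-- the negative part of the sum of the values -/
def negK (n m c Γ M R : ℕ) (G : Finset ℕ → ℕ) (D : ℕ → ℕ) (kr : ℕ → ℕ → ℕ → ℕ) : ℕ :=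
  ∑ t ∈ range R, ∑ v ∈ range n, yR n m c Γ M R G D kr t v *
    (Nat.log 2 ((D (t * n + v) + 1) ^ c) + c * G (upS n (yR n m c Γ M R G D kr t) v))

end Pool.Agent.Lib.SubBisF.Mach
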