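import Pool.Agent.Lib.SubBisF.MachDefs
import Pool.Agent.Lib.SubBisE.MachPoly

/-!
The method with any kernel that is computed in polynomial time, in polynomial time.
-/

set_option autoImplicit false

namespace Pool.Agent.Lib.SubBisF.Mach

open Finset Pool.Agent.Lib.PolyTime Pool.Agent.Lib.Pa7c826 Pool.Agent.Lib.Pa7c826t
open Pool.Agent.Lib.SubBisX.Tab Pool.Agent.Lib.SubBisX.Tab.TabAux Pool.Agent.Lib.SubBisB.BTab
open Pool.Agent.Lib.SubBisE.Mach (ent_lt' min_poly max_poly)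

universe u

variable {α : Type u} {Dm : α → Prop} {ctx : List (α → List Bool)}

/-- The kernel is computed in polynomial time, in every context that lifts the data. -/
def PK (Dm : α → Prop) (ctx : List (α → List Bool)) (n R : α → ℕ)
    (kr : α → ℕ → ℕ → ℕ → ℕ) : Prop :=
  ∀ (γ : Type u) (D' : γ → Prop) (ctx' : List (γ → List Bool)) (π : γ → α) (t t' v : γ → ℕ),
    (∀ b, D' b → Dm (π b)) →
    (∀ s : α → List Bool, PolyC Dm ctx s → PolyC D' ctx' (fun b => s (π b))) →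
    PolyN D' ctx' t → PolyN D' ctx' t' → PolyN D' ctx' v →
    (∀ b, D' b → t b < R (π b)) → (∀ b, D' b → t' b < t b) → (∀ b, D' b → v b < n (π b)) →
    PolyN D' ctx' (fun b => kr (π b) (t b) (t' b) (v b))

theorem PK.lft {n R : α → ℕ} {kr : α → ℕ → ℕ → ℕ → ℕ} (h : PK Dm ctx n R kr)
    {γ : Type u} {D' : γ → Prop} {ctx' : List (γ → List Bool)} (π : γ → α)
    (hπ : ∀ b, D' b → Dm (π b))
    (lf : ∀ t : α → List Bool, PolyC Dm ctx t → PolyC D' ctx' (fun b => t (π b))) :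
    PK D' ctx' (fun b => n (π b)) (fun b => R (π b)) (fun b => kr (π b)) :=
  fun δ D'' ctx'' ρ t t' v h1 h2 ht ht' hv htR htt hvn =>
    h δ D'' ctx'' (fun b => π (ρ b)) t t' v (fun b hb => hπ _ (h1 b hb))
      (fun s hs => h2 _ (lf s hs)) ht ht' hv htR htt hvn

/-- The hypotheses on the parameters. -/
structure HM (Dm : α → Prop) (ctx : List (α → List Bool)) (n : α → ℕ)
    (G : α → Finset ℕ → ℕ) (m c Γ M R : α → ℕ) (D : α → ℕ → ℕ)
    (kr : α → ℕ → ℕ → ℕ → ℕ) : Prop where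
  hn : PolyN Dm ctx n
  hG : PG Dm ctx n G
  hm : PolyN Dm ctx m
  hc : PolyN Dm ctx c
  hΓ : PolyN Dm ctx Γ
  hM : PolyN Dm ctx M
  hR : PolyN Dm ctx R
  hD : PolyArr Dm ctx m (fun x => R x * n x) D
  hk : PK Dm ctx n R kr

variable {n : α → ℕ} {G : α → Finset ℕ → ℕ} {m c Γ M R : α → ℕ} {D : α → ℕ → ℕ}
  {kr : α → ℕ → ℕ → ℕ → ℕ}

theorem HM.lft (h : HM Dm ctx n G m c Γ M R D kr)
    {γ : Type u} {D' : γ → Prop}
    {ctx' : List (γ → List Bool)} (π : γ → α) (hπ : ∀ b, D' b → Dm (π b))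
    (lf : ∀ t : α → List Bool, PolyC Dm ctx t → PolyC D' ctx' (fun b => t (π b))) :
    HM D' ctx' (fun b => n (π b)) (fun b => G (π b)) (fun b => m (π b)) (fun b => c (π b))
      (fun b => Γ (π b)) (fun b => M (π b)) (fun b => R (π b))
      (fun b => D (π b)) (fun b => kr (π b)) :=
  ⟨lf _ h.hn, h.hG.lft π hπ lf, lf _ h.hm, lf _ h.hc, lf _ h.hΓ,
    lf _ h.hM, lf _ h.hR, ⟨lf _ h.hD.1, fun b hb => h.hD.2 _ (hπ b hb)⟩, h.hk.lft π hπ lf⟩

theorem HM.up (h : HM Dm ctx n G m c Γ M R D kr) (k : α → ℕ) :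
    HM (fun p : α × ℕ => Dm p.1 ∧ p.2 < k p.1) (PolyTime.lift ctx ++ [fun p => un p.2])
      (fun b => n b.1) (fun b => G b.1) (fun b => m b.1) (fun b => c b.1)
      (fun b => Γ b.1) (fun b => M b.1) (fun b => R b.1)
      (fun b => D b.1) (fun b => kr b.1) :=
  h.lft Prod.fst (fun _ hb => hb.1) (fun _ ht => Pool.Agent.Lib.Pa7c826.up (n := k) ht)

theorem poly_kr {t v : α → ℕ} (h : HM Dm ctx n G m c Γ M R D kr) (ht : PolyN Dm ctx t)
    (hv : PolyN Dm ctx v) (htR : ∀ a, Dm a → t a < R a) (hvn : ∀ a, Dm a → v a < n a) :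
    PolyN (fun p : α × ℕ => Dm p.1 ∧ p.2 < t p.1) (PolyTime.lift ctx ++ [fun p => un p.2])
      (fun p => kr p.1 (t p.1) p.2 (v p.1)) :=
  h.hk _ _ _ Prod.fst _ _ _ (fun _ hb => hb.1)
    (fun _ ht => Pool.Agent.Lib.Pa7c826.up (n := t) ht) (upN (n := t) ht)
    (last (D := Dm) (ctx := ctx) (n := t)) (upN (n := t) hv) (fun p hp => htR _ hp.1)
    (fun p hp => hp.2) (fun p hp => hvn _ hp.1)

theorem poly_pN {t v : α → ℕ} {g : α → ℕ → ℕ} (h : HM Dm ctx n G m c Γ M R D kr)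
    (ht : PolyN Dm ctx t) (hv : PolyN Dm ctx v) (htR : ∀ a, Dm a → t a < R a)
    (hvn : ∀ a, Dm a → v a < n a)
    (hg : PolyArr Dm ctx (fun a => 2 * Γ a) (fun a => R a * n a) g) :
    PolyN Dm ctx (fun a => pN (n a) (kr a) (g a) (t a) (v a)) := by
  have h1 := h.up t
  have L := last (D := Dm) (ctx := ctx) (n := t)
  have V := upN (n := t) hv
  have e1 := PolyArr.get (hg.up (k := t)) ((PolyN.const 2).mul h1.hΓ) ((L.mul h1.hn).add V)
    (fun p hp => ent_lt' (hp.2.trans (htR _ hp.1)) (hvn _ hp.1))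
  exact P8e91ed.PT.nSum (f := fun a t' => g a (t' * n a + v a) *
    kr a (t a) t' (v a)) ht (e1.mul (poly_kr h ht hv htR hvn))

theorem poly_qN {t v : α → ℕ} (h : HM Dm ctx n G m c Γ M R D kr)
    (ht : PolyN Dm ctx t) (hv : PolyN Dm ctx v) (htR : ∀ a, Dm a → t a < R a)
    (hvn : ∀ a, Dm a → v a < n a) :
    PolyN Dm ctx (fun a => qN (Γ a) (kr a) (t a) (v a)) :=
  h.hΓ.mul (P8e91ed.PT.nSum (f := fun a t' => kr a (t a) t' (v a)) ht
    (poly_kr h ht hv htR hvn))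

theorem poly_yN {t v : α → ℕ} {g : α → ℕ → ℕ} (h : HM Dm ctx n G m c Γ M R D kr)
    (ht : PolyN Dm ctx t) (hv : PolyN Dm ctx v) (htR : ∀ a, Dm a → t a < R a)
    (hvn : ∀ a, Dm a → v a < n a)
    (hg : PolyArr Dm ctx (fun a => 2 * Γ a) (fun a => R a * n a) g) :
    PolyN Dm ctx (fun a => yN (n a) (Γ a) (M a) (kr a) (g a) (t a) (v a)) :=
  min_poly h.hM (PolyN.sub (poly_pN h ht hv htR hvn hg) (poly_qN h ht hv htR hvn))

theorem poly_grN {t v : α → ℕ} {g : α → ℕ → ℕ} (h : HM Dm ctx n G m c Γ M R D kr)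
    (ht : PolyN Dm ctx t) (hv : PolyN Dm ctx v) (htR : ∀ a, Dm a → t a < R a)
    (hvn : ∀ a, Dm a → v a < n a)
    (hg : PolyArr Dm ctx (fun a => 2 * Γ a) (fun a => R a * n a) g) :
    PolyN Dm ctx (fun a => grN (n a) (m a) (c a) (Γ a) (M a) (G a) (D a) (kr a) (g a)
      (t a) (v a)) := by
  have hu := PolyArr.get h.hD h.hm ((ht.mul h.hn).add hv) (fun a ha =>
    ent_lt' (htR a ha) (hvn a ha))
  have hyv := poly_yN h ht hv htR hvn hg
  have hy := poly_yN (h.up n) (upN (n := n) ht) (last (D := Dm) (ctx := ctx) (n := n))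
    (fun p hp => htR _ hp.1) (fun p hp => hp.2) (hg.up (k := n))
  have S1 := poly_upoS (y := fun a => yN (n a) (Γ a) (M a) (kr a) (g a) (t a)) h.hn hv hyv hy
  have S2 := poly_upS (y := fun a => yN (n a) (Γ a) (M a) (kr a) (g a) (t a)) h.hn hv hyv hy
  have G1 := h.hG _ _ _ id _ (fun _ h => h) (fun _ ht => ht) S1
  have G2 := h.hG _ _ _ id _ (fun _ h => h) (fun _ ht => ht) S2
  exact min_poly ((PolyN.const 2).mul h.hΓ) (PolyN.sub
    ((h.hΓ.add (poly_logpow (PolyN.sub h.hm hu) h.hc)).add (h.hc.mul G1))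
    ((poly_logpow hu.succ h.hc).add (h.hc.mul G2)))

theorem poly_gaN {t v : α → ℕ} {g : α → ℕ → ℕ} (h : HM Dm ctx n G m c Γ M R D kr)
    (ht : PolyN Dm ctx t) (hv : PolyN Dm ctx v) (htR : ∀ a, Dm a → t a < R a)
    (hvn : ∀ a, Dm a → v a < n a)
    (hg : PolyArr Dm ctx (fun a => 2 * Γ a) (fun a => R a * n a) g) :
    PolyN Dm ctx (fun a => gaN (n a) (m a) (c a) (Γ a) (M a) (G a) (D a) (kr a) (g a)
      (t a) (v a)) := by
  have hp := poly_pN h ht hv htR hvn hg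
  have hq := poly_qN h ht hv htR hvn
  have hr := poly_grN h ht hv htR hvn hg
  refine (itez (PolyB.lt (hq.add h.hM) hp) (PolyC.mono (min_poly hr h.hΓ) fun _ h => h.1)
    (PolyC.mono (itez (PolyB.lt hp hq) (PolyC.mono (max_poly hr h.hΓ) fun _ h => h.1)
      (PolyC.mono hr fun _ h => h.1)) fun _ h => h.1)).congr (fun a _ => ?_)
  unfold gaN
  simp only [decide_eq_true_eq]

theorem grN_le (n m c Γ M : ℕ) (G : Finset ℕ → ℕ) (D : ℕ → ℕ) (kr : ℕ → ℕ → ℕ → ℕ) (g : ℕ → ℕ)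
    (t v : ℕ) : grN n m c Γ M G D kr g t v ≤ 2 * Γ := min_le_left _ _

theorem gaN_le (n m c Γ M : ℕ) (G : Finset ℕ → ℕ) (D : ℕ → ℕ) (kr : ℕ → ℕ → ℕ → ℕ) (g : ℕ → ℕ)
    (t v : ℕ) : gaN n m c Γ M G D kr g t v ≤ 2 * Γ := by
  unfold gaN
  have h := grN_le n m c Γ M G D kr g t v
  split_ifs <;> omega

theorem sN_le (n m c Γ M : ℕ) (G : Finset ℕ → ℕ) (D : ℕ → ℕ) (kr : ℕ → ℕ → ℕ → ℕ) (t i : ℕ) :
    sN n m c Γ M G D kr t i ≤ 2 * Γ := by
  induction t with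
  | zero => exact Nat.zero_le _
  | succ t ih =>
    unfold sN
    split_ifs
    · exact gaN_le _ _ _ _ _ _ _ _ _ _ _
    · exact ih

/-- the array after `k` rounds, `k ≤ R` -/
theorem poly_sN {k : α → ℕ} (h : HM Dm ctx n G m c Γ M R D kr) (hk : PolyN Dm ctx k)
    (hkR : ∀ a, Dm a → k a ≤ R a) :
    PolyArr Dm ctx (fun a => 2 * Γ a) (fun a => R a * n a)
      (fun a => sN (n a) (m a) (c a) (Γ a) (M a) (G a) (D a) (kr a) (k a)) := by
  have h2 : PolyN Dm ctx (fun a => 2 * Γ a) := (PolyN.const 2).mul h.hΓ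
  have hL := h.hR.mul h.hn
  refine polyArr_rec (fun a t => sN (n a) (m a) (c a) (Γ a) (M a) (G a) (D a) (kr a) t) h2 hL hk
    (PolyArr.mk h2 hL (PolyN.const 0) (fun _ _ _ _ => Nat.zero_le _)) ?_
  have g := h.lft (D' := fun p : α × ℕ => Dm p.1 ∧ p.2 < k p.1)
    (ctx' := PolyTime.lift ctx ++ [fun p => un p.2,
      fun p => arr (2 * Γ p.1) (R p.1 * n p.1)
        (sN (n p.1) (m p.1) (c p.1) (Γ p.1) (M p.1) (G p.1) (D p.1) (kr p.1) p.2)])
    Prod.fst (fun _ hb => hb.1) (fun _ ht => Pa7c826.up2 ht)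
  have hS : PolyArr (fun p : α × ℕ => Dm p.1 ∧ p.2 < k p.1)
      (PolyTime.lift ctx ++ [fun p => un p.2,
      fun p => arr (2 * Γ p.1) (R p.1 * n p.1)
        (sN (n p.1) (m p.1) (c p.1) (Γ p.1) (M p.1) (G p.1) (D p.1) (kr p.1) p.2)])
      (fun p => 2 * Γ p.1) (fun p => R p.1 * n p.1)
      (fun p => sN (n p.1) (m p.1) (c p.1) (Γ p.1) (M p.1) (G p.1) (D p.1) (kr p.1) p.2) :=
    ⟨PolyC.var (by simp), fun _ _ _ _ => sN_le _ _ _ _ _ _ _ _ _ _⟩
  have hT : PolyN (fun p : α × ℕ => Dm p.1 ∧ p.2 < k p.1)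
      (PolyTime.lift ctx ++ [fun p => un p.2,
      fun p => arr (2 * Γ p.1) (R p.1 * n p.1)
        (sN (n p.1) (m p.1) (c p.1) (Γ p.1) (M p.1) (G p.1) (D p.1) (kr p.1) p.2)])
      (fun p => p.2) := PolyC.var (by simp)
  have g2 : PolyN _ _ (fun p : α × ℕ => 2 * Γ p.1) := (PolyN.const 2).mul g.hΓ
  refine PolyArr.mk g2 (g.hR.mul g.hn) ?_ (fun _ _ _ _ => sN_le _ _ _ _ _ _ _ _ _ _)
  have gL := g.up (fun p => R p.1 * n p.1)
  have T1 := upN (n := fun p : α × ℕ => R p.1 * n p.1) hT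
  have S1 := hS.up (k := fun p : α × ℕ => R p.1 * n p.1)
  have I1 := last (D := fun p : α × ℕ => Dm p.1 ∧ p.2 < k p.1)
    (ctx := PolyTime.lift ctx ++ [fun p => un p.2,
      fun p => arr (2 * Γ p.1) (R p.1 * n p.1)
        (sN (n p.1) (m p.1) (c p.1) (Γ p.1) (M p.1) (G p.1) (D p.1) (kr p.1) p.2)])
    (n := fun p => R p.1 * n p.1)
  have Q1 := divz I1 gL.hn
  have M1 := modz I1 gL.hn
  have A := poly_gaN gL T1 M1 (fun q hq => hq.1.2.trans_le (hkR _ hq.1.1)) (fun q hq => by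
    refine Nat.mod_lt _ (Nat.pos_of_ne_zero fun h0 => ?_)
    have := hq.2
    rw [h0, Nat.mul_zero] at this
    exact Nat.not_lt_zero _ this) S1
  have B := PolyArr.get S1 ((PolyN.const 2).mul gL.hΓ) I1 (fun q hq => hq.2)
  refine (itez (PolyB.natEq Q1 T1) (PolyC.mono A fun _ h => h.1)
    (PolyC.mono B fun _ h => h.1)).congr (fun q _ => ?_)
  simp only [decide_eq_true_eq]
  rfl

theorem poly_yR {t v : α → ℕ} (h : HM Dm ctx n G m c Γ M R D kr)
    (ht : PolyN Dm ctx t) (hv : PolyN Dm ctx v) (htR : ∀ a, Dm a → t a < R a)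
    (hvn : ∀ a, Dm a → v a < n a) :
    PolyN Dm ctx (fun a => yR (n a) (m a) (c a) (Γ a) (M a) (R a) (G a) (D a) (kr a)
      (t a) (v a)) :=
  poly_yN h ht hv htR hvn (poly_sN h h.hR (fun _ _ => le_rfl))

/-- The iterate with its upper sets. -/
theorem poly_upR (h : HM Dm ctx n G m c Γ M R D kr) {t v : α → ℕ}
    (ht : PolyN Dm ctx t) (hv : PolyN Dm ctx v) (htR : ∀ a, Dm a → t a < R a)
    (hvn : ∀ a, Dm a → v a < n a) :
    PolyN Dm ctx (fun a => G a (upoS (n a) (yR (n a) (m a) (c a) (Γ a) (M a) (R a) (G a)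
      (D a) (kr a) (t a)) (v a))) ∧
    PolyN Dm ctx (fun a => G a (upS (n a) (yR (n a) (m a) (c a) (Γ a) (M a) (R a) (G a)
      (D a) (kr a) (t a)) (v a))) := by
  have hyv := poly_yR h ht hv htR hvn
  have hy := poly_yR (h.up n) (upN (n := n) ht) (last (D := Dm) (ctx := ctx) (n := n))
    (fun p hp => htR _ hp.1) (fun p hp => hp.2)
  have S1 := poly_upoS (y := fun a => yR (n a) (m a) (c a) (Γ a) (M a) (R a) (G a) (D a) (kr a)
    (t a)) h.hn hv hyv hy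
  have S2 := poly_upS (y := fun a => yR (n a) (m a) (c a) (Γ a) (M a) (R a) (G a) (D a) (kr a)
    (t a)) h.hn hv hyv hy
  exact ⟨h.hG _ _ _ id _ (fun _ h => h) (fun _ ht => ht) S1,
    h.hG _ _ _ id _ (fun _ h => h) (fun _ ht => ht) S2⟩

/-- The positive part. -/
theorem poly_posK (h : HM Dm ctx n G m c Γ M R D kr) :
    PolyN Dm ctx (fun a => posK (n a) (m a) (c a) (Γ a) (M a) (R a) (G a) (D a) (kr a)) := by
  have h1 := h.up R
  have h2 := h1.up (fun p => n p.1)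
  have T1 := last (D := Dm) (ctx := ctx) (n := R)
  have T2 := upN (n := fun p : α × ℕ => n p.1) T1
  have V2 := last (D := fun p : α × ℕ => Dm p.1 ∧ p.2 < R p.1)
    (ctx := PolyTime.lift ctx ++ [fun p => un p.2]) (n := fun p : α × ℕ => n p.1)
  have hu := PolyArr.get h2.hD h2.hm ((T2.mul h2.hn).add V2) (fun q hq => ent_lt' hq.1.2 hq.2)
  have hy := poly_yR h2 T2 V2 (fun q hq => hq.1.2) (fun q hq => hq.2)
  have hG := (poly_upR h2 T2 V2 (fun q hq => hq.1.2) (fun q hq => hq.2)).1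
  refine P8e91ed.PT.nSum (f := fun a t => ∑ v ∈ range (n a),
    yR (n a) (m a) (c a) (Γ a) (M a) (R a) (G a) (D a) (kr a) t v *
      (Nat.log 2 ((m a - D a (t * n a + v)) ^ c a) + c a * G a (upoS (n a)
        (yR (n a) (m a) (c a) (Γ a) (M a) (R a) (G a) (D a) (kr a) t) v))) h.hR ?_
  exact P8e91ed.PT.nSum (f := fun (p : α × ℕ) v =>
    yR (n p.1) (m p.1) (c p.1) (Γ p.1) (M p.1) (R p.1) (G p.1) (D p.1) (kr p.1) p.2 v *
      (Nat.log 2 ((m p.1 - D p.1 (p.2 * n p.1 + v)) ^ c p.1) + c p.1 * G p.1 (upoS (n p.1)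
        (yR (n p.1) (m p.1) (c p.1) (Γ p.1) (M p.1) (R p.1) (G p.1) (D p.1) (kr p.1) p.2) v)))
    h1.hn (hy.mul ((poly_logpow (PolyN.sub h2.hm hu) h2.hc).add (h2.hc.mul hG)))

/-- The negative part. -/
theorem poly_negK (h : HM Dm ctx n G m c Γ M R D kr) :
    PolyN Dm ctx (fun a => negK (n a) (m a) (c a) (Γ a) (M a) (R a) (G a) (D a) (kr a)) := by
  have h1 := h.up R
  have h2 := h1.up (fun p => n p.1)
  have T1 := last (D := Dm) (ctx := ctx) (n := R)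
  have T2 := upN (n := fun p : α × ℕ => n p.1) T1
  have V2 := last (D := fun p : α × ℕ => Dm p.1 ∧ p.2 < R p.1)
    (ctx := PolyTime.lift ctx ++ [fun p => un p.2]) (n := fun p : α × ℕ => n p.1)
  have hu := PolyArr.get h2.hD h2.hm ((T2.mul h2.hn).add V2) (fun q hq => ent_lt' hq.1.2 hq.2)
  have hy := poly_yR h2 T2 V2 (fun q hq => hq.1.2) (fun q hq => hq.2)
  have hG := (poly_upR h2 T2 V2 (fun q hq => hq.1.2) (fun q hq => hq.2)).2
  refine P8e91ed.PT.nSum (f := fun a t => ∑ v ∈ range (n a),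
    yR (n a) (m a) (c a) (Γ a) (M a) (R a) (G a) (D a) (kr a) t v *
      (Nat.log 2 ((D a (t * n a + v) + 1) ^ c a) + c a * G a (upS (n a)
        (yR (n a) (m a) (c a) (Γ a) (M a) (R a) (G a) (D a) (kr a) t) v))) h.hR ?_
  exact P8e91ed.PT.nSum (f := fun (p : α × ℕ) v =>
    yR (n p.1) (m p.1) (c p.1) (Γ p.1) (M p.1) (R p.1) (G p.1) (D p.1) (kr p.1) p.2 v *
      (Nat.log 2 ((D p.1 (p.2 * n p.1 + v) + 1) ^ c p.1) + c p.1 * G p.1 (upS (n p.1)
        (yR (n p.1) (m p.1) (c p.1) (Γ p.1) (M p.1) (R p.1) (G p.1) (D p.1) (kr p.1) p.2) v)))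
    h1.hn (hy.mul ((poly_logpow hu.succ h2.hc).add (h2.hc.mul hG)))

end Pool.Agent.Lib.SubBisF.Mach
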