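import Pool.Agent.Lib.SubBisF.MachPoly
import Pool.Agent.Lib.SubBisF.MachBridge

/-!
The kernel of the method with pools. There are `n` sites with labels `L v < B`, a pool of `R` digits
`P (v * R + r)` of every site `v`, and `N` worlds `I (t * B + j) < R`, `j < B`. The digit of the site
`v` in the world `t` is `P (v * R + I (t * B + L v))`.
-/

set_option autoImplicit false

namespace Pool.Agent.Lib.SubBisF.Mach

open Finset Pool.Agent.Lib.PolyTime Pool.Agent.Lib.Pa7c826 Pool.Agent.Lib.Pa7c826t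
open Pool.Agent.Lib.SubBisX.Tab Pool.Agent.Lib.SubBisX.Tab.TabAux Pool.Agent.Lib.SubBisB.BTab
open Pool.Agent.Lib.SubBisE.Mach (ent_lt')

/-! ### Arrays -/

/-- the digit of the site `v` in the world `t` -/
def dgN (B R : ℕ) (L P I : ℕ → ℕ) (t v : ℕ) : ℕ := P (v * R + I (t * B + L v))

/-- the number of the blocks `< l` at which two worlds agree -/
def agF (B : ℕ) (I : ℕ → ℕ) (t t' l : ℕ) : ℕ :=
  ((range l).filter fun j => I (t * B + j) = I (t' * B + j)).card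

/-- the kernel -/
def krF (B R d : ℕ) (L P I : ℕ → ℕ) (t t' v : ℕ) : ℕ :=
  if dgN B R L P I t v = dgN B R L P I t' v then (agF B I t t' (L v) + 1) ^ d else 0

/-- the digits as an array -/
def dA (n B R : ℕ) (L P I : ℕ → ℕ) (i : ℕ) : ℕ := dgN B R L P I (i / n) (i % n)

theorem dA_eq {n B R : ℕ} {L P I : ℕ → ℕ} {t v : ℕ} (hv : v < n) :
    dA n B R L P I (t * n + v) = dgN B R L P I t v := by
  have hn : 0 < n := lt_of_le_of_lt (Nat.zero_le _) hv
  unfold dA
  rw [mul_comm t n, Nat.mul_add_div hn, Nat.div_eq_of_lt hv, add_zero, Nat.mul_add_mod,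
    Nat.mod_eq_of_lt hv]

universe u

variable {α : Type u} {Dm : α → Prop} {ctx : List (α → List Bool)}

/-- The hypotheses on the arrays. -/
structure HP (Dm : α → Prop) (ctx : List (α → List Bool)) (n m B R N d : α → ℕ)
    (L P I : α → ℕ → ℕ) : Prop where
  hn : PolyN Dm ctx n
  hm : PolyN Dm ctx m
  hB : PolyN Dm ctx B
  hR : PolyN Dm ctx R
  hN : PolyN Dm ctx N
  hd : PolyN Dm ctx d
  hK : PolyN Dm ctx (fun a => (B a + 1) ^ d a)
  hL : PolyArr Dm ctx B n L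
  hP : PolyArr Dm ctx m (fun a => n a * R a) P
  hI : PolyArr Dm ctx R (fun a => N a * B a) I
  hLB : ∀ a, Dm a → ∀ v < n a, L a v < B a
  hIR : ∀ a, Dm a → ∀ i < N a * B a, I a i < R a

variable {n m B R N d : α → ℕ} {L P I : α → ℕ → ℕ}

theorem HP.lft (h : HP Dm ctx n m B R N d L P I)
    {γ : Type u} {D' : γ → Prop}
    {ctx' : List (γ → List Bool)} (π : γ → α) (hπ : ∀ b, D' b → Dm (π b))
    (lf : ∀ t : α → List Bool, PolyC Dm ctx t → PolyC D' ctx' (fun b => t (π b))) :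
    HP D' ctx' (fun b => n (π b)) (fun b => m (π b)) (fun b => B (π b)) (fun b => R (π b))
      (fun b => N (π b)) (fun b => d (π b)) (fun b => L (π b)) (fun b => P (π b))
      (fun b => I (π b)) :=
  ⟨lf _ h.hn, lf _ h.hm, lf _ h.hB, lf _ h.hR, lf _ h.hN, lf _ h.hd, lf _ h.hK,
    ⟨lf _ h.hL.1, fun b hb => h.hL.2 _ (hπ b hb)⟩, ⟨lf _ h.hP.1, fun b hb => h.hP.2 _ (hπ b hb)⟩,
    ⟨lf _ h.hI.1, fun b hb => h.hI.2 _ (hπ b hb)⟩, fun b hb => h.hLB _ (hπ b hb),
    fun b hb => h.hIR _ (hπ b hb)⟩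

theorem HP.up (h : HP Dm ctx n m B R N d L P I) (k : α → ℕ) :
    HP (fun p : α × ℕ => Dm p.1 ∧ p.2 < k p.1) (PolyTime.lift ctx ++ [fun p => un p.2])
      (fun b => n b.1) (fun b => m b.1) (fun b => B b.1) (fun b => R b.1)
      (fun b => N b.1) (fun b => d b.1) (fun b => L b.1) (fun b => P b.1) (fun b => I b.1) :=
  h.lft Prod.fst (fun _ hb => hb.1) (fun _ ht => Pool.Agent.Lib.Pa7c826.up (n := k) ht)

theorem poly_dgN {t v : α → ℕ} (h : HP Dm ctx n m B R N d L P I) (ht : PolyN Dm ctx t)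
    (hv : PolyN Dm ctx v) (htN : ∀ a, Dm a → t a < N a) (hvn : ∀ a, Dm a → v a < n a) :
    PolyN Dm ctx (fun a => dgN (B a) (R a) (L a) (P a) (I a) (t a) (v a)) := by
  have hl := PolyArr.get h.hL h.hB hv hvn
  have hi := PolyArr.get h.hI h.hR ((ht.mul h.hB).add hl) (fun a ha =>
    ent_lt' (htN a ha) (h.hLB a ha _ (hvn a ha)))
  have key := PolyArr.get h.hP h.hm ((hv.mul h.hR).add hi) (fun a ha =>
    ent_lt' (hvn a ha) (h.hIR a ha _ (ent_lt' (htN a ha) (h.hLB a ha _ (hvn a ha)))))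
  exact key

theorem agF_le (B : ℕ) (I : ℕ → ℕ) (t t' l : ℕ) : agF B I t t' l ≤ l := by
  unfold agF
  refine (card_filter_le _ _).trans ?_
  rw [card_range]

theorem poly_agF {t t' l : α → ℕ} (h : HP Dm ctx n m B R N d L P I) (ht : PolyN Dm ctx t)
    (ht' : PolyN Dm ctx t') (hl : PolyN Dm ctx l) (htN : ∀ a, Dm a → t a < N a)
    (htN' : ∀ a, Dm a → t' a < N a) (hlB : ∀ a, Dm a → l a < B a) :
    PolyN Dm ctx (fun a => agF (B a) (I a) (t a) (t' a) (l a)) := by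
  have h1 := h.up l
  have L1 := last (D := Dm) (ctx := ctx) (n := l)
  have T := upN (n := l) ht
  have T' := upN (n := l) ht'
  have e1 := PolyArr.get h1.hI h1.hR ((T.mul h1.hB).add L1) (fun p hp =>
    ent_lt' (htN _ hp.1) (hp.2.trans (hlB _ hp.1)))
  have e2 := PolyArr.get h1.hI h1.hR ((T'.mul h1.hB).add L1) (fun p hp =>
    ent_lt' (htN' _ hp.1) (hp.2.trans (hlB _ hp.1)))
  refine (PolyN.count (φ := fun p : α × ℕ => decide (I p.1 (t p.1 * B p.1 + p.2) =
    I p.1 (t' p.1 * B p.1 + p.2))) hl (PolyB.natEq e1 e2)).congr (fun a _ => ?_)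
  unfold agF
  simp only [decide_eq_true_eq]

/-- The kernel in polynomial time. -/
theorem poly_krF {t t' v : α → ℕ} (h : HP Dm ctx n m B R N d L P I) (ht : PolyN Dm ctx t)
    (ht' : PolyN Dm ctx t') (hv : PolyN Dm ctx v) (htN : ∀ a, Dm a → t a < N a)
    (htN' : ∀ a, Dm a → t' a < N a) (hvn : ∀ a, Dm a → v a < n a) :
    PolyN Dm ctx (fun a => krF (B a) (R a) (d a) (L a) (P a) (I a) (t a) (t' a) (v a)) := by
  have hl := PolyArr.get h.hL h.hB hv hvn
  have hlB : ∀ a, Dm a → L a (v a) < B a := fun a ha => h.hLB a ha _ (hvn a ha)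
  have A := poly_agF h ht ht' hl htN htN' hlB
  have E := powz A.succ h.hd h.hK (fun a ha => Nat.pow_le_pow_left (by
    have := agF_le (B a) (I a) (t a) (t' a) (L a (v a))
    have := hlB a ha
    omega) _)
  refine (itez (PolyB.natEq (poly_dgN h ht hv htN hvn) (poly_dgN h ht' hv htN' hvn))
    (PolyC.mono E fun _ h => h.1) (PolyN.const 0)).congr (fun a _ => ?_)
  unfold krF
  simp only [decide_eq_true_eq]

theorem pk_krF (h : HP Dm ctx n m B R N d L P I) :
    PK Dm ctx n N (fun a => krF (B a) (R a) (d a) (L a) (P a) (I a)) :=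
  fun _ _ _ π _ _ _ h1 lf ht ht' hv htR htt hvn =>
    poly_krF (h.lft π h1 lf) ht ht' hv htR (fun b hb => (htt b hb).trans (htR b hb)) hvn

theorem arr_dA (h : HP Dm ctx n m B R N d L P I) :
    PolyArr Dm ctx m (fun a => N a * n a) (fun a => dA (n a) (B a) (R a) (L a) (P a) (I a)) := by
  have hlt : ∀ i s r : ℕ, i < s * r → i / r < s ∧ i % r < r := fun i s r hi => by
    have hr : 0 < r := Nat.pos_of_ne_zero fun h0 => by
      rw [h0, Nat.mul_zero] at hi
      exact Nat.not_lt_zero _ hi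
    exact ⟨(Nat.div_lt_iff_lt_mul hr).2 hi, Nat.mod_lt _ hr⟩
  refine PolyArr.mk h.hm (h.hN.mul h.hn) ?_ (fun a ha i hi => ?_)
  · have h1 := h.up (fun a => N a * n a)
    have I1 := last (D := Dm) (ctx := ctx) (n := fun a => N a * n a)
    exact poly_dgN h1 (divz I1 h1.hn) (modz I1 h1.hn) (fun p hp => (hlt _ _ _ hp.2).1)
      (fun p hp => (hlt _ _ _ hp.2).2)
  · obtain ⟨h1, h2⟩ := hlt _ _ _ hi
    exact h.hP.2 a ha _ (ent_lt' h2 (h.hIR a ha _ (ent_lt' h1 (h.hLB a ha _ h2))))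

/-! ### The method with pools -/

section method

open Pool.Agent.Lib.SubBisE

variable {n m B R N : ℕ}

/-- the labels, the pool and the worlds of one copy -/
abbrev CpF (n m B R N : ℕ) : Type :=
  (Fin n → Fin B) × ((Fin n → Fin R → Fin m) × (Fin N → Fin B → Fin R))

variable [NeZero R]

/-- the digits of the world `t` -/
def UF (p : CpF n m B R N) (t : ℕ) (v : Fin n) : Fin m := p.2.1 v (xt p.2.2 t (p.1 v))

/-- the kernel -/
def KF (d : ℕ) (p : CpF n m B R N) (σ τ : ℕ) (v : Fin n) : ℕ :=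
  if UF p σ v = UF p τ v then ker d (p.1 v) (xt p.2.2 σ) (xt p.2.2 τ) else 0

/-- the value of one copy -/
def VF (c M d : ℕ) (F : Finset (Fin n) → ℤ) (p : CpF n m B R N) : ℤ :=
  VlK c M F (UF p) (KF d p) N

theorem UF_eq {p : CpF n m B R N} {L P I : ℕ → ℕ} (hL : ∀ v : Fin n, (p.1 v : ℕ) = L v)
    (hP : ∀ (v : Fin n) (r : Fin R), (p.2.1 v r : ℕ) = P (v * R + r))
    (hI : ∀ t < N, ∀ j : Fin B, (xt p.2.2 t j : ℕ) = I (t * B + j)) {t : ℕ} (ht : t < N)
    (v : Fin n) : (UF p t v : ℕ) = dA n B R L P I (t * n + v) := by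
  rw [dA_eq v.isLt]
  unfold UF dgN
  rw [hP, hI t ht, hL]

omit [NeZero R] in
theorem agF_eq {W W' : Fin B → Fin R} {I : ℕ → ℕ} {t t' : ℕ}
    (hW : ∀ j : Fin B, (W j : ℕ) = I (t * B + j)) (hW' : ∀ j : Fin B, (W' j : ℕ) = I (t' * B + j))
    {l : ℕ} (hl : l ≤ B) : agF B I t t' l = agr l W' W := by
  unfold agF agr
  have h : (univ.filter fun w : Fin B => (w : ℕ) < l ∧ W' w = W w).map
      Fin.valEmbedding = (range l).filter fun w => I (t * B + w) = I (t' * B + w) := by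
    ext w
    simp only [mem_map, mem_filter, mem_univ, true_and, Fin.valEmbedding_apply, mem_range]
    constructor
    · rintro ⟨x, ⟨hx, hx'⟩, rfl⟩
      refine ⟨hx, ?_⟩
      rw [← hW x, ← hW' x, hx']
    · rintro ⟨hw, hx⟩
      refine ⟨⟨w, by omega⟩, ⟨hw, ?_⟩, rfl⟩
      apply Fin.ext
      rw [hW ⟨w, by omega⟩, hW' ⟨w, by omega⟩]
      exact hx.symm
  rw [← h, card_map]

theorem KF_eq {p : CpF n m B R N} {L P I : ℕ → ℕ} (hL : ∀ v : Fin n, (p.1 v : ℕ) = L v)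
    (hP : ∀ (v : Fin n) (r : Fin R), (p.2.1 v r : ℕ) = P (v * R + r))
    (hI : ∀ t < N, ∀ j : Fin B, (xt p.2.2 t j : ℕ) = I (t * B + j)) (d : ℕ) {t : ℕ} (ht : t < N)
    {t' : ℕ} (ht' : t' < t) (v : Fin n) : KF d p t' t v = krF B R d L P I t t' v := by
  have h1 := UF_eq hL hP hI ht v
  have h2 := UF_eq hL hP hI (ht'.trans ht) v
  rw [dA_eq v.isLt] at h1 h2
  unfold KF krF ker
  rw [agF_eq (hI t ht) (hI t' (ht'.trans ht)) (l := L v) (by rw [← hL v]; exact (p.1 v).isLt.le),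
    ← h1, ← h2, ← hL v, add_comm 1]
  by_cases h : UF p t' v = UF p t v
  · rw [if_pos h, if_pos (by rw [h])]
  · rw [if_neg h, if_neg fun h3 => h (Fin.ext h3.symm)]

/-- **The machine computes the value of one copy.** -/
theorem posK_negK_F {p : CpF n m B R N} {L P I : ℕ → ℕ} (hL : ∀ v : Fin n, (p.1 v : ℕ) = L v)
    (hP : ∀ (v : Fin n) (r : Fin R), (p.2.1 v r : ℕ) = P (v * R + r))
    (hI : ∀ t < N, ∀ j : Fin B, (xt p.2.2 t j : ℕ) = I (t * B + j)) (c d Γ M : ℕ)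
    (G : Finset ℕ → ℕ)
    (hΓ : ∀ (v : Fin n) (u : Fin m) (y : Fin n → ℤ),
      |Pool.Agent.Lib.SubBisX.Core.gr c (GF G) v u y| ≤ Γ) :
    (posK n m c Γ M N G (dA n B R L P I) (krF B R d L P I) : ℤ) -
      negK n m c Γ M N G (dA n B R L P I) (krF B R d L P I) = VF c M d (GF G) p :=
  posK_negK (fun _ ht v => UF_eq hL hP hI ht v)
    (fun _ ht _ ht' v => KF_eq hL hP hI d ht ht' v) c Γ M G hΓ

end method

end Pool.Agent.Lib.SubBisF.Mach
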