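import Pool.Agent.Lib.SubBisE.FinE
import Pool.Agent.Lib.SubBisC.FinC
import Pool.Agent.Lib.SubBisX.ShpNum

/-!
Small vertex covers: for `k ≤ (log x) ^ 2` the scheme of `SubBisE` runs in polynomial time.
-/

set_option autoImplicit false

namespace Pool.Agent.Lib.SubBisF

open Finset Pool.Agent.Lib.SubBisX Pool.Agent.Lib.SubBisB Pool.Agent.Lib.SubBisC
open Pool.Agent.Lib.SubBisE (expT cT)
open Pool.Agent.Lib.Pa7c826 Pool.Agent.Lib.Pa7c826t

theorem logb_le_self {y : ℝ} (hy : 0 < y) : Real.logb 2 y ≤ y := by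
  rw [Real.logb_le_iff_le_rpow one_lt_two hy, Real.rpow_def_of_pos (by norm_num)]
  rcases le_total y 1 with h1 | h1
  · have h2 : 1 ≤ Real.exp (Real.log 2 * y) := Real.one_le_exp (by
      have := Real.log_nonneg (x := 2) (by norm_num)
      positivity)
    linarith
  · have h6 := Real.quadratic_le_exp_of_nonneg (x := Real.log 2 * y)
      (mul_nonneg (Real.log_nonneg (by norm_num)) hy.le)
    have h7 := Real.log_two_gt_d9
    nlinarith [sq_nonneg (y * Real.log 2 - 1), sq_nonneg (y - 2)]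

theorem size_le_lam (x : ℕ) : ((x.size : ℕ) : ℝ) ≤ 2 * Real.logb 2 ((x : ℝ) + 4) := by
  have hlam := Fin2.two_le_log x
  rcases Nat.eq_zero_or_pos x with h0 | h0
  · subst h0
    rw [Nat.size_zero]
    push_cast
    push_cast at hlam
    linarith
  · have h1 : 2 ^ (x.size - 1) ≤ x := by
      by_contra hcon
      have h3 : x.size ≤ x.size - 1 := Nat.size_le.2 (by omega)
      have h4 : 0 < x.size := Nat.size_pos.2 h0
      omega
    have h2 : ((2 : ℝ) ^ (x.size - 1)) ≤ (x : ℝ) + 4 := by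
      have : ((2 : ℝ) ^ (x.size - 1)) ≤ (x : ℝ) := by exact_mod_cast h1
      linarith
    have h3 : ((x.size - 1 : ℕ) : ℝ) ≤ Real.logb 2 ((x : ℝ) + 4) := by
      rw [Real.le_logb_iff_rpow_le one_lt_two (by positivity), Real.rpow_natCast]
      exact h2
    have h4 : (x.size : ℝ) ≤ ((x.size - 1 : ℕ) : ℝ) + 1 := by
      have : x.size ≤ (x.size - 1) + 1 := by omega
      exact_mod_cast this
    linarith

/-- the exponent is small for small covers -/
theorem expT_le {x k : ℕ} (hk : k ≤ x.size ^ 2) :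
    expT k ≤ 2 ^ 19 * Real.logb 2 ((x : ℝ) + 4) := by
  set lam := Real.logb 2 ((x : ℝ) + 4) with hlam
  have hlam2 : 2 ≤ lam := Fin2.two_le_log x
  have hk4 : (k : ℝ) ≤ 4 * lam ^ 2 := by
    have h1 : (k : ℝ) ≤ (x.size : ℝ) ^ 2 := by exact_mod_cast hk
    have h2 : (x.size : ℝ) ^ 2 ≤ (2 * lam) ^ 2 :=
      pow_le_pow_left₀ (Nat.cast_nonneg _) (size_le_lam x) 2
    nlinarith
  have hk0 : (0 : ℝ) ≤ k := Nat.cast_nonneg _
  set u := Real.logb 2 ((k : ℝ) + 1) with hu
  have hu0 : 0 ≤ u := Real.logb_nonneg one_lt_two (by linarith)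
  -- `y = lam ^ (1 / 4)`
  set y := lam ^ (1 / 4 : ℝ) with hy
  have hy0 : 0 < y := Real.rpow_pos_of_pos (by linarith) _
  have hy4 : y ^ 4 = lam := by
    rw [hy, ← Real.rpow_natCast, ← Real.rpow_mul (by linarith)]
    norm_num
  have hy1 : 1 ≤ y := Real.one_le_rpow (by linarith) (by norm_num)
  have hu1 : u ≤ 11 * y := by
    have h1 : u ≤ Real.logb 2 (2 ^ 3 * y ^ 8) := by
      refine Real.logb_le_logb_of_le one_lt_two (by linarith) ?_
      have h2 : y ^ 8 = lam ^ 2 := by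
        rw [← hy4]
        ring
      rw [h2]
      nlinarith
    have h3 : Real.logb 2 (2 ^ 3 * y ^ 8) = 3 + 8 * Real.logb 2 y := by
      rw [Real.logb_mul (by norm_num) (by positivity), Real.logb_pow, Real.logb_pow,
        Real.logb_self_eq_one one_lt_two]
      norm_num
    rw [h3] at h1
    have h4 := logb_le_self hy0
    linarith
  have hu4 : u ^ 4 ≤ 14641 * lam := by
    have h1 := pow_le_pow_left₀ hu0 hu1 4
    have h2 : (11 * y) ^ 4 = 14641 * lam := by
      rw [mul_pow, hy4]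
      norm_num
    linarith
  set E := (k : ℝ) ^ (1 / 3 : ℝ) * u ^ (4 / 3 : ℝ) with hE
  have hE0 : 0 ≤ E := by positivity
  have hE3 : E ^ 3 = k * u ^ 4 := by
    rw [hE, mul_pow, ← Real.rpow_natCast, ← Real.rpow_mul hk0, ← Real.rpow_natCast (u ^ _),
      ← Real.rpow_mul hu0, ← Real.rpow_natCast u 4]
    norm_num
  have hE39 : E ≤ 39 * lam := by
    have h1 : E ^ 3 ≤ (39 * lam) ^ 3 := by
      rw [hE3]
      calc (k : ℝ) * u ^ 4 ≤ (4 * lam ^ 2) * (14641 * lam) :=
            mul_le_mul hk4 hu4 (by positivity) (by positivity)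
        _ ≤ (39 * lam) ^ 3 := by
            have : 0 ≤ lam ^ 3 := by positivity
            nlinarith
    exact (pow_le_pow_iff_left₀ hE0 (by linarith) (by norm_num)).1 h1
  have he : expT k = 2 ^ 13 * E := by
    unfold expT cT
    rw [hE]
    ring
  rw [he]
  linarith

/-- **The promise holds for small covers.** -/
theorem exists_exp : ∃ c : ℕ, 2 ≤ c ∧ ∀ x k : ℕ, k ≤ x.size ^ 2 →
    (2 : ℝ) ^ expT k ≤ (((x + 4) ^ c : ℕ) : ℝ) := by
  obtain ⟨c, hc⟩ : ∃ c : ℕ, c = 2 ^ 19 := ⟨_, rfl⟩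
  have hc2 : 2 ≤ c := by
    rw [hc]
    norm_num
  have hcr : (c : ℝ) = 2 ^ 19 := by
    rw [hc]
    norm_num
  refine ⟨c, hc2, fun x k hk => ?_⟩
  have h1 := expT_le hk
  have hx : (0 : ℝ) < (x : ℝ) + 4 := by positivity
  calc (2 : ℝ) ^ expT k ≤ 2 ^ ((c : ℝ) * Real.logb 2 ((x : ℝ) + 4)) :=
        Real.rpow_le_rpow_of_exponent_le (by norm_num) (by rw [hcr]; exact h1)
    _ = (((x + 4) ^ c : ℕ) : ℝ) := by
        rw [mul_comm, Real.rpow_mul (by norm_num), Real.rpow_logb (by norm_num) (by norm_num) hx,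
          Real.rpow_natCast]
        push_cast
        rfl

/-- a relative error is a small error of the logarithm -/
theorem logGood_of_good {G : BGraph} {t' : ℕ} {o : List Bool} {e : ℝ} (ht : 2 ≤ t')
    (he : 4 / (t' : ℝ) ≤ e) (h : Good G t' o) : LogGood G e o := by
  obtain ⟨h1, h2⟩ := SubBisX.logGood_of_good ht h
  exact ⟨h1, h2.trans he⟩

open Pool.Agent.Lib.PolyTime in
/-- From a randomised procedure which needs `need G t` random bits to the machine. -/
theorem rSchemeG_of {e : BGraph → ℕ → ℝ} {need : BGraph → ℕ → ℕ}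
    {out : BGraph → ℕ → List Bool → List Bool}
    (hneed : PolyN (fun x : BGraph × ℕ => 1 ≤ x.2) [fun x => inCode x.1 x.2]
      (fun x => need x.1 x.2))
    (hout : PolyC (fun x : BGraph × ℕ × List Bool =>
        1 ≤ x.2.1 ∧ need x.1 x.2.1 ≤ x.2.2.length)
      [fun x => inCode x.1 x.2.1, fun x => x.2.2] (fun x => out x.1 x.2.1 x.2.2))
    (hgood : ∀ G t, 1 ≤ t → ∀ N, need G t ≤ N →
      3 * 2 ^ N ≤ 4 * Nat.card {r : Fin N → Bool // LogGood G (e G t) (out G t (List.ofFn r))}) :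
    RSchemeG e := by
  obtain ⟨m, hm⟩ := exists_need hneed
  refine ⟨m, out, ?_, fun G t ht => hgood G t ht _ (hm G t ht)⟩
  have h1 := poly_split (hout.mono (D' := fun x : BGraph × ℕ × List Bool =>
    1 ≤ x.2.1 ∧ x.2.2.length = m.eval (inCode x.1 x.2.1).length) ?_)
  · exact PolyC.toTM2 encR (fun x => out x.1 x.2.1 x.2.2) id h1
  · rintro ⟨G, t, r⟩ ⟨ht, hr⟩
    exact ⟨ht, (hm G t ht).trans hr.ge⟩

end Pool.Agent.Lib.SubBisF
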