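import Pool.Agent.Lib.SubBisF.Run

/-!
# SubBisF.OkB (1 h): one block of decisions

PROOF. Induction on `l`. `g = φ(U v) g1 + (1 - φ(U v)) g0`, `g1, g0` do not depend on `U v` (`run_congr_dig`); average over `U v` first
(`Bounds.av_update v`). With `p = av φ`, `h = p g1 + (1 - p) g0`: `av g = av h`, `av g² = av h² + Var φ · av (g1 - g0)²`; with
`Φ(f) = λ av f² - (λ - 1) (av f)²`, `λ = (1 + ε)²`: `Φ(g) = Φ(h) + λ Var φ av (g1 - g0)² ≤ Φ(h) + p (1 - p) av (g1 - g0)²` (`Okd`), and
`p Φ(g1) + (1 - p) Φ(g0) - Φ(h) = p (1 - p) Φ(g1 - g0) ≥ p (1 - p) av (g1 - g0)²` (`(av f)² ≤ av f²`).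
-/

set_option autoImplicit false

open scoped BigOperators

namespace Pool.Agent.Lib.SubBisF

open Finset SubBis Pool.Agent.Lib.SubBisX.Reg Pool.Agent.Lib.SubBisX.Core
open Pool.Agent.Lib.SubBisX
open Pool.Agent.Lib.SubBisE (agr ker cl gam vl xt Okd)
open Pool.Agent.Lib.SubBisB (wt2 ZF EG pv Rb Rp psi)

variable {n k m B R : ℕ}

namespace OkBAux

/-- Jensen -/
theorem sq_av_le {Ω : Type*} [Fintype Ω] [Nonempty Ω] (f : Ω → ℝ) :
    av f ^ 2 ≤ av fun w => f w ^ 2 := by
  have h0 : 0 ≤ av fun w => (f w - av f) ^ 2 := av_nonneg fun w => sq_nonneg _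
  have e : (fun w => (f w - av f) ^ 2) = fun w => f w ^ 2 + ((-2 * av f) * f w + av f ^ 2) := by
    funext w
    ring
  rw [e, av_add, av_add, av_smul, av_const] at h0
  nlinarith

/-- the mean of a product of a function of the digit `v` and a function of the other digits -/
theorem av_mul_digit [NeZero m] (v : Fin k) (a : Fin m → ℝ) {G : (Fin k → Fin m) → ℝ}
    (hG : ∀ U x, G (Function.update U v x) = G U) :
    (av fun U : Fin k → Fin m => a (U v) * G U) = av a * av G := by
  rw [← Bounds.av_update v fun U : Fin k → Fin m => a (U v) * G U]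
  have h1 : ∀ U : Fin k → Fin m, (av fun x : Fin m =>
      a (Function.update U v x v) * G (Function.update U v x)) = av a * G U := by
    intro U
    have h2 : (fun x : Fin m => a (Function.update U v x v) * G (Function.update U v x)) =
        fun x : Fin m => G U * a x := by
      funext x
      rw [Function.update_self, hG]
      ring
    rw [h2, av_smul]
    ring
  simp only [h1]
  rw [av_smul]

end OkBAux

/-- **(OK')** -/
theorem okB [NeZero m] {ε : ℝ} (h0 : 0 ≤ ε) {φ : Fin k → Finset (Fin k) → Fin m → ℝ}
    (hφ : ∀ v z, Okd ε (φ v z)) (l : List (Fin k)) (hl : l.Nodup) (r : Finset (Fin k) → ℝ)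
    (z : Finset (Fin k)) :
    (1 + ε) ^ 2 * (av fun U : Fin k → Fin m => run φ l r z U ^ 2) -
        ((1 + ε) ^ 2 - 1) * (av fun U : Fin k → Fin m => run φ l r z U) ^ 2 ≤
      av fun U : Fin k → Fin m => run φ l (fun S => r S ^ 2) z U := by
  classical
  have key : ∀ (l : List (Fin k)), l.Nodup → ∀ z : Finset (Fin k),
      (1 + ε) ^ 2 * (av fun U : Fin k → Fin m => run φ l r z U ^ 2) -
        ((1 + ε) ^ 2 - 1) * (av fun U : Fin k → Fin m => run φ l r z U) ^ 2 ≤
      av fun U : Fin k → Fin m => run φ l (fun S => r S ^ 2) z U := by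
    intro l
    induction l with
    | nil =>
      intro _ z
      have e1 : (fun U : Fin k → Fin m => run φ [] r z U ^ 2) = fun _ => r z ^ 2 := rfl
      have e2 : (fun U : Fin k → Fin m => run φ [] r z U) = fun _ => r z := rfl
      have e3 : (fun U : Fin k → Fin m => run φ [] (fun S => r S ^ 2) z U) = fun _ => r z ^ 2 := rfl
      rw [e1, e2, e3, av_const, av_const]
      exact le_of_eq (by ring)
    | cons v l ih =>
      intro hl z
      obtain ⟨hv, hl'⟩ := List.nodup_cons.1 hl
      have i1 := ih hl' (insert v z)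
      have i0 := ih hl' z
      have hinv : ∀ (r' : Finset (Fin k) → ℝ) (z' : Finset (Fin k)) (U : Fin k → Fin m) (x : Fin m),
          run φ l r' z' (Function.update U v x) = run φ l r' z' U := fun r' z' U x =>
        run_congr_dig l r' z' fun w hw => Function.update_of_ne (fun e : w = v => hv (e ▸ hw)) _ _
      have ho := hφ v z
      set a : Fin m → ℝ := φ v z with ha
      set g1 : (Fin k → Fin m) → ℝ := fun U => run φ l r (insert v z) U with hg1
      set g0 : (Fin k → Fin m) → ℝ := fun U => run φ l r z U with hg0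
      set p : ℝ := av a with hp
      set q : ℝ := av fun u => a u ^ 2 with hq
      have hp0 : 0 ≤ p := av_nonneg fun u => (ho.1 u).1
      have hp1 : p ≤ 1 := by
        have h1 : av a ≤ av fun _ : Fin m => (1 : ℝ) := av_mono fun u => (ho.1 u).2
        rwa [av_const] at h1
      have hG1 : ∀ U x, g1 (Function.update U v x) = g1 U := fun U x => hinv r (insert v z) U x
      have hG0 : ∀ U x, g0 (Function.update U v x) = g0 U := fun U x => hinv r z U x
      -- the mean
      have m1 : (av fun U : Fin k → Fin m => run φ (v :: l) r z U) = p * av g1 + (1 - p) * av g0 := by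
        have e : (fun U : Fin k → Fin m => run φ (v :: l) r z U) =
            fun U => a (U v) * g1 U + (1 - a (U v)) * g0 U := rfl
        rw [e, av_add, OkBAux.av_mul_digit v a hG1,
          OkBAux.av_mul_digit v (fun u => 1 - a u) hG0, av_sub, av_const]
      -- the mean of the right-hand side
      have m2 : (av fun U : Fin k → Fin m => run φ (v :: l) (fun S => r S ^ 2) z U) =
          p * (av fun U : Fin k → Fin m => run φ l (fun S => r S ^ 2) (insert v z) U) +
          (1 - p) * (av fun U : Fin k → Fin m => run φ l (fun S => r S ^ 2) z U) := by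
        have e : (fun U : Fin k → Fin m => run φ (v :: l) (fun S => r S ^ 2) z U) =
            fun U => a (U v) * run φ l (fun S => r S ^ 2) (insert v z) U +
              (1 - a (U v)) * run φ l (fun S => r S ^ 2) z U := rfl
        rw [e, av_add, OkBAux.av_mul_digit v a fun U x => hinv _ (insert v z) U x,
          OkBAux.av_mul_digit v (fun u => 1 - a u) fun U x => hinv _ z U x, av_sub, av_const]
      -- the mean of the square
      have m3 : (av fun U : Fin k → Fin m => run φ (v :: l) r z U ^ 2) =
          q * (av fun U => g1 U ^ 2) + (2 * (p - q)) * (av fun U => g1 U * g0 U) +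
            (1 - 2 * p + q) * (av fun U => g0 U ^ 2) := by
        have e : (fun U : Fin k → Fin m => run φ (v :: l) r z U ^ 2) =
            fun U => a (U v) ^ 2 * g1 U ^ 2 + ((2 * (a (U v) - a (U v) ^ 2)) * (g1 U * g0 U) +
              (1 - 2 * a (U v) + a (U v) ^ 2) * g0 U ^ 2) := by
          funext U
          change (a (U v) * g1 U + (1 - a (U v)) * g0 U) ^ 2 = _
          ring
        rw [e, av_add, av_add,
          OkBAux.av_mul_digit v (fun u => a u ^ 2) (G := fun U => g1 U ^ 2)
            (fun U x => by simp only [hG1]),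
          OkBAux.av_mul_digit v (fun u => 2 * (a u - a u ^ 2)) (G := fun U => g1 U * g0 U)
            (fun U x => by simp only [hG1, hG0]),
          OkBAux.av_mul_digit v (fun u => 1 - 2 * a u + a u ^ 2) (G := fun U => g0 U ^ 2)
            (fun U x => by simp only [hG0]),
          av_smul, av_sub, av_add, av_sub, av_const, av_smul]
        ring
      have hJ := OkBAux.sq_av_le fun U => g1 U - g0 U
      have hD : (av fun U => (g1 U - g0 U) ^ 2) = (av fun U => g1 U ^ 2) +
          ((-2) * (av fun U => g1 U * g0 U) + av fun U => g0 U ^ 2) := by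
        rw [← av_smul, ← av_add, ← av_add]
        congr 1
        funext U
        ring
      rw [av_sub, hD] at hJ
      have hok := ho.2
      rw [m1, m2, m3]
      change _ ≤ (av a) * (1 - av a) at hok
      rw [← hp, ← hq] at hok
      have hlam : 0 ≤ (1 + ε) ^ 2 - 1 := by nlinarith
      have hpp : 0 ≤ p * (1 - p) := mul_nonneg hp0 (by linarith)
      set L : ℝ := (1 + ε) ^ 2 with hL
      set G11 : ℝ := av fun U => g1 U ^ 2
      set G10 : ℝ := av fun U => g1 U * g0 U
      set G00 : ℝ := av fun U => g0 U ^ 2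
      set A1 : ℝ := av g1
      set A0 : ℝ := av g0
      have k1 : (L - 1) * (p * (1 - p)) ≤ L * (p - q) := by nlinarith
      have hD0 : 0 ≤ G11 + (-2 * G10 + G00) := le_trans (sq_nonneg _) hJ
      have k2 : (L - 1) * (p * (1 - p)) * (G11 + (-2 * G10 + G00)) ≤
          L * (p - q) * (G11 + (-2 * G10 + G00)) := mul_le_mul_of_nonneg_right k1 hD0
      have k3 : (L - 1) * (p * (1 - p)) * (A1 - A0) ^ 2 ≤
          (L - 1) * (p * (1 - p)) * (G11 + (-2 * G10 + G00)) :=
        mul_le_mul_of_nonneg_left hJ (mul_nonneg hlam hpp)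
      have k4 := mul_le_mul_of_nonneg_left i1 hp0
      have k5 := mul_le_mul_of_nonneg_left i0 (by linarith : 0 ≤ 1 - p)
      refine le_trans ?_ (add_le_add k4 k5)
      nlinarith [k2, k3]
  exact key l hl z

end Pool.Agent.Lib.SubBisF
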