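import Pool.Agent.Lib.SubBisF.CoreF
import Pool.Agent.Lib.SubBisE.ParE

/-!
# SubBisF.ParF (1.5 h): the parameters, the mean value and the range for any set function

PROOF. As SubBisE/ParE.lean. `coreF`: shift to `F - F ∅`; average `coreF_upper`, `coreF_lower` over `bet` (`av_prod`, `av_gap`); with
`c = Q = q²`, `ε = 1/(16 q)`, `Γ = Gm q`, `κ = kap q`, `√B = 2^bF q ≥ Q kap`: errors in units of `N M c`: upper `3 k/Q`
(`UpHyp .. (3 k)` from `up_pool` with `lam = 1/G²`, `G = c (mu + kap + 2)`, `R ≥ 2 B (1 + m) G²`); lower: `lossP ≤ 1 + c (dl + 8 ε²)` (`SubBisB.dl_le`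
for `Q`, `mu q = 2 size Q + 3`), `c κ k/√B ≤ k`, `M m R^d/(2N) + Γ² (B+1)^d/(2M) = 1` per site, tail `≤ k` (`ParEAux.tail_big`, `mk_le`).
`coreF` takes the upper bound as hypothesis `hUp` for every `F`, `bet`; `hUp` is discharged in `SysF` or at the end of this file from Up3.
-/

set_option autoImplicit false

open scoped BigOperators

namespace Pool.Agent.Lib.SubBisF

open Finset SubBis Pool.Agent.Lib.SubBisX.Reg Pool.Agent.Lib.SubBisX.Core
open Pool.Agent.Lib.SubBisX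
open Pool.Agent.Lib.SubBisE (agr ker cl gam vl xt Okd)
open Pool.Agent.Lib.SubBisB (wt2 ZF EG pv Rb Rp psi)

variable {n k m B R : ℕ}

open Pool.Agent.Lib.SubBisE (mu kap dg Gm)

/-- `√B = 2 ^ bF q ≥ Q kap` -/
def bF (q : ℕ) : ℕ := (q ^ 2 * kap q).size

/-- binary digits of the labels -/
def lamF (q : ℕ) : ℕ := 2 * bF q

/-- binary digits of the indices in the pool: `R = 2 ^ rhoF q ≥ 2 B (1 + m) (Gm + 2 q²)²` -/
def rhoF (q : ℕ) : ℕ := lamF q + (mu q + 1) + 2 * (Gm q + 2 * q ^ 2).size + 1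

/-- the scale of the vectors -/
def MMF (q : ℕ) : ℕ := Gm q ^ 2 * (2 ^ lamF q + 1) ^ dg q

/-- the number of steps -/
def NNF (q : ℕ) : ℕ := MMF q * (2 ^ mu q * (2 ^ rhoF q) ^ dg q)

/-- the random numbers of one copy -/
abbrev CpQ (k q : ℕ) : Type := (Fin k → Fin (2 ^ lamF q)) ×
  ((Fin k → Fin (2 ^ rhoF q) → Fin (2 ^ mu q)) × (Fin (NNF q) → Fin (2 ^ lamF q) → Fin (2 ^ rhoF q)))

namespace ParFAux

theorem stF_shift (c M d : ℕ) (F : Finset (Fin k) → ℤ) (z : ℤ) (bet : Fin k → Fin B)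
    (D : Fin k → Fin R → Fin m) (W : ℕ → Fin B → Fin R) :
    ∀ T, stF c M d (fun S => F S + z) bet D W T = stF c M d F bet D W T
  | 0 => rfl
  | T + 1 => by
    funext τ
    show (if τ = T then gam c M (fun S => F S + z) (dgt bet D (W T))
        (yyF d bet D (stF c M d (fun S => F S + z) bet D W T) W T)
      else stF c M d (fun S => F S + z) bet D W T τ) = if τ = T then gam c M F (dgt bet D (W T))
        (yyF d bet D (stF c M d F bet D W T) W T) else stF c M d F bet D W T τ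
    rw [stF_shift c M d F z bet D W T]
    split_ifs
    · funext v
      exact SubBisE.ParEAux.gam_shift c M F z _ _ v
    · rfl

theorem VlF_shift {c M d : ℕ} (F : Finset (Fin k) → ℤ) (z : ℤ) (bet : Fin k → Fin B)
    (D : Fin k → Fin R → Fin m) (N : ℕ) (W : ℕ → Fin B → Fin R) :
    VlF c M d (fun S => F S + z) bet D N W = VlF c M d F bet D N W := by
  unfold VlF
  refine sum_congr rfl fun τ _ => ?_
  rw [stF_shift, SubBisE.ParEAux.vl_shift]

theorem MMF_pos {q : ℕ} (hq : 1 ≤ q) : 0 < MMF q := by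
  unfold MMF
  exact Nat.mul_pos (Nat.pow_pos (SubBisE.ParEAux.Gm_pos hq)) (Nat.pow_pos (Nat.succ_pos _))

theorem NNF_pos {q : ℕ} (hq : 1 ≤ q) : 0 < NNF q := by
  unfold NNF
  exact Nat.mul_pos (MMF_pos hq) (Nat.mul_pos (by positivity) (by positivity))

/-- `2 ^ bF ≥ Q kap` -/
theorem bF_big (q : ℕ) : (q : ℝ) ^ 2 * kap q ≤ (2 : ℝ) ^ bF q := by
  have h : q ^ 2 * kap q < 2 ^ bF q := Nat.lt_size_self _
  exact_mod_cast h.le

theorem sqrt_lamF (q : ℕ) : Real.sqrt ((2 ^ lamF q : ℕ) : ℝ) = (2 : ℝ) ^ bF q := by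
  unfold lamF
  push_cast
  rw [mul_comm 2, pow_mul, Real.sqrt_sq (by positivity)]

/-- the budget of the errors -/
theorem budget {q : ℕ} (hq : 1 ≤ q) (k : ℕ) {lZ X g : ℝ}
    (hu : X ≤ NNF q * (MMF q * ((q ^ 2 : ℕ) * lZ + 3 * k)))
    (hg : g ≤ k / Real.sqrt ((2 ^ lamF q : ℕ) : ℝ))
    (hl : NNF q * (MMF q * ((q ^ 2 : ℕ) * lZ -
          k * lossP (2 ^ mu q) (q ^ 2) (1 / (16 * (q : ℝ))) - (q ^ 2 : ℕ) * kap q * g)) -
        k * ((MMF q : ℝ) ^ 2 * (((2 ^ mu q : ℕ) : ℝ) * ((2 ^ rhoF q : ℕ) : ℝ) ^ dg q) +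
          NNF q * ((Gm q : ℝ) ^ 2 * (((2 ^ lamF q : ℕ) : ℝ) + 1) ^ dg q)) / 2 -
        MMF q * Gm q * (NNF q * (k / (1 + 1 / (16 * (q : ℝ))) ^ (dg q + 1))) ≤ X) :
    |X / (NNF q * MMF q * q ^ 2) - lZ| ≤ 6 * k / (q : ℝ) ^ 2 := by
  have hq0 : (0 : ℝ) < q := by exact_mod_cast hq
  have hq1 : (1 : ℝ) ≤ q := by exact_mod_cast hq
  have hM : (0 : ℝ) < MMF q := by exact_mod_cast MMF_pos hq
  have hN : (0 : ℝ) < NNF q := by exact_mod_cast NNF_pos hq
  have hG : (0 : ℝ) < Gm q := by exact_mod_cast SubBisE.ParEAux.Gm_pos hq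
  have hk : (0 : ℝ) ≤ k := Nat.cast_nonneg k
  have hMe : (MMF q : ℝ) = (Gm q : ℝ) ^ 2 * (((2 ^ lamF q : ℕ) : ℝ) + 1) ^ dg q := by
    unfold MMF; push_cast; ring
  have hNe : (NNF q : ℝ) =
      MMF q * (((2 ^ mu q : ℕ) : ℝ) * ((2 ^ rhoF q : ℕ) : ℝ) ^ dg q) := by
    unfold NNF; push_cast; ring
  have hGe : (Gm q : ℝ) = (q : ℝ) ^ 2 * (mu q + kap q) := by
    unfold Gm; push_cast; ring
  have hkap0 : (0 : ℝ) ≤ kap q := Nat.cast_nonneg _
  have hbig := bF_big q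
  rw [sqrt_lamF] at hg
  set Q : ℝ := (q : ℝ) ^ 2 with hQ
  have hQ1 : 1 ≤ Q := one_le_pow₀ hq1
  have hQ0 : 0 < Q := by linarith
  set P : ℝ := (2 : ℝ) ^ mu q with hP
  have hP8 : 8 * Q ^ 2 ≤ P := SubBisE.ParEAux.mu_big q
  set T : ℝ := (1 + 1 / (16 * (q : ℝ))) ^ (dg q + 1) with hT
  have hTP : P ≤ T := SubBisE.ParEAux.tail_big hq
  have hT0 : 0 < T := by
    have : 0 < P := by positivity
    linarith
  have hcast : ((q ^ 2 : ℕ) : ℝ) = Q := by push_cast; rfl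
  rw [hcast] at hu hl
  -- the loss
  have hloss : lossP (2 ^ mu q) (q ^ 2) (1 / (16 * (q : ℝ))) ≤ 2 + 1 / 32 := by
    unfold lossP
    rw [hcast]
    have h3 : SubBisB.dl (2 ^ mu q) ≤ 1 / Q := by
      have := SubBisB.dl_le (q := q ^ 2) (SubBisE.ParEAux.Q_pos hq)
      rw [hcast] at this
      exact this
    have h4 : 8 * (1 / (16 * (q : ℝ))) ^ 2 = 1 / (32 * Q) := by
      rw [hQ]
      field_simp
      norm_num
    have h6 : Q * (SubBisB.dl (2 ^ mu q) + 8 * (1 / (16 * (q : ℝ))) ^ 2) ≤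
        Q * (1 / Q + 1 / (32 * Q)) := by
      refine mul_le_mul_of_nonneg_left ?_ hQ0.le
      rw [h4]
      linarith
    have h7 : Q * (1 / Q + 1 / (32 * Q)) = 1 + 1 / 32 := by
      field_simp
    linarith
  -- the gap
  have hgap : Q * kap q * g ≤ k := by
    have hb0 : (0 : ℝ) < (2 : ℝ) ^ bF q := by positivity
    have h3 : Q * kap q * g ≤ Q * kap q * (k / (2 : ℝ) ^ bF q) :=
      mul_le_mul_of_nonneg_left hg (by positivity)
    refine h3.trans ?_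
    rw [← mul_div_assoc, div_le_iff₀ hb0, mul_comm (k : ℝ)]
    exact mul_le_mul_of_nonneg_right hbig hk
  have hD : 0 < (NNF q : ℝ) * MMF q * Q := by positivity
  -- the tail
  have htail : (Gm q : ℝ) * (k / T) ≤ k := by
    have h3 : (Gm q : ℝ) ≤ T := by
      rw [hGe]
      have h4 := SubBisE.ParEAux.mk_le hq
      rw [← hQ] at h4
      have h5 := mul_le_mul_of_nonneg_left h4 hQ0.le
      nlinarith
    rw [← mul_div_assoc, div_le_iff₀ hT0]
    nlinarith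
  have t1 : (k : ℝ) * ((MMF q : ℝ) ^ 2 * (((2 ^ mu q : ℕ) : ℝ) * ((2 ^ rhoF q : ℕ) : ℝ) ^ dg q) +
      NNF q * ((Gm q : ℝ) ^ 2 * (((2 ^ lamF q : ℕ) : ℝ) + 1) ^ dg q)) / 2 =
      k * (NNF q * MMF q) := by
    rw [← hMe, hNe]
    ring
  have t2 : (MMF q : ℝ) * Gm q * (NNF q * (k / T)) ≤ NNF q * MMF q * k := by
    have h3 := mul_le_mul_of_nonneg_left htail (by positivity : (0 : ℝ) ≤ NNF q * MMF q)
    nlinarith
  have t3 : (NNF q : ℝ) * (MMF q * (Q * lZ - k * (2 + 1 / 32) - k)) ≤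
      NNF q * (MMF q * (Q * lZ - k * lossP (2 ^ mu q) (q ^ 2) (1 / (16 * (q : ℝ))) -
        Q * kap q * g)) := by
    refine mul_le_mul_of_nonneg_left (mul_le_mul_of_nonneg_left ?_ hM.le) hN.le
    have := mul_le_mul_of_nonneg_left hloss hk
    linarith
  rw [t1] at hl
  have e6 : (6 : ℝ) * k / Q = 6 * (k / Q) := by ring
  rw [e6, abs_le]
  have h5 : (0 : ℝ) ≤ NNF q * MMF q * k := by positivity
  constructor
  · have h3 : lZ - 6 * (k / Q) ≤ X / (NNF q * MMF q * Q) := by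
      rw [le_div_iff₀ hD]
      have h4 : (lZ - 6 * (k / Q)) * (NNF q * MMF q * Q) =
          NNF q * (MMF q * (Q * lZ)) - 6 * (NNF q * MMF q * k) := by
        field_simp
      rw [h4]
      nlinarith
    linarith
  · have h3 : X / (NNF q * MMF q * Q) ≤ lZ + 3 * (k / Q) := by
      rw [div_le_iff₀ hD]
      refine hu.trans (le_of_eq ?_)
      field_simp
    have h4 : (0 : ℝ) ≤ k / Q := by positivity
    linarith

end ParFAux

/-- **The mean value.** -/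
theorem coreF {q : ℕ} (hq : 1 ≤ q) {F : Finset (Fin k) → ℤ} (hF : FCS.Subm F)
    (hk : ∀ S v, |F (insert v S) - F S| ≤ kap q)
    (hUp : ∀ (F' : Finset (Fin k) → ℤ), (∀ S v, |F' (insert v S) - F' S| ≤ kap q) →
      ∀ bet : Fin k → Fin (2 ^ lamF q),
        UpHyp (2 ^ mu q) (2 ^ lamF q) (2 ^ rhoF q) k (q ^ 2) (MMF q) F' bet (3 * k)) :
    |(av fun p : CpQ k q =>
        (VlF (q ^ 2) (MMF q) (dg q) F p.1 p.2.1 (NNF q) (xt p.2.2) : ℝ)) /
          (NNF q * MMF q * q ^ 2) - (Bounds.logZ F + F ∅)| ≤ 6 * k / (q : ℝ) ^ 2 := by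
  have hF' : FCS.Subm fun S => F S + -F ∅ := fun S S' => by
    have := hF S S'
    show F (S ∪ S') + -F ∅ + (F (S ∩ S') + -F ∅) ≤ F S + -F ∅ + (F S' + -F ∅)
    linarith
  have hk' : ∀ S v, |(fun S => F S + -F ∅) (insert v S) - (fun S => F S + -F ∅) S| ≤ kap q :=
    fun S v => by
      show |F (insert v S) + -F ∅ - (F S + -F ∅)| ≤ _
      have e : F (insert v S) + -F ∅ - (F S + -F ∅) = F (insert v S) - F S := by ring
      rw [e]
      exact hk S v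
  have hq1 : (1 : ℝ) ≤ q := by exact_mod_cast hq
  have hm2 : 2 ≤ 2 ^ mu q := by
    have h : 1 ≤ mu q := by
      unfold mu ParA.mu
      omega
    calc 2 = 2 ^ 1 := rfl
      _ ≤ 2 ^ mu q := Nat.pow_le_pow_right (by norm_num) h
  -- the mean for fixed labels
  obtain ⟨V, hV⟩ : ∃ V : (Fin k → Fin (2 ^ lamF q)) → ℝ, ∀ bet, V bet =
      av fun p : (Fin k → Fin (2 ^ rhoF q) → Fin (2 ^ mu q)) ×
        (Fin (NNF q) → Fin (2 ^ lamF q) → Fin (2 ^ rhoF q)) =>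
          (VlF (q ^ 2) (MMF q) (dg q) F bet p.1 (NNF q) (xt p.2) : ℝ) := ⟨_, fun _ => rfl⟩
  have hX : (av fun p : CpQ k q =>
      (VlF (q ^ 2) (MMF q) (dg q) F p.1 p.2.1 (NNF q) (xt p.2.2) : ℝ)) = av V := by
    rw [av_prod]
    exact congrArg av (funext fun bet => (hV bet).symm)
  have hsh : ∀ bet : Fin k → Fin (2 ^ lamF q),
      (av fun p : (Fin k → Fin (2 ^ rhoF q) → Fin (2 ^ mu q)) ×
        (Fin (NNF q) → Fin (2 ^ lamF q) → Fin (2 ^ rhoF q)) =>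
          (VlF (q ^ 2) (MMF q) (dg q) (fun S => F S + -F ∅) bet p.1 (NNF q) (xt p.2) : ℝ)) =
        V bet := by
    intro bet
    rw [hV]
    refine congrArg av (funext fun p => ?_)
    rw [ParFAux.VlF_shift]
  have e2 : Bounds.logZ (fun S => F S + -F ∅) = Bounds.logZ F + F ∅ := by
    rw [SubBisE.ParEAux.logZ_shift]
    push_cast
    ring
  have h1 : ∀ bet, V bet ≤ NNF q * (MMF q * ((q ^ 2 : ℕ) * (Bounds.logZ F + F ∅) + 3 * k)) := by
    intro bet
    have h := coreF_upper (m := 2 ^ mu q) (c := q ^ 2) (M := MMF q) (d := dg q)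
      (F := fun S => F S + -F ∅) (by ring) (hUp _ hk' bet) (NNF q)
    rw [hsh bet, e2] at h
    exact h
  have h2 : ∀ bet, NNF q * (MMF q * ((q ^ 2 : ℕ) * (Bounds.logZ F + F ∅) -
          k * lossP (2 ^ mu q) (q ^ 2) (1 / (16 * (q : ℝ))) -
          (q ^ 2 : ℕ) * kap q * gap (fun S => F S + -F ∅) bet)) -
        k * ((MMF q : ℝ) ^ 2 * (((2 ^ mu q : ℕ) : ℝ) * ((2 ^ rhoF q : ℕ) : ℝ) ^ dg q) +
          NNF q * ((Gm q : ℝ) ^ 2 * (((2 ^ lamF q : ℕ) : ℝ) + 1) ^ dg q)) / 2 -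
        MMF q * Gm q * (NNF q * (k / (1 + 1 / (16 * (q : ℝ))) ^ (dg q + 1))) ≤ V bet := by
    intro bet
    have h := coreF_lower (m := 2 ^ mu q) (B := 2 ^ lamF q) (R := 2 ^ rhoF q) (c := q ^ 2)
      (M := MMF q) (d := dg q) (ParFAux.MMF_pos hq) hm2 (ε := 1 / (16 * (q : ℝ))) (by positivity)
      (by
        rw [div_le_div_iff₀ (by positivity) (by norm_num)]
        linarith)
      (F := fun S => F S + -F ∅) hF' (by ring) (Γ := Gm q) (κ := kap q)
      (fun U y v => SubBisE.abs_gr_le hk' v (U v) y) (fun y v => hk' _ v) bet (NNF q)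
    rw [hsh bet, e2] at h
    exact h
  have h1' := av_mono h1
  rw [av_const] at h1'
  have h2' := av_mono h2
  rw [hX]
  refine ParFAux.budget hq k h1'
    (av_gap (B := 2 ^ lamF q) (by positivity) fun S => F S + -F ∅) (le_trans (le_of_eq ?_) h2')
  rw [av_sub, av_const, av_sub, av_const, av_smul, av_smul, av_sub, av_const, av_smul]

/-- **The range.** -/
theorem range_VlF {q : ℕ} {F : Finset (Fin k) → ℤ} (hk : ∀ S v, |F (insert v S) - F S| ≤ kap q)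
    (bet : Fin k → Fin (2 ^ lamF q)) (D : Fin k → Fin (2 ^ rhoF q) → Fin (2 ^ mu q))
    (W : ℕ → Fin (2 ^ lamF q) → Fin (2 ^ rhoF q)) :
    |VlF (q ^ 2) (MMF q) (dg q) F bet D (NNF q) W| ≤
      (NNF q : ℤ) * MMF q * (q : ℤ) ^ 2 * (k * (mu q + kap q)) := by
  unfold VlF
  refine (abs_sum_le_sum_abs _ _).trans ?_
  have h1 : ∀ τ ∈ range (NNF q), |vl (q ^ 2) (MMF q) F (dgt bet D (W τ))
      (yyF (dg q) bet D (stF (q ^ 2) (MMF q) (dg q) F bet D W τ) W τ)| ≤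
        (k : ℤ) * ((MMF q : ℤ) * Gm q) := by
    intro τ _
    unfold vl
    refine (abs_sum_le_sum_abs _ _).trans ?_
    refine (sum_le_card_nsmul univ _ ((MMF q : ℤ) * Gm q) fun v _ => ?_).trans (le_of_eq ?_)
    · rw [abs_mul]
      refine mul_le_mul ?_ (SubBisE.abs_gr_le hk v _ _) (abs_nonneg _) (Int.natCast_nonneg _)
      rw [abs_of_nonneg (SubBisE.ParEAux.cl_nonneg _ _ _)]
      exact SubBisE.ParEAux.cl_le _ _ _
    · rw [card_univ, Fintype.card_fin, nsmul_eq_mul]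
  refine (sum_le_card_nsmul _ _ _ h1).trans (le_of_eq ?_)
  rw [card_range, nsmul_eq_mul]
  unfold Gm
  push_cast
  ring

end Pool.Agent.Lib.SubBisF
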