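import Pool.Agent.Lib.SubBisF.ParF
import Pool.Agent.Lib.SubBisF.Mid

/-!
The quality as a function of the size `x` of the input: the costs are polynomial in `x`, and
`1 / q ^ 2` is at most `C (log log x) ^ 4 / (log x) ^ 2`.
-/

set_option autoImplicit false

namespace Pool.Agent.Lib.SubBisF

open Finset Pool.Agent.Lib.SubBisX Pool.Agent.Lib.SubBisB Pool.Agent.Lib.SubBisC
open Pool.Agent.Lib.SubBisE (mu kap dg Gm size_mul_le)

/-- The quality. -/
def qF (x : ℕ) : ℕ := max 1 (x.size / (5264 * x.size.size ^ 2))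

theorem one_le_qF (x : ℕ) : 1 ≤ qF x := le_max_left _ _

theorem size_le_self (n : ℕ) : n.size ≤ n := by
  rw [Nat.size_le]
  exact Nat.lt_two_pow_self

/-- sizes of the parameters -/
theorem sizes {q s : ℕ} (hq : q.size ≤ s) (hs : 1 ≤ s) :
    mu q ≤ 7 * s ∧ lamF q ≤ 10 * s ∧ rhoF q ≤ 47 * s := by
  have h2 : (q ^ 2).size ≤ q.size + q.size := by
    rw [sq]
    exact size_mul_le q q
  have hk : kap q = (q ^ 2).size + 1 := rfl
  have hm : mu q = 2 * (q ^ 2).size + 3 := rfl
  have h3 : (q ^ 2 * kap q).size ≤ (q ^ 2).size + (kap q).size := size_mul_le _ _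
  have h4 : (kap q).size ≤ kap q := size_le_self _
  have h5 : (Gm q + 2 * q ^ 2).size ≤ (q ^ 2).size + (mu q + kap q + 2).size := by
    have e : Gm q + 2 * q ^ 2 = q ^ 2 * (mu q + kap q + 2) := by
      unfold Gm
      ring
    rw [e]
    exact size_mul_le _ _
  have h6 : (mu q + kap q + 2).size ≤ mu q + kap q + 2 := size_le_self _
  refine ⟨by omega, ?_, ?_⟩
  · unfold lamF bF
    omega
  · unfold rhoF lamF bF
    omega

theorem dg_le {q s : ℕ} (hq : q.size ≤ s) (hs : 1 ≤ s) : dg q ≤ 112 * (q * s) := by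
  have h1 := (sizes hq hs).1
  unfold dg
  calc 16 * q * mu q ≤ 16 * q * (7 * s) := Nat.mul_le_mul_left _ h1
    _ = 112 * (q * s) := by ring

theorem costF {x : ℕ} (h : qF x ≠ 1) :
    5264 * (qF x * x.size.size ^ 2) ≤ x.size ∧ (qF x).size ≤ x.size.size ∧
      1 ≤ x.size.size := by
  have h1 : qF x = x.size / (5264 * x.size.size ^ 2) := by
    unfold qF at h ⊢
    omega
  have h0 : 0 < x.size.size := by
    rcases Nat.eq_zero_or_pos x.size.size with h2 | h2
    · exfalso
      apply h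
      unfold qF
      rw [h2]
      simp
    · exact h2
  have h2 : qF x * (5264 * x.size.size ^ 2) ≤ x.size := by
    rw [← Nat.le_div_iff_mul_le (by positivity)]
    exact h1.le
  refine ⟨by linarith, ?_, h0⟩
  refine Nat.size_le_size ?_
  have h3 : qF x * 1 ≤ qF x * (5264 * x.size.size ^ 2) :=
    Nat.mul_le_mul_left _ (by
      have : 0 < x.size.size ^ 2 := by positivity
      omega)
  omega

theorem ker_le (x : ℕ) :
    (2 ^ lamF (qF x) + 1) ^ dg (qF x) ≤ (2 ^ lamF 1 + 1) ^ dg 1 + 2 ^ x.size := by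
  rcases eq_or_ne (qF x) 1 with h | h
  · rw [h]
    exact Nat.le_add_right _ _
  · refine le_trans ?_ (Nat.le_add_left _ _)
    obtain ⟨h1, h2, h3⟩ := costF h
    have h4 := (sizes h2 h3).2.1
    have h5 := dg_le h2 h3
    have h6 : 2 ^ lamF (qF x) + 1 ≤ 2 ^ (lamF (qF x) + 1) := by
      rw [pow_succ]
      have := Nat.one_le_two_pow (n := lamF (qF x))
      omega
    refine (Nat.pow_le_pow_left h6 _).trans ?_
    rw [← pow_mul]
    refine Nat.pow_le_pow_right (by norm_num) (le_trans ?_ h1)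
    calc (lamF (qF x) + 1) * dg (qF x) ≤
          (11 * x.size.size) * (112 * (qF x * x.size.size)) :=
          Nat.mul_le_mul (by omega) h5
      _ = 1232 * (qF x * x.size.size ^ 2) := by ring
      _ ≤ 5264 * (qF x * x.size.size ^ 2) := Nat.mul_le_mul_right _ (by norm_num)

theorem pool_le (x : ℕ) :
    (2 ^ rhoF (qF x)) ^ dg (qF x) ≤ (2 ^ rhoF 1) ^ dg 1 + 2 ^ x.size := by
  rcases eq_or_ne (qF x) 1 with h | h
  · rw [h]
    exact Nat.le_add_right _ _
  · refine le_trans ?_ (Nat.le_add_left _ _)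
    obtain ⟨h1, h2, h3⟩ := costF h
    have h4 := (sizes h2 h3).2.2
    have h5 := dg_le h2 h3
    rw [← pow_mul]
    refine Nat.pow_le_pow_right (by norm_num) (le_trans ?_ h1)
    calc rhoF (qF x) * dg (qF x) ≤ (47 * x.size.size) * (112 * (qF x * x.size.size)) :=
          Nat.mul_le_mul h4 h5
      _ = 5264 * (qF x * x.size.size ^ 2) := by ring

/-! ### The error -/

theorem lam_le_size {x : ℕ} (hx : 1 ≤ x) :
    Real.logb 2 ((x : ℝ) + 4) ≤ 3 * (x.size : ℝ) := by
  have h0 : 0 < x.size := Nat.size_pos.2 hx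
  have h1 : x + 4 ≤ 2 ^ (x.size + 2) := by
    have h2 := Nat.lt_size_self x
    have h3 : 2 ≤ 2 ^ x.size := by
      calc 2 = 2 ^ 1 := by norm_num
        _ ≤ 2 ^ x.size := Nat.pow_le_pow_right (by norm_num) h0
    rw [pow_add]
    omega
  have h2 : Real.logb 2 ((x : ℝ) + 4) ≤ ((x.size + 2 : ℕ) : ℝ) := by
    rw [Real.logb_le_iff_le_rpow one_lt_two (by positivity), Real.rpow_natCast]
    exact_mod_cast h1
  have h3 : (1 : ℝ) ≤ x.size := by exact_mod_cast h0
  push_cast at h2
  linarith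

theorem sizesize_le (x : ℕ) :
    (x.size.size : ℝ) ≤ 3 * Real.logb 2 (Real.logb 2 ((x : ℝ) + 4)) := by
  have hlam := Fin2.two_le_log x
  have hL := Fin2.one_le_loglog x
  set lam := Real.logb 2 ((x : ℝ) + 4) with hl
  rcases Nat.eq_zero_or_pos x.size with h0 | h0
  · rw [h0, Nat.size_zero]
    push_cast
    linarith
  · have h1 : 2 ^ (x.size.size - 1) ≤ x.size := by
      by_contra hcon
      have h3 : x.size.size ≤ x.size.size - 1 := Nat.size_le.2 (by omega)
      have h4 : 0 < x.size.size := Nat.size_pos.2 h0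
      omega
    have h2 : ((2 : ℝ) ^ (x.size.size - 1)) ≤ 2 * lam := by
      have : ((2 : ℝ) ^ (x.size.size - 1)) ≤ (x.size : ℝ) := by exact_mod_cast h1
      exact this.trans (size_le_lam x)
    have h3 : ((x.size.size - 1 : ℕ) : ℝ) ≤ Real.logb 2 (2 * lam) := by
      rw [Real.le_logb_iff_rpow_le one_lt_two (by linarith), Real.rpow_natCast]
      exact h2
    have h4 : Real.logb 2 (2 * lam) = 1 + Real.logb 2 lam := by
      rw [Real.logb_mul (by norm_num) (by linarith), Real.logb_self_eq_one one_lt_two]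
    have h5 : (x.size.size : ℝ) ≤ ((x.size.size - 1 : ℕ) : ℝ) + 1 := by
      have : x.size.size ≤ (x.size.size - 1) + 1 := by omega
      exact_mod_cast this
    linarith

/-- **The quality is good.** -/
theorem inv_sq_le {x : ℕ} (hx : 1 ≤ x) : 1 / ((qF x : ℝ) ^ 2) ≤
    284256 ^ 2 * (Real.logb 2 (Real.logb 2 ((x : ℝ) + 4))) ^ 4 /
      (Real.logb 2 ((x : ℝ) + 4)) ^ 2 := by
  have hlam := Fin2.two_le_log x
  have hL := Fin2.one_le_loglog x
  have h1 := lam_le_size hx
  have h2 := sizesize_le x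
  set lam := Real.logb 2 ((x : ℝ) + 4) with hl
  set L := Real.logb 2 lam with hLd
  have hq1 : (1 : ℝ) ≤ qF x := by exact_mod_cast one_le_qF x
  have hss : (0 : ℝ) ≤ x.size.size := Nat.cast_nonneg _
  have h3 : (x.size : ℝ) ≤ 2 * qF x * (5264 * (x.size.size : ℝ) ^ 2) := by
    rcases Nat.eq_zero_or_pos x.size.size with h0 | h0
    · have h4 : x.size = 0 := by
        have h5 := Nat.lt_size_self x.size
        rw [h0] at h5
        omega
      rw [h4]
      push_cast
      positivity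
    · have hA : 0 < 5264 * x.size.size ^ 2 := by positivity
      have h4 : x.size < (x.size / (5264 * x.size.size ^ 2) + 1) * (5264 * x.size.size ^ 2) := by
        rw [mul_comm]
        exact Nat.lt_mul_div_succ _ hA
      have h5 : x.size / (5264 * x.size.size ^ 2) ≤ qF x := le_max_right _ _
      have h6 : x.size ≤ (qF x + 1) * (5264 * x.size.size ^ 2) :=
        h4.le.trans (Nat.mul_le_mul_right _ (by omega))
      have h7 : (x.size : ℝ) ≤ ((qF x : ℝ) + 1) * (5264 * (x.size.size : ℝ) ^ 2) := by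
        exact_mod_cast h6
      refine h7.trans (mul_le_mul_of_nonneg_right (by linarith) (by positivity))
  have h4 : (x.size.size : ℝ) ^ 2 ≤ 9 * L ^ 2 := by
    have h5 := pow_le_pow_left₀ hss h2 2
    calc (x.size.size : ℝ) ^ 2 ≤ (3 * L) ^ 2 := h5
      _ = 9 * L ^ 2 := by ring
  have h5 : lam ≤ 284256 * L ^ 2 * qF x := by
    have h6 : 2 * (qF x : ℝ) * (5264 * (x.size.size : ℝ) ^ 2) ≤
        2 * (qF x : ℝ) * (5264 * (9 * L ^ 2)) :=
      mul_le_mul_of_nonneg_left (mul_le_mul_of_nonneg_left h4 (by norm_num)) (by positivity)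
    nlinarith
  rw [div_le_div_iff₀ (by positivity) (by positivity)]
  have h6 := pow_le_pow_left₀ (by linarith) h5 2
  calc 1 * lam ^ 2 ≤ (284256 * L ^ 2 * qF x) ^ 2 := by linarith
    _ = 284256 ^ 2 * L ^ 4 * (qF x : ℝ) ^ 2 := by ring

end Pool.Agent.Lib.SubBisF
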