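import Pool.Agent.Lib.SubBisF.Defs

/-!
# SubBisF.Pool (1.5 h): the anti-noise on a pool

PROOF. `anG` is linear (copy of `SubBisE.anti_add`, `anti_smul`), so it commutes with finite averages. Induction on `n` (generalise `y`).
For fixed `D 0`, `D'`, `I'` let `ℓ f = anG ε n (fun I => f fun j => D' j (I j)) I'`, `t x = ℓ (y (cons x ·))`. Then
`av_i (anG ε (n+1) (y ∘ D) (cons i I'))² = (av_i t(D 0 i))² + λ (av_i t(D 0 i)² - (av_i t(D 0 i))²)`, `λ = (1+ε)² ≥ 1`; its average over `D 0` is
`≤ λ av_x t² - (λ - 1)(av_x t)² = av_x (av t + (1 + ε)(t x - av t))²` (Jensen: `(av t)² ≤ av_(D 0) (av_i t(D 0 i))²`), which is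
`av_x ℓ(mnG y + (1+ε)(y_x - mnG y))²`: apply the induction hypothesis to these functions (CENTRED form, helper98).
-/

set_option autoImplicit false

open scoped BigOperators

namespace Pool.Agent.Lib.SubBisF

open Finset SubBis Pool.Agent.Lib.SubBisX.Reg Pool.Agent.Lib.SubBisX.Core
open Pool.Agent.Lib.SubBisX
open Pool.Agent.Lib.SubBisE (agr ker cl gam vl xt Okd)
open Pool.Agent.Lib.SubBisB (wt2 ZF EG pv Rb Rp psi)

variable {n k m B R : ℕ}

theorem anG_fin (ε : ℝ) : ∀ (n : ℕ) (y : (Fin n → Fin m) → ℝ), anG ε n y = SubBisE.anti ε n y := by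
  intro n
  induction n with
  | zero => intro y; rfl
  | succ n ih =>
    intro y
    funext U
    show anG ε n (fun U' => mnG y U' +
      (1 + ε) * (y (Fin.cons (U 0) U' : Fin (n + 1) → Fin m) - mnG y U')) (fun i => U i.succ) = _
    rw [ih]
    rfl

theorem PL.anG_succ {Ω : Type} [Fintype Ω] {ε : ℝ} (y : (Fin (n + 1) → Ω) → ℝ) (u : Ω)
    (U : Fin n → Ω) : anG ε (n + 1) y (Fin.cons u U : Fin (n + 1) → Ω) =
      anG ε n (fun U' => mnG y U' +
        (1 + ε) * (y (Fin.cons u U' : Fin (n + 1) → Ω) - mnG y U')) U := by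
  show anG ε n (fun U' => mnG y U' +
      (1 + ε) * (y (Fin.cons ((Fin.cons u U : Fin (n + 1) → Ω) 0) U' : Fin (n + 1) → Ω) - mnG y U'))
    (fun i => (Fin.cons u U : Fin (n + 1) → Ω) i.succ) = _
  simp only [Fin.cons_zero, Fin.cons_succ]

theorem PL.mnG_add {Ω : Type} [Fintype Ω] (y z : (Fin (n + 1) → Ω) → ℝ) :
    mnG (fun U => y U + z U) = fun U => mnG y U + mnG z U := by
  funext U
  unfold mnG
  exact av_add _ _

theorem PL.mnG_smul {Ω : Type} [Fintype Ω] (c : ℝ) (y : (Fin (n + 1) → Ω) → ℝ) :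
    mnG (fun U => c * y U) = fun U => c * mnG y U := by
  funext U
  unfold mnG
  exact av_smul _ _

theorem anG_add {Ω : Type} [Fintype Ω] (ε : ℝ) : ∀ (n : ℕ) (y z : (Fin n → Ω) → ℝ),
    anG ε n (fun U => y U + z U) = fun U => anG ε n y U + anG ε n z U := by
  intro n
  induction n with
  | zero => intro y z; rfl
  | succ n ih =>
    intro y z
    funext U
    rw [← Fin.cons_self_tail U, PL.anG_succ, PL.anG_succ, PL.anG_succ, PL.mnG_add]
    have h : (fun U' : Fin n → Ω => mnG y U' + mnG z U' +
        (1 + ε) * (y (Fin.cons (U 0) U' : Fin (n + 1) → Ω) + z (Fin.cons (U 0) U' : Fin (n + 1) → Ω)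
          - (mnG y U' + mnG z U'))) =
        fun U' => (mnG y U' + (1 + ε) * (y (Fin.cons (U 0) U' : Fin (n + 1) → Ω) - mnG y U')) +
          (mnG z U' + (1 + ε) * (z (Fin.cons (U 0) U' : Fin (n + 1) → Ω) - mnG z U')) := by
      funext U'
      ring
    simp only [h]
    rw [ih]

theorem anG_smul {Ω : Type} [Fintype Ω] (ε : ℝ) : ∀ (n : ℕ) (c : ℝ) (y : (Fin n → Ω) → ℝ),
    anG ε n (fun U => c * y U) = fun U => c * anG ε n y U := by
  intro n
  induction n with
  | zero => intro c y; rfl
  | succ n ih =>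
    intro c y
    funext U
    rw [← Fin.cons_self_tail U, PL.anG_succ, PL.anG_succ, PL.mnG_smul]
    have h : (fun U' : Fin n → Ω => c * mnG y U' +
        (1 + ε) * (c * y (Fin.cons (U 0) U' : Fin (n + 1) → Ω) - c * mnG y U')) =
        fun U' => c * (mnG y U' +
          (1 + ε) * (y (Fin.cons (U 0) U' : Fin (n + 1) → Ω) - mnG y U')) := by
      funext U'
      ring
    simp only [h]
    rw [ih]

namespace PL

theorem av_consG {Ω : Type*} [Fintype Ω] (f : (Fin (n + 1) → Ω) → ℝ) :
    av f = av fun u : Ω => av fun U : Fin n → Ω =>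
      f (Fin.cons u U : Fin (n + 1) → Ω) := by
  rw [← av_equiv (Fin.consEquiv (fun _ : Fin (n + 1) => Ω)) f, av_prod]
  rfl

theorem anG_zero {Ω : Type} [Fintype Ω] {ε : ℝ} (n : ℕ) :
    anG (Ω := Ω) ε n (fun _ => 0) = fun _ => 0 := by
  have h := anG_smul (Ω := Ω) ε n 0 (fun _ => 0)
  simpa using h

theorem anG_sum {Ω : Type} [Fintype Ω] {ε : ℝ} {ι : Type*} (s : Finset ι)
    (y : ι → (Fin n → Ω) → ℝ) :
    anG ε n (fun U => ∑ i ∈ s, y i U) = fun U => ∑ i ∈ s, anG ε n (y i) U := by
  classical
  induction s using Finset.induction_on with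
  | empty => simp [anG_zero]
  | insert a s ha ih =>
    simp only [Finset.sum_insert ha]
    rw [anG_add, ih]

theorem anG_av {Ω : Type} [Fintype Ω] {ε : ℝ} {ι : Type*} [Fintype ι]
    (y : ι → (Fin n → Ω) → ℝ) :
    anG ε n (fun U => av fun i : ι => y i U) = fun U => av fun i : ι => anG ε n (y i) U := by
  have e : (fun U => av fun i : ι => y i U) =
      fun U => (1 / (Fintype.card ι : ℝ)) * ∑ i, y i U := by
    funext U
    unfold av
    ring
  rw [e, anG_smul, anG_sum]
  funext U
  unfold av
  ring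

/-- the variance with an inflated deviation -/
theorem av_infl {ι : Type*} [Fintype ι] [Nonempty ι] (ε : ℝ) (t : ι → ℝ) :
    (av fun i => (av t + (1 + ε) * (t i - av t)) ^ 2) =
      (1 + ε) ^ 2 * (av fun i => t i ^ 2) - ((1 + ε) ^ 2 - 1) * av t ^ 2 := by
  have e : (fun i => (av t + (1 + ε) * (t i - av t)) ^ 2) = fun i =>
      ((1 + ε) ^ 2 * t i ^ 2 + (2 * (1 + ε) * (-ε * av t)) * t i) + (ε * av t) ^ 2 := by
    funext i
    ring
  rw [e, av_add, av_add, av_smul, av_smul, av_const]
  ring

theorem sq_av_le {ι : Type*} [Fintype ι] [Nonempty ι] (t : ι → ℝ) :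
    av t ^ 2 ≤ av fun i => t i ^ 2 := by
  have h : 0 ≤ av fun i => (t i - av t) ^ 2 := av_nonneg fun i => sq_nonneg _
  have e : (fun i => (t i - av t) ^ 2) = fun i => (t i ^ 2 + (-2 * av t) * t i) + av t ^ 2 := by
    funext i
    ring
  rw [e, av_add, av_add, av_smul, av_const] at h
  nlinarith

/-- one coordinate of the pool -/
theorem pool_one {Ω : Type} [Fintype Ω] [Nonempty Ω] [NeZero R] {ε : ℝ} (h0 : 0 ≤ ε) (t : Ω → ℝ) :
    (av fun D0 : Fin R → Ω => av fun i : Fin R =>
      ((av fun i' : Fin R => t (D0 i')) +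
        (1 + ε) * (t (D0 i) - av fun i' : Fin R => t (D0 i'))) ^ 2) ≤
      av fun x : Ω => (av t + (1 + ε) * (t x - av t)) ^ 2 := by
  have h1 : ∀ D0 : Fin R → Ω, (av fun i : Fin R => ((av fun i' : Fin R => t (D0 i')) +
        (1 + ε) * (t (D0 i) - av fun i' : Fin R => t (D0 i'))) ^ 2) =
      (1 + ε) ^ 2 * (av fun i : Fin R => t (D0 i) ^ 2) +
        (-((1 + ε) ^ 2 - 1)) * (av fun i' : Fin R => t (D0 i')) ^ 2 := by
    intro D0
    rw [av_infl ε fun i : Fin R => t (D0 i)]
    ring
  simp only [h1]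
  rw [av_add, av_smul, av_smul, av_infl]
  have hc : ∀ f : Ω → ℝ, (av fun D0 : Fin R → Ω => av fun i : Fin R => f (D0 i)) = av f := by
    intro f
    rw [av_comm]
    have : (fun i : Fin R => av fun D0 : Fin R → Ω => f (D0 i)) = fun _ => av f := by
      funext i
      exact av_coord i f
    rw [this, av_const]
  rw [hc fun x => t x ^ 2]
  have h2 : av t ^ 2 ≤ av fun D0 : Fin R → Ω => (av fun i' : Fin R => t (D0 i')) ^ 2 := by
    have h3 := sq_av_le fun D0 : Fin R → Ω => av fun i' : Fin R => t (D0 i')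
    rwa [hc t] at h3
  have h4 : 0 ≤ (1 + ε) ^ 2 - 1 := by nlinarith
  nlinarith [mul_le_mul_of_nonneg_left h2 h4]

end PL

open PL

/-- **(POOL)** -/
theorem anG_pool {Ω : Type} [Fintype Ω] [Nonempty Ω] [NeZero R] {ε : ℝ} (h0 : 0 ≤ ε) :
    ∀ (n : ℕ) (y : (Fin n → Ω) → ℝ),
      (av fun D : Fin n → Fin R → Ω => av fun I : Fin n → Fin R =>
        anG ε n (fun I' : Fin n → Fin R => y fun j => D j (I' j)) I ^ 2) ≤
      av fun X : Fin n → Ω => anG ε n y X ^ 2 := by
  intro n
  induction n with
  | zero =>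
    intro y
    have e1 : (fun D : Fin 0 → Fin R → Ω => av fun I : Fin 0 → Fin R =>
        anG ε 0 (fun I' : Fin 0 → Fin R => y fun j => D j (I' j)) I ^ 2) =
        fun _ => y (fun j => j.elim0) ^ 2 := by
      funext D
      have e2 : (fun I : Fin 0 → Fin R =>
          anG ε 0 (fun I' : Fin 0 → Fin R => y fun j => D j (I' j)) I ^ 2) =
          fun _ => y (fun j => j.elim0) ^ 2 := by
        funext I
        show (y fun j => D j (I j)) ^ 2 = _
        congr 2
        funext j
        exact j.elim0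
      rw [e2, av_const]
    have e3 : (fun X : Fin 0 → Ω => anG ε 0 y X ^ 2) = fun _ => y (fun j => j.elim0) ^ 2 := by
      funext X
      show y X ^ 2 = _
      congr 2
      funext j
      exact j.elim0
    rw [e1, e3, av_const, av_const]
  | succ n ih =>
    intro y
    -- the functions to which the induction hypothesis is applied
    set z : Ω → (Fin n → Ω) → ℝ := fun x U' => mnG y U' +
      (1 + ε) * (y (Fin.cons x U' : Fin (n + 1) → Ω) - mnG y U') with hz
    set t : (Fin n → Fin R → Ω) → (Fin n → Fin R) → Ω → ℝ := fun D' I' x =>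
      anG ε n (fun I'' : Fin n → Fin R =>
        y (Fin.cons x (fun j => D' j (I'' j)) : Fin (n + 1) → Ω)) I' with ht
    have hcons : ∀ (D0 : Fin R → Ω) (D' : Fin n → Fin R → Ω) (i : Fin R) (I'' : Fin n → Fin R),
        (fun j : Fin (n + 1) => (Fin.cons D0 D' : Fin (n + 1) → Fin R → Ω) j
          ((Fin.cons i I'' : Fin (n + 1) → Fin R) j)) =
          (Fin.cons (D0 i) (fun j => D' j (I'' j)) : Fin (n + 1) → Ω) := by
      intro D0 D' i I''
      funext j
      refine Fin.cases ?_ (fun j => ?_) j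
      · rfl
      · rfl
    -- the left side
    have hL : ∀ (D0 : Fin R → Ω) (D' : Fin n → Fin R → Ω) (i : Fin R) (I' : Fin n → Fin R),
        anG ε (n + 1) (fun I'' : Fin (n + 1) → Fin R => y fun j =>
          (Fin.cons D0 D' : Fin (n + 1) → Fin R → Ω) j (I'' j))
          (Fin.cons i I' : Fin (n + 1) → Fin R) =
        (av fun i' : Fin R => t D' I' (D0 i')) +
          (1 + ε) * (t D' I' (D0 i) - av fun i' : Fin R => t D' I' (D0 i')) := by
      intro D0 D' i I'
      rw [PL.anG_succ]
      have e1 : (fun I'' : Fin n → Fin R => mnG (fun I'' : Fin (n + 1) → Fin R => y fun j =>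
          (Fin.cons D0 D' : Fin (n + 1) → Fin R → Ω) j (I'' j)) I'' +
            (1 + ε) * ((y fun j => (Fin.cons D0 D' : Fin (n + 1) → Fin R → Ω) j
              ((Fin.cons i I'' : Fin (n + 1) → Fin R) j)) -
            mnG (fun I'' : Fin (n + 1) → Fin R => y fun j =>
              (Fin.cons D0 D' : Fin (n + 1) → Fin R → Ω) j (I'' j)) I'')) =
          fun I'' => (-ε) * (av fun i' : Fin R =>
              y (Fin.cons (D0 i') (fun j => D' j (I'' j)) : Fin (n + 1) → Ω)) +
            (1 + ε) * y (Fin.cons (D0 i) (fun j => D' j (I'' j)) : Fin (n + 1) → Ω) := by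
        funext I''
        unfold mnG
        simp only [hcons]
        ring
      rw [e1, anG_add, anG_smul, anG_smul, anG_av fun (i' : Fin R) (I'' : Fin n → Fin R) =>
        y (Fin.cons (D0 i') (fun j => D' j (I'' j)) : Fin (n + 1) → Ω)]
      show (-ε) * (av fun i' : Fin R => t D' I' (D0 i')) + (1 + ε) * t D' I' (D0 i) = _
      ring
    have hR : ∀ (D' : Fin n → Fin R → Ω) (I' : Fin n → Fin R) (x : Ω),
        av (t D' I') + (1 + ε) * (t D' I' x - av (t D' I')) =
          anG ε n (fun I'' : Fin n → Fin R => z x fun j => D' j (I'' j)) I' := by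
      intro D' I' x
      have e1 : (fun I'' : Fin n → Fin R => z x fun j => D' j (I'' j)) =
          fun I'' => (-ε) * (av fun x' : Ω =>
              y (Fin.cons x' (fun j => D' j (I'' j)) : Fin (n + 1) → Ω)) +
            (1 + ε) * y (Fin.cons x (fun j => D' j (I'' j)) : Fin (n + 1) → Ω) := by
        funext I''
        rw [hz]
        unfold mnG
        ring
      rw [e1, anG_add, anG_smul, anG_smul, anG_av fun (x' : Ω) (I'' : Fin n → Fin R) =>
        y (Fin.cons x' (fun j => D' j (I'' j)) : Fin (n + 1) → Ω)]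
      show _ = (-ε) * (av fun x' : Ω => t D' I' x') + (1 + ε) * t D' I' x
      have e2 : (av fun x' : Ω => t D' I' x') = av (t D' I') := rfl
      rw [e2]
      ring
    calc (av fun D : Fin (n + 1) → Fin R → Ω => av fun I : Fin (n + 1) → Fin R =>
          anG ε (n + 1) (fun I' : Fin (n + 1) → Fin R => y fun j => D j (I' j)) I ^ 2)
        = av fun D0 : Fin R → Ω => av fun D' : Fin n → Fin R → Ω => av fun i : Fin R =>
            av fun I' : Fin n → Fin R => ((av fun i' : Fin R => t D' I' (D0 i')) +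
              (1 + ε) * (t D' I' (D0 i) - av fun i' : Fin R => t D' I' (D0 i'))) ^ 2 := by
          rw [av_consG]
          refine congrArg av (funext fun D0 => congrArg av (funext fun D' => ?_))
          rw [av_consG]
          refine congrArg av (funext fun i => congrArg av (funext fun I' => ?_))
          rw [hL]
      _ = av fun D' : Fin n → Fin R → Ω => av fun I' : Fin n → Fin R =>
            av fun D0 : Fin R → Ω => av fun i : Fin R =>
              ((av fun i' : Fin R => t D' I' (D0 i')) +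
              (1 + ε) * (t D' I' (D0 i) - av fun i' : Fin R => t D' I' (D0 i'))) ^ 2 := by
          rw [av_comm]
          refine congrArg av (funext fun D' => ?_)
          rw [av_comm fun (I' : Fin n → Fin R) (D0 : Fin R → Ω) => av fun i : Fin R =>
              ((av fun i' : Fin R => t D' I' (D0 i')) +
              (1 + ε) * (t D' I' (D0 i) - av fun i' : Fin R => t D' I' (D0 i'))) ^ 2]
          refine congrArg av (funext fun D0 => ?_)
          rw [av_comm]
      _ ≤ av fun D' : Fin n → Fin R → Ω => av fun I' : Fin n → Fin R =>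
            av fun x : Ω => anG ε n (fun I'' : Fin n → Fin R => z x fun j => D' j (I'' j)) I' ^ 2 := by
          refine av_mono fun D' => av_mono fun I' => ?_
          refine (pool_one h0 (t D' I')).trans (le_of_eq ?_)
          refine congrArg av (funext fun x => ?_)
          rw [hR]
      _ = av fun x : Ω => av fun D' : Fin n → Fin R → Ω => av fun I' : Fin n → Fin R =>
            anG ε n (fun I'' : Fin n → Fin R => z x fun j => D' j (I'' j)) I' ^ 2 := by
          refine Eq.trans (congrArg av (funext fun D' => av_comm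
            fun (I' : Fin n → Fin R) (x : Ω) =>
              anG ε n (fun I'' : Fin n → Fin R => z x fun j => D' j (I'' j)) I' ^ 2)) ?_
          exact av_comm fun (D' : Fin n → Fin R → Ω) (x : Ω) => av fun I' : Fin n → Fin R =>
            anG ε n (fun I'' : Fin n → Fin R => z x fun j => D' j (I'' j)) I' ^ 2
      _ ≤ av fun x : Ω => av fun X : Fin n → Ω => anG ε n (z x) X ^ 2 :=
          av_mono fun x => ih (z x)
      _ = av fun X : Fin (n + 1) → Ω => anG ε (n + 1) y X ^ 2 := by
          rw [av_consG fun X : Fin (n + 1) → Ω => anG ε (n + 1) y X ^ 2]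
          refine congrArg av (funext fun x => congrArg av (funext fun X => ?_))
          rw [PL.anG_succ]

end Pool.Agent.Lib.SubBisF
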