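import Pool.Agent.Lib.SubBisF.Seg

/-!
# SubBisF.Run (1.5 h): the process along a segment

PROOF. All by induction on the list `l` along `Seg` (generalise `R1`, `z`); `z ⊆ R1` is kept for `insert v z ⊆ insert v R1` and
`z ⊆ insert v R1`.
-/

set_option autoImplicit false

open scoped BigOperators

namespace Pool.Agent.Lib.SubBisF

open Finset SubBis Pool.Agent.Lib.SubBisX.Reg Pool.Agent.Lib.SubBisX.Core
open Pool.Agent.Lib.SubBisX
open Pool.Agent.Lib.SubBisE (agr ker cl gam vl xt Okd)
open Pool.Agent.Lib.SubBisB (wt2 ZF EG pv Rb Rp psi)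

variable {n k m B R : ℕ}

section

variable {φ : Fin k → Finset (Fin k) → Fin m → ℝ}

theorem run_add (l : List (Fin k)) (r r' : Finset (Fin k) → ℝ) (z : Finset (Fin k))
    (U : Fin k → Fin m) : run φ l (fun S => r S + r' S) z U = run φ l r z U + run φ l r' z U := by
  induction l generalizing z with
  | nil => rfl
  | cons v l ih =>
    simp only [run]
    rw [ih, ih]
    ring

theorem run_smul (c : ℝ) (l : List (Fin k)) (r : Finset (Fin k) → ℝ) (z : Finset (Fin k))
    (U : Fin k → Fin m) : run φ l (fun S => c * r S) z U = c * run φ l r z U := by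
  induction l generalizing z with
  | nil => rfl
  | cons v l ih =>
    simp only [run]
    rw [ih, ih]
    ring

theorem run_const (c : ℝ) (l : List (Fin k)) (z : Finset (Fin k)) (U : Fin k → Fin m) :
    run φ l (fun _ => c) z U = c := by
  induction l generalizing z with
  | nil => rfl
  | cons v l ih =>
    simp only [run]
    rw [ih, ih]
    ring

theorem run_sub (l : List (Fin k)) (r r' : Finset (Fin k) → ℝ) (z : Finset (Fin k))
    (U : Fin k → Fin m) : run φ l (fun S => r S - r' S) z U = run φ l r z U - run φ l r' z U := by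
  induction l generalizing z with
  | nil => rfl
  | cons v l ih =>
    simp only [run]
    rw [ih, ih]
    ring

theorem run_sum {ι : Type*} (s : Finset ι) (l : List (Fin k)) (r : ι → Finset (Fin k) → ℝ)
    (z : Finset (Fin k)) (U : Fin k → Fin m) :
    run φ l (fun S => ∑ i ∈ s, r i S) z U = ∑ i ∈ s, run φ l (r i) z U := by
  induction l generalizing z with
  | nil => rfl
  | cons v l ih =>
    simp only [run]
    rw [ih, ih, mul_sum, mul_sum, ← sum_add_distrib]

theorem run_mono (hφ : ∀ v z u, 0 ≤ φ v z u ∧ φ v z u ≤ 1) (l : List (Fin k))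
    {r r' : Finset (Fin k) → ℝ} (h : ∀ S, r S ≤ r' S) (z : Finset (Fin k)) (U : Fin k → Fin m) :
    run φ l r z U ≤ run φ l r' z U := by
  induction l generalizing z with
  | nil => exact h z
  | cons v l ih =>
    simp only [run]
    exact add_le_add (mul_le_mul_of_nonneg_left (ih _) (hφ v z (U v)).1)
      (mul_le_mul_of_nonneg_left (ih _) (sub_nonneg.2 (hφ v z (U v)).2))

theorem run_append (l l' : List (Fin k)) (r : Finset (Fin k) → ℝ) (z : Finset (Fin k))
    (U : Fin k → Fin m) :
    run φ (l ++ l') r z U = run φ l (fun z' => run φ l' r z' U) z U := by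
  induction l generalizing z with
  | nil => rfl
  | cons v l ih =>
    rw [List.cons_append]
    simp only [run]
    rw [ih, ih]

/-- only the digits of the sites in the list matter -/
theorem run_congr_dig (l : List (Fin k)) (r : Finset (Fin k) → ℝ) (z : Finset (Fin k))
    {U U' : Fin k → Fin m} (h : ∀ v ∈ l, U v = U' v) : run φ l r z U = run φ l r z U' := by
  induction l generalizing z with
  | nil => rfl
  | cons v l ih =>
    have h1 : ∀ w ∈ l, U w = U' w := fun w hw => h w (List.mem_cons_of_mem v hw)
    simp only [run]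
    rw [ih _ h1, ih _ h1, h v List.mem_cons_self]

/-- a function that is constant on the sets with the same past -/
theorem Seg.run_eq {bet : Fin k → Fin B} {R1 R2 : Finset (Fin k)} {l : List (Fin k)}
    (hs : Seg bet R1 l R2) {r : Finset (Fin k) → ℝ} {z : Finset (Fin k)} {c : ℝ}
    (h : ∀ S, S ∩ R1 = z ∩ R1 → r S = c) (U : Fin k → Fin m) : run φ l r z U = c := by
  induction l generalizing R1 z with
  | nil => exact h z rfl
  | cons v l ih =>
    have hv : v ∉ R1 := hs.2.1
    have e : ∀ S : Finset (Fin k), (S ∩ insert v R1) ∩ R1 = S ∩ R1 := fun S => by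
      rw [inter_assoc, inter_eq_right.2 (subset_insert v R1)]
    have h1 : run φ l r (insert v z) U = c := ih hs.2.2 fun S hS => h S (by
      rw [← e S, hS, e, insert_inter_of_notMem hv])
    have h2 : run φ l r z U = c := ih hs.2.2 fun S hS => h S (by rw [← e S, hS, e])
    simp only [run]
    rw [h1, h2]
    ring

/-- functions that agree on all sets inside `R2` with the same past -/
theorem Seg.run_congr {bet : Fin k → Fin B} {R1 R2 : Finset (Fin k)} {l : List (Fin k)}
    (hs : Seg bet R1 l R2) {r r' : Finset (Fin k) → ℝ} {z : Finset (Fin k)} (hz : z ⊆ R1)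
    (h : ∀ S, S ⊆ R2 → S ∩ R1 = z → r S = r' S) (U : Fin k → Fin m) :
    run φ l r z U = run φ l r' z U := by
  induction l generalizing R1 z with
  | nil =>
    have e : R1 = R2 := hs
    exact h z (e ▸ hz) (inter_eq_left.2 hz)
  | cons v l ih =>
    have hv : v ∉ R1 := hs.2.1
    have e : ∀ S : Finset (Fin k), (S ∩ insert v R1) ∩ R1 = S ∩ R1 := fun S => by
      rw [inter_assoc, inter_eq_right.2 (subset_insert v R1)]
    have h1 : run φ l r (insert v z) U = run φ l r' (insert v z) U :=
      ih hs.2.2 (insert_subset_insert v hz) fun S hS hS' => h S hS (by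
        rw [← e S, hS', insert_inter_of_notMem hv, inter_eq_left.2 hz])
    have h2 : run φ l r z U = run φ l r' z U :=
      ih hs.2.2 (hz.trans (subset_insert v R1)) fun S hS hS' => h S hS (by
        rw [← e S, hS', inter_eq_left.2 hz])
    simp only [run]
    rw [h1, h2]

namespace RunAux

theorem dep_aux {bet : Fin k → Fin B} {j : ℕ} {r : Finset (Fin k) → ℝ}
    (hr : SubBisB.Dep (Rj bet j) r) {U U' : Fin k → Fin m} (h : ∀ w, (bet w : ℕ) < j → U w = U' w)
    {R2 : Finset (Fin k)} (l : List (Fin k)) : ∀ (R1 z : Finset (Fin k)), Seg bet R1 l R2 →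
      run φ l r z U = run φ l r z U' := by
  induction l with
  | nil => intro _ _ _; rfl
  | cons v l ih =>
    intro R1 z hs
    by_cases hv : (bet v : ℕ) < j
    · simp only [run]
      rw [ih _ _ hs.2.2, ih _ _ hs.2.2, h v hv]
    · have h1 : Rj bet j ⊆ R1 := by
        intro x hx
        rw [hs.1]
        refine mem_filter.2 ⟨mem_univ _, Or.inl ?_⟩
        have h2 : (bet x : ℕ) < j := (mem_filter.1 hx).2
        exact Fin.lt_def.2 (lt_of_lt_of_le h2 (not_lt.1 hv))
      have h2 : ∀ S, S ∩ R1 = z ∩ R1 → r S = r z := by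
        intro S hS
        refine hr S z ?_
        rw [← inter_eq_right.2 h1, ← inter_assoc, hS, inter_assoc]
      rw [Seg.run_eq hs h2 U, Seg.run_eq hs h2 U']

end RunAux

/-- a function of the part of the set in the earlier blocks depends on the digits of these blocks
only -/
theorem run_dep {bet : Fin k → Fin B} {j : ℕ} {r : Finset (Fin k) → ℝ}
    (hr : SubBisB.Dep (Rj bet j) r) {U U' : Fin k → Fin m} (h : ∀ w, (bet w : ℕ) < j → U w = U' w) :
    run φ (LL bet) r ∅ U = run φ (LL bet) r ∅ U' :=
  RunAux.dep_aux hr h _ _ _ (seg_LL bet)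

end

end Pool.Agent.Lib.SubBisF
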