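import Pool.Agent.Lib.SubBisF.Defs

/-!
# SubBisF.Seg (1 h): the lists of the sites

PROOF. `Seg_append`: induction on `l`. `seg_Lj`: generic lemma: if `l` is `Pairwise` increasing, all its members have label `j`,
`R` = the sites with label `< j` plus the sites with label `j` not in `l` and below all members of `l` ... i.e. by induction on the suffixes
of `List.finRange k` filtered; or: `l` with `List.Pairwise (fun x y => x ∈ Rp bet y) l`, `∀ x, x ∈ R' ↔ x ∈ R ∨ x ∈ l`, `∀ x ∈ R, x ∉ l`,
`∀ x ∈ R, ∀ y ∈ l, x ∈ Rp bet y` and `∀ y ∈ l, Rp bet y ⊆ R'` implies `Seg bet R l R'` (induction on `l`, `Rp` is asymmetric).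
-/

set_option autoImplicit false

open scoped BigOperators

namespace Pool.Agent.Lib.SubBisF

open Finset SubBis Pool.Agent.Lib.SubBisX.Reg Pool.Agent.Lib.SubBisX.Core
open Pool.Agent.Lib.SubBisX
open Pool.Agent.Lib.SubBisE (agr ker cl gam vl xt Okd)
open Pool.Agent.Lib.SubBisB (wt2 ZF EG pv Rb Rp psi)

variable {n k m B R : ℕ}

theorem not_mem_Rp (bet : Fin k → Fin B) (v : Fin k) : v ∉ Rp bet v := by
  intro h
  rcases (mem_filter.1 h).2 with h1 | h1
  · exact lt_irrefl _ h1
  · exact lt_irrefl _ h1.2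

theorem Seg.append {bet : Fin k → Fin B} {R1 R2 R3 : Finset (Fin k)} {l l' : List (Fin k)}
    (h : Seg bet R1 l R2) (h' : Seg bet R2 l' R3) : Seg bet R1 (l ++ l') R3 := by
  induction l generalizing R1 with
  | nil =>
    have e : R1 = R2 := h
    subst e
    exact h'
  | cons v l ih => exact ⟨h.1, h.2.1, ih h.2.2⟩

theorem Seg.sub {bet : Fin k → Fin B} {R1 R2 : Finset (Fin k)} {l : List (Fin k)}
    (h : Seg bet R1 l R2) : R1 ⊆ R2 := by
  induction l generalizing R1 with
  | nil =>
    have e : R1 = R2 := h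
    subst e
    exact Subset.refl _
  | cons v l ih => exact (subset_insert v R1).trans (ih h.2.2)

/-- the members -/
theorem Seg.mem_iff {bet : Fin k → Fin B} {R1 R2 : Finset (Fin k)} {l : List (Fin k)}
    (h : Seg bet R1 l R2) (v : Fin k) : v ∈ l ↔ v ∈ R2 ∧ v ∉ R1 := by
  induction l generalizing R1 with
  | nil =>
    have e : R1 = R2 := h
    subst e
    simp
  | cons w l ih =>
    have h1 := ih h.2.2
    have h2 : w ∈ R2 := h.2.2.sub (mem_insert_self w R1)
    rw [List.mem_cons, h1, mem_insert]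
    constructor
    · rintro (rfl | ⟨h3, h4⟩)
      · exact ⟨h2, h.2.1⟩
      · exact ⟨h3, fun h5 => h4 (Or.inr h5)⟩
    · rintro ⟨h3, h4⟩
      by_cases h5 : v = w
      · exact Or.inl h5
      · exact Or.inr ⟨h3, fun h6 => h6.elim h5 h4⟩

theorem Seg.nodup {bet : Fin k → Fin B} {R1 R2 : Finset (Fin k)} {l : List (Fin k)}
    (h : Seg bet R1 l R2) : l.Nodup := by
  induction l generalizing R1 with
  | nil => exact List.nodup_nil
  | cons w l ih =>
    refine List.nodup_cons.2 ⟨fun hw => ?_, ih h.2.2⟩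
    exact ((h.2.2.mem_iff w).1 hw).2 (mem_insert_self w R1)

theorem Rb_eq (bet : Fin k → Fin B) (v : Fin k) : Rb bet v = Rj bet (bet v) := rfl

theorem mem_Lj {bet : Fin k → Fin B} {j : Fin B} {v : Fin k} : v ∈ Lj bet j ↔ bet v = j := by
  unfold Lj
  rw [List.mem_filter]
  simp

namespace SegAux

theorem asymm {bet : Fin k → Fin B} {x v : Fin k} (h : x ∈ Rp bet v) (h' : v ∈ Rp bet x) :
    False := by
  rcases (mem_filter.1 h).2 with h1 | h1 <;> rcases (mem_filter.1 h').2 with h2 | h2
  · exact lt_asymm h1 h2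
  · exact absurd h1 (by rw [h2.1]; exact lt_irrefl _)
  · exact absurd h2 (by rw [h1.1]; exact lt_irrefl _)
  · exact lt_asymm h1.2 h2.2

theorem seg_of {bet : Fin k → Fin B} {R' : Finset (Fin k)} (l : List (Fin k)) :
    ∀ R : Finset (Fin k), l.Pairwise (fun x y => x ∈ Rp bet y) →
      (∀ x, x ∈ R' ↔ x ∈ R ∨ x ∈ l) → (∀ x ∈ R, ∀ y ∈ l, x ∈ Rp bet y) →
      (∀ y ∈ l, Rp bet y ⊆ R') → Seg bet R l R' := by
  induction l with
  | nil =>
    intro R _ h1 _ _
    show R = R'
    ext x
    rw [h1 x]
    simp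
  | cons v l ih =>
    intro R hp h1 h2 h3
    rw [List.pairwise_cons] at hp
    have hR : R = Rp bet v := by
      ext x
      constructor
      · intro hx
        exact h2 x hx v List.mem_cons_self
      · intro hx
        rcases (h1 x).1 (h3 v List.mem_cons_self hx) with h4 | h4
        · exact h4
        · rcases List.mem_cons.1 h4 with h5 | h5
          · subst h5
            exact absurd hx (not_mem_Rp bet x)
          · exact (asymm hx (hp.1 x h5)).elim
    refine ⟨hR, ?_, ih (insert v R) hp.2 ?_ ?_ ?_⟩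
    · rw [hR]
      exact not_mem_Rp bet v
    · intro x
      rw [h1 x, mem_insert, List.mem_cons]
      tauto
    · intro x hx y hy
      rcases mem_insert.1 hx with h4 | h4
      · subst h4
        exact hp.1 y hy
      · exact h2 x h4 y (List.mem_cons_of_mem v hy)
    · exact fun y hy => h3 y (List.mem_cons_of_mem v hy)

theorem pairwise_Lj (bet : Fin k → Fin B) (j : Fin B) :
    (Lj bet j).Pairwise (fun x y => x ∈ Rp bet y) := by
  have h1 : (Lj bet j).Pairwise (fun x y => x < y) := by
    unfold Lj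
    exact (List.pairwise_lt_finRange k).filter _
  refine List.Pairwise.imp_of_mem ?_ h1
  intro x y hx hy hxy
  rw [mem_Lj] at hx hy
  exact mem_filter.2 ⟨mem_univ _, Or.inr ⟨hx.trans hy.symm, hxy⟩⟩

end SegAux

open SegAux

/-- one block is a segment -/
theorem seg_Lj (bet : Fin k → Fin B) (j : Fin B) :
    Seg bet (Rj bet j) (Lj bet j) (Rj bet ((j : ℕ) + 1)) := by
  refine seg_of _ _ (pairwise_Lj bet j) ?_ ?_ ?_
  · intro x
    unfold Rj
    simp only [mem_filter, mem_univ, true_and, mem_Lj]
    rw [Nat.lt_succ_iff_lt_or_eq, Fin.ext_iff]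
  · intro x hx y hy
    rw [mem_Lj] at hy
    have hx' := (mem_filter.1 hx).2
    refine mem_filter.2 ⟨mem_univ _, Or.inl ?_⟩
    rw [hy]
    exact hx'
  · intro y hy x hx
    rw [mem_Lj] at hy
    refine mem_filter.2 ⟨mem_univ _, ?_⟩
    rcases (mem_filter.1 hx).2 with h1 | h1
    · rw [hy] at h1
      exact Nat.lt_succ_of_lt h1
    · rw [h1.1, hy]
      exact Nat.lt_succ_self _

/-- the whole list is a segment -/
theorem seg_LL (bet : Fin k → Fin B) : Seg bet ∅ (LL bet) univ := by
  refine seg_of _ _ ?_ ?_ ?_ ?_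
  · unfold LL
    rw [List.pairwise_flatMap]
    refine ⟨fun j _ => pairwise_Lj bet j, ?_⟩
    refine List.Pairwise.imp ?_ (List.pairwise_lt_finRange B)
    intro i j hij x hx y hy
    rw [mem_Lj] at hx hy
    refine mem_filter.2 ⟨mem_univ _, Or.inl ?_⟩
    rw [hx, hy]
    exact hij
  · intro x
    refine ⟨fun _ => Or.inr ?_, fun _ => mem_univ x⟩
    unfold LL
    rw [List.mem_flatMap]
    exact ⟨bet x, List.mem_finRange _, mem_Lj.2 rfl⟩
  · intro x hx
    exact absurd hx (notMem_empty x)
  · exact fun y _ => subset_univ _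

namespace SegAux

theorem toFinset_LL (bet : Fin k → Fin B) : (LL bet).toFinset = univ := by
  ext x
  rw [List.mem_toFinset, (seg_LL bet).mem_iff x]
  simp

theorem sum_flat {M : Type*} [AddCommMonoid M] (bet : Fin k → Fin B) (f : Fin k → M)
    (l : List (Fin B)) :
    ((l.flatMap (Lj bet)).map f).sum = (l.map fun j => ((Lj bet j).map f).sum).sum := by
  induction l with
  | nil => rfl
  | cons j l ih =>
    rw [List.flatMap_cons, List.map_append, List.sum_append, ih, List.map_cons, List.sum_cons]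

end SegAux

/-- the blocks together -/
theorem sum_length_Lj (bet : Fin k → Fin B) : ∑ j, (Lj bet j).length = k := by
  have h1 : (LL bet).length = k := by
    rw [← List.toFinset_card_of_nodup (seg_LL bet).nodup, toFinset_LL, card_univ,
      Fintype.card_fin]
  rw [Fin.sum_univ_def]
  unfold LL at h1
  rw [List.length_flatMap] at h1
  exact h1

/-- a sum over all sites, block by block -/
theorem sum_blocks (bet : Fin k → Fin B) (f : Fin k → ℝ) :
    ∑ v, f v = ∑ j, ((Lj bet j).map f).sum := by
  rw [Fin.sum_univ_def (fun j => ((Lj bet j).map f).sum), ← sum_flat bet f (List.finRange B)]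
  have h1 := List.sum_toFinset f (seg_LL bet).nodup
  rw [toFinset_LL] at h1
  exact h1

end Pool.Agent.Lib.SubBisF
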