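import Pool.Agent.Lib.SubBisF.OkB
import Pool.Agent.Lib.SubBisF.Pool

/-!
# SubBisF.SupT (1.5 h): the noise lemma for blocks

PROOF. `runB`: the blocks are run one after the other, block `i` with the digits `X i`; `runB_eq`: with `Ls = Lj bet`, `runB` is
`run φ (LL bet) r ∅ (dig bet X)` (`run_append`, `run_congr_dig`, `mem_Lj`; state it for the suffixes: `Ls i = Lj bet (i₀ + i)` or for any
`f : Fin n → Fin B` injective...: `run φ ((List.finRange n).flatMap Ls) r z U = runB n Ls r z X` if `U w = X i w` for `w ∈ Ls i`).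
`anti_runB` by induction on `n`: `anG ε (n+1) y (cons x X') = (av g) + (1+ε)(g x - av g)` with `g x = run φ (Ls 0) (fun z' => A z' X') z x`,
`A z' = anG ε n (runB n .. z')` (`anG` commutes with `run` by linearity: induction on the list `Ls 0`, `anG_add`, `anG_smul`);
`av_x` of its square is `≤ av_x run φ (Ls 0) (fun z' => A z' X' ^ 2) z x` (`okB`), average over `X'`, induction hypothesis, `run_mono`, `run_const`.
-/

set_option autoImplicit false

open scoped BigOperators

namespace Pool.Agent.Lib.SubBisF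

open Finset SubBis Pool.Agent.Lib.SubBisX.Reg Pool.Agent.Lib.SubBisX.Core
open Pool.Agent.Lib.SubBisX
open Pool.Agent.Lib.SubBisE (agr ker cl gam vl xt Okd)
open Pool.Agent.Lib.SubBisB (wt2 ZF EG pv Rb Rp psi)

variable {n k m B R : ℕ}

/-- the blocks one after the other, with their own digits -/
noncomputable def runB (φ : Fin k → Finset (Fin k) → Fin m → ℝ) : ∀ n : ℕ, (Fin n → List (Fin k)) →
    (Finset (Fin k) → ℝ) → Finset (Fin k) → (Fin n → Fin k → Fin m) → ℝ
  | 0, _, r, z, _ => r z
  | n + 1, Ls, r, z, X => run φ (Ls 0)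
      (fun z' => runB φ n (fun i => Ls i.succ) r z' fun i => X i.succ) z (X 0)

/-- the first coordinate first -/
private theorem av_consT {Ω : Type} [Fintype Ω] (f : (Fin (n + 1) → Ω) → ℝ) :
    av f = av fun u : Ω => av fun U : Fin n → Ω => f (Fin.cons u U : Fin (n + 1) → Ω) := by
  rw [← av_equiv (Fin.consEquiv (fun _ : Fin (n + 1) => Ω)) f, av_prod]
  rfl

private theorem anG_sumT {Ω ι : Type} [Fintype Ω] (ε : ℝ) (n : ℕ) (s : Finset ι)
    (y : ι → (Fin n → Ω) → ℝ) :
    anG ε n (fun U => ∑ i ∈ s, y i U) = fun U => ∑ i ∈ s, anG ε n (y i) U := by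
  classical
  induction s using Finset.induction_on with
  | empty =>
    have h := anG_smul (Ω := Ω) ε n 0 (fun _ => 0)
    simpa using h
  | insert a s ha ih =>
    simp only [Finset.sum_insert ha]
    rw [anG_add, ih]

private theorem anG_avT {Ω X : Type} [Fintype Ω] [Fintype X] (ε : ℝ) (n : ℕ)
    (y : X → (Fin n → Ω) → ℝ) :
    anG ε n (fun U => av fun x => y x U) = fun U => av fun x => anG ε n (y x) U := by
  have h : (fun U : Fin n → Ω => av fun x => y x U) =
      fun U => (Fintype.card X : ℝ)⁻¹ * ∑ x, y x U := by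
    funext U
    unfold av
    rw [div_eq_inv_mul]
  rw [h, anG_smul, anG_sumT]
  funext U
  unfold av
  rw [div_eq_inv_mul]

/-- the anti-noise commutes with the process -/
private theorem anG_runT {Ω : Type} [Fintype Ω] (ε : ℝ) (n : ℕ)
    {φ : Fin k → Finset (Fin k) → Fin m → ℝ} (A : Finset (Fin k) → (Fin n → Ω) → ℝ)
    (x : Fin k → Fin m) (U : Fin n → Ω) : ∀ (l : List (Fin k)) (z : Finset (Fin k)),
    anG ε n (fun U' => run φ l (fun z' => A z' U') z x) U =
      run φ l (fun z' => anG ε n (A z') U) z x := by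
  intro l
  induction l with
  | nil => intro z; rfl
  | cons v l ih =>
    intro z
    have h : (fun U' => run φ (v :: l) (fun z' => A z' U') z x) =
        fun U' => φ v z (x v) * run φ l (fun z' => A z' U') (insert v z) x +
          (1 - φ v z (x v)) * run φ l (fun z' => A z' U') z x := rfl
    rw [h, anG_add ε n (fun U' => φ v z (x v) * run φ l (fun z' => A z' U') (insert v z) x)
        (fun U' => (1 - φ v z (x v)) * run φ l (fun z' => A z' U') z x),
      anG_smul ε n (φ v z (x v)) (fun U' => run φ l (fun z' => A z' U') (insert v z) x),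
      anG_smul ε n (1 - φ v z (x v)) (fun U' => run φ l (fun z' => A z' U') z x)]
    show φ v z (x v) * anG ε n (fun U' => run φ l (fun z' => A z' U') (insert v z) x) U +
      (1 - φ v z (x v)) * anG ε n (fun U' => run φ l (fun z' => A z' U') z x) U = _
    rw [ih, ih]
    rfl

/-- means commute with the process -/
private theorem av_runT {Y : Type} [Fintype Y] {φ : Fin k → Finset (Fin k) → Fin m → ℝ}
    (A : Finset (Fin k) → Y → ℝ) (x : Fin k → Fin m) : ∀ (l : List (Fin k)) (z : Finset (Fin k)),
    (av fun U : Y => run φ l (fun z' => A z' U) z x) = run φ l (fun z' => av (A z')) z x := by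
  intro l
  induction l with
  | nil => intro z; rfl
  | cons v l ih =>
    intro z
    have h : (fun U => run φ (v :: l) (fun z' => A z' U) z x) =
        fun U => φ v z (x v) * run φ l (fun z' => A z' U) (insert v z) x +
          (1 - φ v z (x v)) * run φ l (fun z' => A z' U) z x := rfl
    rw [h, av_add, av_smul, av_smul, ih, ih]
    rfl

/-- the variance identity -/
private theorem av_centT {Y : Type} [Fintype Y] [Nonempty Y] (ε : ℝ) (g : Y → ℝ) :
    (av fun x => (av g + (1 + ε) * (g x - av g)) ^ 2) =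
      (1 + ε) ^ 2 * (av fun x => g x ^ 2) - ((1 + ε) ^ 2 - 1) * (av g) ^ 2 := by
  have h : (fun x => (av g + (1 + ε) * (g x - av g)) ^ 2) =
      fun x => ((1 + ε) ^ 2 * g x ^ 2 + (-(2 * ε * (1 + ε)) * av g) * g x) + ε ^ 2 * (av g) ^ 2 := by
    funext x
    ring
  rw [h, av_add, av_add, av_smul, av_smul, av_const]
  ring

private theorem run_runBT {φ : Fin k → Finset (Fin k) → Fin m → ℝ} (r : Finset (Fin k) → ℝ)
    (U : Fin k → Fin m) : ∀ (n : ℕ) (Ls : Fin n → List (Fin k)) (X : Fin n → Fin k → Fin m)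
      (z : Finset (Fin k)), (∀ i, ∀ w ∈ Ls i, U w = X i w) →
      runB φ n Ls r z X = run φ ((List.finRange n).flatMap Ls) r z U := by
  intro n
  induction n with
  | zero =>
    intro Ls X z _
    simp only [List.finRange_zero, List.flatMap_nil]
    rfl
  | succ n ih =>
    intro Ls X z h
    rw [List.finRange_succ, List.flatMap_cons, run_append, List.flatMap_map]
    show run φ (Ls 0) (fun z' => runB φ n (fun i => Ls i.succ) r z' fun i => X i.succ) z (X 0) = _
    rw [run_congr_dig (φ := φ) (Ls 0) _ z (U' := U) fun v hv => (h 0 v hv).symm]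
    congr 1
    funext z'
    exact ih (fun i => Ls i.succ) (fun i => X i.succ) z' fun i w hw => h i.succ w hw

theorem runB_eq {φ : Fin k → Finset (Fin k) → Fin m → ℝ} (bet : Fin k → Fin B)
    (r : Finset (Fin k) → ℝ) (X : Fin B → Fin k → Fin m) :
    runB φ B (Lj bet) r ∅ X = run φ (LL bet) r ∅ (dig bet X) := by
  unfold LL
  apply run_runBT
  intro i w hw
  have h : bet w = i := by
    unfold Lj at hw
    simpa using (List.mem_filter.1 hw).2
  unfold dig
  rw [h]

theorem anti_runB [NeZero m] {ε : ℝ} (h0 : 0 ≤ ε) {φ : Fin k → Finset (Fin k) → Fin m → ℝ}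
    (hφ : ∀ v z, Okd ε (φ v z)) {r : Finset (Fin k) → ℝ} (hr : ∀ S, |r S| ≤ 1) :
    ∀ (n : ℕ) (Ls : Fin n → List (Fin k)), (∀ i, (Ls i).Nodup) → ∀ z : Finset (Fin k),
      (av fun X : Fin n → Fin k → Fin m => anG ε n (runB φ n Ls r z) X ^ 2) ≤ 1 := by
  intro n
  induction n with
  | zero =>
    intro Ls _ z
    show (av fun _ : Fin 0 → Fin k → Fin m => r z ^ 2) ≤ 1
    rw [av_const]
    have h2 := abs_le.1 (hr z)
    nlinarith
  | succ n ih =>
    intro Ls hLs z
    set A : Finset (Fin k) → (Fin n → Fin k → Fin m) → ℝ :=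
      fun z' => runB φ n (fun i => Ls i.succ) r z' with hA
    set LA : Finset (Fin k) → (Fin n → Fin k → Fin m) → ℝ := fun z' => anG ε n (A z') with hLA
    set g : (Fin n → Fin k → Fin m) → (Fin k → Fin m) → ℝ :=
      fun X' x => run φ (Ls 0) (fun z' => LA z' X') z x with hg
    have e1 : ∀ (x : Fin k → Fin m) (X' : Fin n → Fin k → Fin m),
        anG ε (n + 1) (runB φ (n + 1) Ls r z) (Fin.cons x X' : Fin (n + 1) → Fin k → Fin m) =
          av (g X') + (1 + ε) * (g X' x - av (g X')) := by
      intro x X'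
      have hc : ∀ (x' : Fin k → Fin m) (U' : Fin n → Fin k → Fin m),
          runB φ (n + 1) Ls r z (Fin.cons x' U' : Fin (n + 1) → Fin k → Fin m) =
            run φ (Ls 0) (fun z' => A z' U') z x' := by
        intro x' U'
        show run φ (Ls 0) (fun z' => runB φ n (fun i => Ls i.succ) r z'
          fun i => (Fin.cons x' U' : Fin (n + 1) → Fin k → Fin m) i.succ) z
            ((Fin.cons x' U' : Fin (n + 1) → Fin k → Fin m) 0) = _
        simp only [Fin.cons_zero, Fin.cons_succ, hA]
      have hm : ∀ U' : Fin n → Fin k → Fin m, mnG (runB φ (n + 1) Ls r z) U' =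
          av fun x' : Fin k → Fin m => run φ (Ls 0) (fun z' => A z' U') z x' := by
        intro U'
        unfold mnG
        simp only [hc]
      show anG ε n (fun U' => mnG (runB φ (n + 1) Ls r z) U' +
        (1 + ε) * (runB φ (n + 1) Ls r z (Fin.cons ((Fin.cons x X' : Fin (n + 1) → Fin k → Fin m) 0) U' :
          Fin (n + 1) → Fin k → Fin m) - mnG (runB φ (n + 1) Ls r z) U'))
          (fun i => (Fin.cons x X' : Fin (n + 1) → Fin k → Fin m) i.succ) = _
      simp only [Fin.cons_zero, Fin.cons_succ, hc, hm]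
      have e2 : (fun U' : Fin n → Fin k → Fin m =>
          (av fun x' : Fin k → Fin m => run φ (Ls 0) (fun z' => A z' U') z x') +
            (1 + ε) * (run φ (Ls 0) (fun z' => A z' U') z x -
              av fun x' : Fin k → Fin m => run φ (Ls 0) (fun z' => A z' U') z x')) =
          fun U' => (-ε) * (av fun x' : Fin k → Fin m => run φ (Ls 0) (fun z' => A z' U') z x') +
            (1 + ε) * run φ (Ls 0) (fun z' => A z' U') z x := by
        funext U'
        ring
      rw [e2, anG_add ε n (fun U' : Fin n → Fin k → Fin m =>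
          (-ε) * (av fun x' : Fin k → Fin m => run φ (Ls 0) (fun z' => A z' U') z x'))
          (fun U' => (1 + ε) * run φ (Ls 0) (fun z' => A z' U') z x),
        anG_smul ε n (-ε) (fun U' : Fin n → Fin k → Fin m =>
          av fun x' : Fin k → Fin m => run φ (Ls 0) (fun z' => A z' U') z x'),
        anG_smul ε n (1 + ε) (fun U' : Fin n → Fin k → Fin m =>
          run φ (Ls 0) (fun z' => A z' U') z x),
        anG_avT ε n fun (x' : Fin k → Fin m) (U' : Fin n → Fin k → Fin m) =>
          run φ (Ls 0) (fun z' => A z' U') z x']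
      simp only [anG_runT ε n A]
      show (-ε) * av (g X') + (1 + ε) * g X' x = _
      ring
    rw [av_consT, av_comm]
    simp only [e1]
    have e3 : ∀ X' : Fin n → Fin k → Fin m,
        (av fun x : Fin k → Fin m => (av (g X') + (1 + ε) * (g X' x - av (g X'))) ^ 2) ≤
          av fun x : Fin k → Fin m => run φ (Ls 0) (fun S => LA S X' ^ 2) z x := by
      intro X'
      rw [av_centT]
      exact okB h0 hφ (Ls 0) (hLs 0) (fun z' => LA z' X') z
    refine (av_mono e3).trans ?_
    rw [av_comm]
    have e4 : ∀ x : Fin k → Fin m,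
        (av fun X' : Fin n → Fin k → Fin m => run φ (Ls 0) (fun S => LA S X' ^ 2) z x) ≤ 1 := by
      intro x
      rw [av_runT (fun S X' => LA S X' ^ 2) x (Ls 0) z]
      have h1 : run φ (Ls 0) (fun z' => av fun X' => LA z' X' ^ 2) z x ≤
          run φ (Ls 0) (fun _ => 1) z x :=
        run_mono (fun v z u => (hφ v z).1 u) (Ls 0)
          (fun S => ih (fun i => Ls i.succ) (fun i => hLs i.succ) S) z x
      rw [run_const] at h1
      exact h1
    refine (av_mono e4).trans ?_
    rw [av_const]

/-- **(SUPER-T)** -/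
theorem superT [NeZero m] {ε : ℝ} (h0 : 0 ≤ ε) {φ : Fin k → Finset (Fin k) → Fin m → ℝ}
    (hφ : ∀ v z, Okd ε (φ v z)) {r : Finset (Fin k) → ℝ} (hr : ∀ S, |r S| ≤ 1)
    (bet : Fin k → Fin B) :
    (av fun X : Fin B → Fin k → Fin m =>
      anG ε B (fun X' => run φ (LL bet) r ∅ (dig bet X')) X ^ 2) ≤ 1 := by
  have h := anti_runB h0 hφ hr B (Lj bet) (fun i => (List.nodup_finRange k).filter _) ∅
  have e : runB φ B (Lj bet) r ∅ = fun X' => run φ (LL bet) r ∅ (dig bet X') := by
    funext X'
    exact runB_eq bet r X'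
  rw [e] at h
  exact h

end Pool.Agent.Lib.SubBisF
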