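import Pool.Agent.Lib.SubBisX.Bounds

/-!
# Exponential moments of the increments of the potential (MP_a7c826_lc)

`Dl v z u` is the increment of (value + `c` times the potential) at the site `v`, own digit `u`. Its
conditional mean is at most `1`, and it is bounded; so the exponential moments of the sum over any set
of sites are bounded, for every adapted policy.
-/

set_option autoImplicit false

open scoped BigOperators

namespace Pool.Agent.Lib.SubBisF

open Finset SubBis Pool.Agent.Lib.SubBisX.Reg Pool.Agent.Lib.SubBisX.Bounds

variable {n m : ℕ}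

/-- The increment at the site `v` with own digit `u`. -/
noncomputable def Dl (m c : ℕ) (W : (Fin n → Bool) → ℝ) (v : Fin n) (z : Fin n → Bool) (u : ℕ) : ℝ :=
  (ee m c u : ℝ) * bit (z v) + c * (VV W (v + 1) z - VV W v z)

theorem Dl_congr (c : ℕ) (W : (Fin n → Bool) → ℝ) {v : Fin n} {z z' : Fin n → Bool} (u : ℕ)
    (h : ∀ i ≤ v, z i = z' i) : Dl m c W v z u = Dl m c W v z' u := by
  unfold Dl
  rw [h v le_rfl, VV_congr W (v + 1) fun i hi => h i (Fin.le_def.2 (by omega)),
    VV_congr W v fun i hi => h i (Fin.le_def.2 (by omega))]

/-- The mean over the own digit is at most `1`. -/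
theorem Dl_mean [NeZero m] (c : ℕ) (W : (Fin n → Bool) → ℝ) (v : Fin n) (y : Fin n → Bool)
    (b : Fin m → Bool) :
    (av fun u : Fin m => Dl m c W v (Function.update y v (b u)) u) ≤ 1 := by
  classical
  have hm0 : 0 < m := Nat.pos_of_ne_zero (NeZero.ne m)
  have hm : (0 : ℝ) < (m : ℝ) := by exact_mod_cast hm0
  set A := VV W (v + 1) (Function.update y v true) with hA
  set B := VV W (v + 1) (Function.update y v false) with hB
  have hV0 : ∀ x : Bool, VV W v (Function.update y v x) = Real.logb 2 ((2 : ℝ) ^ A + (2 : ℝ) ^ B) := by
    intro x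
    rw [hA, hB, ← VV_step W v y]
    apply VV_congr
    intro i hi
    rw [Function.update_of_ne]
    rintro rfl
    exact lt_irrefl _ hi
  have hV1 : ∀ x : Bool, VV W (v + 1) (Function.update y v x) = bit x * A + (1 - bit x) * B := by
    intro x
    cases x
    · simp [hB]
    · simp [hA]
  obtain ⟨q, hq, hqs⟩ := av_digit (m := m) (fun x : Fin m => x) (fun f => rfl) b
  have h9 := upper_ee (c := c) hm0 q hq A B
  have e1 : (av fun u : Fin m => Dl m c W v (Function.update y v (b u)) u)
      = (av fun x : Fin m => (ee m c x : ℝ) * bit (b x))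
        + c * ((A - B) * (av fun x : Fin m => (1 : ℝ) * bit (b x))
          + (B - Real.logb 2 ((2 : ℝ) ^ A + (2 : ℝ) ^ B))) := by
    have e2 : (fun u : Fin m => Dl m c W v (Function.update y v (b u)) u)
        = fun x : Fin m => (ee m c x : ℝ) * bit (b x)
          + c * ((A - B) * ((1 : ℝ) * bit (b x))
            + (B - Real.logb 2 ((2 : ℝ) ^ A + (2 : ℝ) ^ B))) := by
      funext x
      unfold Dl
      rw [hV0, hV1, Function.update_self]
      ring
    rw [e2, av_add, av_smul, av_add, av_smul, av_const]
  have e3 := hqs (fun u => (ee m c u : ℝ))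
  have e4 := hqs (fun _ => (1 : ℝ))
  rw [e1]
  set S1 := av fun x : Fin m => (ee m c x : ℝ) * bit (b x) with hS1
  set S2 := av fun x : Fin m => (1 : ℝ) * bit (b x) with hS2
  have e5 : ∑ u ∈ range m, ((ee m c u : ℝ) * q u + c * (q u * A + (1 - q u) * B))
      = m * S1 + c * ((A - B) * (m * S2) + m * B) := by
    rw [e3, e4, Finset.mul_sum, Finset.sum_add_distrib]
    congr 1
    rw [← Finset.mul_sum]
    congr 1
    have : ∀ u ∈ range m, q u * A + (1 - q u) * B = (A - B) * (1 * q u) + B := fun u _ => by ring
    rw [Finset.sum_congr rfl this, Finset.sum_add_distrib]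
    simp
  rw [e5] at h9
  have h10 : m * (S1 + c * ((A - B) * S2 + (B - Real.logb 2 ((2 : ℝ) ^ A + (2 : ℝ) ^ B))))
      ≤ m * 1 := by
    nlinarith
  exact le_of_mul_le_mul_left h10 hm

/-- The potential is Lipschitz in every pinned site. -/
theorem VV_lip {W : (Fin n → Bool) → ℝ} {κ : ℝ}
    (hW : ∀ z v b b', W (Function.update z v b) ≤ W (Function.update z v b') + κ) (j : ℕ)
    (z : Fin n → Bool) (v : Fin n) (hv : (v : ℕ) < j) (b b' : Bool) :
    VV W j (Function.update z v b) ≤ VV W j (Function.update z v b') + κ := by
  classical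
  have h1 : (2 : ℝ) ^ VV W j (Function.update z v b) ≤
      (2 : ℝ) ^ κ * (2 : ℝ) ^ VV W j (Function.update z v b') := by
    rw [two_rpow_VV, two_rpow_VV, Finset.mul_sum]
    calc ∑ z' ∈ univ.filter (fun z' : Fin n → Bool => ∀ i : Fin n, (i : ℕ) < j →
          z' i = Function.update z v b i), (2 : ℝ) ^ W z'
        = ∑ z' ∈ univ.filter (fun z' : Fin n → Bool => ∀ i : Fin n, (i : ℕ) < j →
          z' i = Function.update z v b' i), (2 : ℝ) ^ W (Function.update z' v b) := by
          symm
          refine Finset.sum_bij' (fun z' _ => Function.update z' v b)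
            (fun z' _ => Function.update z' v b') ?_ ?_ ?_ ?_ ?_
          · intro z' hz'
            simp only [mem_filter, mem_univ, true_and] at hz' ⊢
            intro i hi
            by_cases hiv : i = v
            · subst hiv; simp
            · rw [Function.update_of_ne hiv, Function.update_of_ne hiv, hz' i hi,
                Function.update_of_ne hiv]
          · intro z' hz'
            simp only [mem_filter, mem_univ, true_and] at hz' ⊢
            intro i hi
            by_cases hiv : i = v
            · subst hiv; simp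
            · rw [Function.update_of_ne hiv, Function.update_of_ne hiv, hz' i hi,
                Function.update_of_ne hiv]
          · intro z' hz'
            simp only [mem_filter, mem_univ, true_and] at hz'
            have := hz' v hv
            rw [Function.update_self] at this
            simp [← this]
          · intro z' hz'
            simp only [mem_filter, mem_univ, true_and] at hz'
            have := hz' v hv
            rw [Function.update_self] at this
            simp [← this]
          · intro z' _; rfl
      _ ≤ _ := by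
          apply Finset.sum_le_sum
          intro z' hz'
          simp only [mem_filter, mem_univ, true_and] at hz'
          have h3 := hz' v hv
          rw [Function.update_self] at h3
          have h2 := hW z' v b b'
          have h4 : Function.update z' v b' = z' := by rw [← h3]; simp
          rw [h4] at h2
          rw [← Real.rpow_add (by norm_num)]
          exact Real.rpow_le_rpow_of_exponent_le (by norm_num) (by linarith)
  rw [← Real.rpow_add (by norm_num)] at h1
  have := (Real.rpow_le_rpow_left_iff (by norm_num : (1 : ℝ) < 2)).1 h1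
  linarith

/-- The increment of the potential is bounded. -/
theorem VV_inc {W : (Fin n → Bool) → ℝ} {κ : ℝ}
    (hW : ∀ z v b b', W (Function.update z v b) ≤ W (Function.update z v b') + κ) (v : Fin n)
    (z : Fin n → Bool) : |VV W (v + 1) z - VV W v z| ≤ κ + 1 := by
  set A := VV W (v + 1) (Function.update z v true) with hA
  set B := VV W (v + 1) (Function.update z v false) with hB
  have hAB : A ≤ B + κ := VV_lip hW (v + 1) z v (by omega) true false
  have hBA : B ≤ A + κ := VV_lip hW (v + 1) z v (by omega) false true
  have h0 : VV W v z = Real.logb 2 ((2 : ℝ) ^ A + (2 : ℝ) ^ B) := VV_step W v z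
  have hpA : (0 : ℝ) < (2 : ℝ) ^ A := Real.rpow_pos_of_pos (by norm_num) _
  have hpB : (0 : ℝ) < (2 : ℝ) ^ B := Real.rpow_pos_of_pos (by norm_num) _
  have h1 : A ≤ VV W v z := by
    rw [h0, Real.le_logb_iff_rpow_le (by norm_num) (by positivity)]
    linarith
  have h2 : B ≤ VV W v z := by
    rw [h0, Real.le_logb_iff_rpow_le (by norm_num) (by positivity)]
    linarith
  have h3 : VV W v z ≤ max A B + 1 := by
    rw [h0, Real.logb_le_iff_le_rpow (by norm_num) (by positivity), Real.rpow_add (by norm_num),
      Real.rpow_one]
    have h4 : (2 : ℝ) ^ A ≤ (2 : ℝ) ^ max A B :=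
      Real.rpow_le_rpow_of_exponent_le (by norm_num) (le_max_left _ _)
    have h5 : (2 : ℝ) ^ B ≤ (2 : ℝ) ^ max A B :=
      Real.rpow_le_rpow_of_exponent_le (by norm_num) (le_max_right _ _)
    linarith
  have h6 : VV W (v + 1) z = A ∨ VV W (v + 1) z = B := by
    cases hz : z v
    · right
      rw [hB, ← hz, Function.update_eq_self]
    · left
      rw [hA, ← hz, Function.update_eq_self]
  have h7 : max A B ≤ A + κ := max_le (by linarith) hBA
  have h8 : max A B ≤ B + κ := max_le hAB (by linarith)
  rw [abs_le]
  rcases h6 with h6 | h6 <;> rw [h6] <;> constructor <;> linarith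

theorem Dl_abs {c : ℕ} {W : (Fin n → Bool) → ℝ} {κ E : ℝ} (hE0 : 0 ≤ E)
    (hW : ∀ z v b b', W (Function.update z v b) ≤ W (Function.update z v b') + κ)
    (hE : ∀ u : Fin m, |(ee m c u : ℝ)| ≤ E) (v : Fin n) (z : Fin n → Bool) (u : Fin m) :
    |Dl m c W v z u| ≤ E + c * (κ + 1) := by
  unfold Dl
  refine (abs_add_le _ _).trans (add_le_add ?_ ?_)
  · rw [abs_mul]
    have h1 : |bit (z v)| ≤ 1 := abs_le.2 ⟨by linarith [bit_nonneg (z v)], bit_le_one _⟩
    calc |(ee m c u : ℝ)| * |bit (z v)| ≤ E * 1 :=
          mul_le_mul (hE u) h1 (abs_nonneg _) hE0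
      _ = E := mul_one E
  · rw [abs_mul, Nat.abs_cast]
    exact mul_le_mul_of_nonneg_left (VV_inc hW v z) (Nat.cast_nonneg c)

/-- One step of the exponential moment. -/
theorem exp_step [NeZero m] {c : ℕ} {W : (Fin n → Bool) → ℝ} {G l : ℝ}
    (hG : ∀ (v : Fin n) (z : Fin n → Bool) (u : Fin m), |Dl m c W v z u| ≤ G)
    (hl : 0 ≤ l) (hlG : l * G ≤ 1) (v : Fin n) (y : Fin n → Bool) (b : Fin m → Bool) :
    (av fun u : Fin m => Real.exp (l * Dl m c W v (Function.update y v (b u)) u)) ≤
      Real.exp (l + l ^ 2 * G ^ 2) := by
  have h1 : ∀ u : Fin m, Real.exp (l * Dl m c W v (Function.update y v (b u)) u) ≤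
      l * Dl m c W v (Function.update y v (b u)) u + (1 + l ^ 2 * G ^ 2) := by
    intro u
    set x := Dl m c W v (Function.update y v (b u)) u with hx
    have hxG := hG v (Function.update y v (b u)) u
    rw [← hx] at hxG
    have h2 : |l * x| ≤ 1 := by
      rw [abs_mul, abs_of_nonneg hl]
      exact (mul_le_mul_of_nonneg_left hxG hl).trans hlG
    have h3 := (abs_le.1 (Real.abs_exp_sub_one_sub_id_le h2)).2
    have h4 : (l * x) ^ 2 ≤ l ^ 2 * G ^ 2 := by
      rw [mul_pow]
      apply mul_le_mul_of_nonneg_left _ (sq_nonneg l)
      rw [← sq_abs x]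
      exact pow_le_pow_left₀ (abs_nonneg x) hxG 2
    linarith
  have h5 := av_mono h1
  rw [av_add, av_smul, av_const] at h5
  have h6 := Dl_mean c W v y b
  have h7 : l * (av fun u : Fin m => Dl m c W v (Function.update y v (b u)) u) ≤ l * 1 :=
    mul_le_mul_of_nonneg_left h6 hl
  have h8 := Real.add_one_le_exp (l + l ^ 2 * G ^ 2)
  linarith

/-- THE EXPONENTIAL MOMENT of the sum over a set of sites, for every adapted policy. -/
theorem exp_sum [NeZero m] {c : ℕ} {W : (Fin n → Bool) → ℝ} {G l : ℝ}
    (hG : ∀ (v : Fin n) (z : Fin n → Bool) (u : Fin m), |Dl m c W v z u| ≤ G)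
    (hl : 0 ≤ l) (hlG : l * G ≤ 1) (z : (Fin n → Fin m) → Fin n → Bool)
    (hz : ∀ v, Upto v fun w => z w v) (J : Finset (Fin n)) :
    (av fun w : Fin n → Fin m => Real.exp (l * ∑ v ∈ J, Dl m c W v (z w) (w v))) ≤
      Real.exp (J.card * (l + l ^ 2 * G ^ 2)) := by
  classical
  induction J using Finset.induction_on_max with
  | empty => simp [av_const]
  | insert v J hJ ih =>
    have hv : v ∉ J := fun h => lt_irrefl _ (hJ v h)
    rw [← av_update v]
    have h1 : ∀ w : Fin n → Fin m, (av fun x : Fin m => Real.exp (l * ∑ i ∈ insert v J,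
        Dl m c W i (z (Function.update w v x)) ((Function.update w v x) i))) ≤
        Real.exp (l + l ^ 2 * G ^ 2) * Real.exp (l * ∑ i ∈ J, Dl m c W i (z w) (w i)) := by
      intro w
      have hpast : ∀ x : Fin m, ∀ i, i < v → z (Function.update w v x) i = z w i := by
        intro x i hi
        apply hz i
        intro j hj
        have : j ≠ v := (lt_of_le_of_lt hj hi).ne
        rw [Function.update_of_ne this]
      have h2 : ∀ x : Fin m, ∑ i ∈ insert v J,
          Dl m c W i (z (Function.update w v x)) ((Function.update w v x) i) =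
          Dl m c W v (Function.update (z w) v (z (Function.update w v x) v)) x +
            ∑ i ∈ J, Dl m c W i (z w) (w i) := by
        intro x
        rw [Finset.sum_insert hv]
        congr 1
        · rw [Function.update_self]
          apply Dl_congr
          intro i hi
          by_cases hiv : i = v
          · subst hiv; simp
          · rw [Function.update_of_ne hiv]
            exact hpast x i (lt_of_le_of_ne hi hiv)
        · apply Finset.sum_congr rfl
          intro i hi
          have hiv : i < v := hJ i hi
          rw [Function.update_of_ne hiv.ne]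
          apply Dl_congr
          intro j hj
          exact hpast x j (lt_of_le_of_lt hj hiv)
      have h3 : (fun x : Fin m => Real.exp (l * ∑ i ∈ insert v J,
          Dl m c W i (z (Function.update w v x)) ((Function.update w v x) i))) =
          fun x : Fin m => Real.exp (l * ∑ i ∈ J, Dl m c W i (z w) (w i)) *
            Real.exp (l * Dl m c W v (Function.update (z w) v (z (Function.update w v x) v)) x) := by
        funext x
        rw [h2, mul_add, Real.exp_add]
        ring
      rw [h3, av_smul, mul_comm]
      exact mul_le_mul_of_nonneg_right (exp_step hG hl hlG v (z w) _) (Real.exp_pos _).le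
    refine (av_mono h1).trans ?_
    rw [av_smul, Finset.card_insert_of_notMem hv]
    push_cast
    rw [add_mul, one_mul, Real.exp_add (_ * _), mul_comm]
    exact mul_le_mul_of_nonneg_right ih (Real.exp_pos _).le

end Pool.Agent.Lib.SubBisF
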