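import Pool.Agent.Lib.SubBisF.Up1

/-!
# The exponential moments over the pools

`SS j s g D`: the sum over the pool index `i` and the sites `v` of the block `j` of the increments, when
the bits of the earlier blocks are `s` and the decisions of the block `j` are the functions `g v` of the
own digit. `XX j D` is the sum over all `(s, g)` of `exp (l (SS - a))`: its mean over the pools is at
most `1` for the right `a`.
-/

set_option autoImplicit false

open scoped BigOperators

namespace Pool.Agent.Lib.SubBisF

open Finset SubBis Pool.Agent.Lib.SubBisX.Reg Pool.Agent.Lib.SubBisX.Bounds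

section avprod

variable {ι : Type*} [Fintype ι] {Y : Type*} [Fintype Y]

/-- The average of a product of functions of the coordinates. -/
theorem av_pi_prod [DecidableEq ι] (f : ι → Y → ℝ) :
    (av fun w : ι → Y => ∏ i, f i (w i)) = ∏ i, av (f i) := by
  unfold av
  rw [Finset.prod_div_distrib, Fintype.card_fun, Finset.prod_const, Finset.card_univ]
  push_cast
  congr 1
  rw [Finset.prod_univ_sum]
  simp

end avprod

variable {k m B R : ℕ}

/-- The bits, from the bits of the earlier blocks and the decisions as functions of the own digit. -/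
def zz (bet : Fin k → Fin B) (j : Fin B) (s : Fin k → Bool) (g : Fin k → Fin m → Bool)
    (x : Fin k → Fin m) : Fin k → Bool :=
  fun v => if bet v < j then s v else g v (x v)

/-- The sum over the pool of the increments in one block. -/
noncomputable def SS (c : ℕ) (W : (Fin k → Bool) → ℝ) (bet : Fin k → Fin B) (j : Fin B)
    (s : Fin k → Bool) (g : Fin k → Fin m → Bool) (D : Fin k → Fin R → Fin m) : ℝ :=
  ∑ i : Fin R, ∑ v ∈ univ.filter (fun v => bet v = j),
    Dl m c W v (zz bet j s g fun v => D v i) (D v i)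

/-- The shift. -/
noncomputable def aa (k m R : ℕ) (bet : Fin k → Fin B) (G l : ℝ) (j : Fin B) : ℝ :=
  R * ((univ.filter fun v => bet v = j).card * (1 + l * G ^ 2)) +
    (k + k * m : ℕ) * Real.log 2 / l

/-- The sum over all pairs. -/
noncomputable def XX (c : ℕ) (W : (Fin k → Bool) → ℝ) (bet : Fin k → Fin B) (G l : ℝ) (j : Fin B)
    (D : Fin k → Fin R → Fin m) : ℝ :=
  ∑ p : (Fin k → Bool) × (Fin k → Fin m → Bool),
    Real.exp (l * (SS c W bet j p.1 p.2 D - aa k m R bet G l j))

theorem upto_zz (bet : Fin k → Fin B) (j : Fin B) (s : Fin k → Bool) (g : Fin k → Fin m → Bool)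
    (v : Fin k) : Upto v fun x => zz bet j s g x v := by
  intro a b h
  show (if bet v < j then s v else g v (a v)) = if bet v < j then s v else g v (b v)
  rw [h v le_rfl]

/-- The exponential moment over the pools. -/
theorem exp_SS [NeZero m] [NeZero R] {c : ℕ} {W : (Fin k → Bool) → ℝ} {G l : ℝ}
    (hG : ∀ (v : Fin k) (z : Fin k → Bool) (u : Fin m), |Dl m c W v z u| ≤ G)
    (hl : 0 ≤ l) (hlG : l * G ≤ 1) (bet : Fin k → Fin B) (j : Fin B) (s : Fin k → Bool)
    (g : Fin k → Fin m → Bool) :
    (av fun D : Fin k → Fin R → Fin m => Real.exp (l * SS c W bet j s g D)) ≤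
      Real.exp (R * ((univ.filter fun v => bet v = j).card * (l + l ^ 2 * G ^ 2))) := by
  have h1 := av_equiv (Equiv.piComm (fun (_ : Fin k) (_ : Fin R) => Fin m))
    (fun w : Fin R → Fin k → Fin m => ∏ i, Real.exp (l * ∑ v ∈ univ.filter (fun v => bet v = j),
      Dl m c W v (zz bet j s g (w i)) (w i v)))
  have h2 : (fun D : Fin k → Fin R → Fin m => Real.exp (l * SS c W bet j s g D)) =
      fun D => ∏ i, Real.exp (l * ∑ v ∈ univ.filter (fun v => bet v = j),
        Dl m c W v (zz bet j s g fun v => D v i) (D v i)) := by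
    funext D
    rw [← Real.exp_sum]
    unfold SS
    rw [Finset.mul_sum]
  rw [h2]
  have h3 : (av fun D : Fin k → Fin R → Fin m => ∏ i, Real.exp (l * ∑ v ∈
        univ.filter (fun v => bet v = j), Dl m c W v (zz bet j s g fun v => D v i) (D v i))) =
      av fun w : Fin R → Fin k → Fin m => ∏ i, Real.exp (l * ∑ v ∈
        univ.filter (fun v => bet v = j), Dl m c W v (zz bet j s g (w i)) (w i v)) := h1
  rw [h3, av_pi_prod (fun (_ : Fin R) (x : Fin k → Fin m) => Real.exp (l * ∑ v ∈
        univ.filter (fun v => bet v = j), Dl m c W v (zz bet j s g x) (x v)))]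
  rw [Finset.prod_const, Finset.card_univ, Fintype.card_fin, Real.exp_nat_mul]
  refine pow_le_pow_left₀ (av_nonneg fun x => (Real.exp_pos _).le) ?_ R
  exact exp_sum hG hl hlG (fun x => zz bet j s g x) (fun v => upto_zz bet j s g v) _

/-- THE MEAN over the pools. -/
theorem av_XX [NeZero m] [NeZero R] {c : ℕ} {W : (Fin k → Bool) → ℝ} {G l : ℝ}
    (hG : ∀ (v : Fin k) (z : Fin k → Bool) (u : Fin m), |Dl m c W v z u| ≤ G)
    (hl : 0 < l) (hlG : l * G ≤ 1) (bet : Fin k → Fin B) (j : Fin B) :
    (av fun D : Fin k → Fin R → Fin m => XX c W bet G l j D) ≤ 1 := by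
  classical
  unfold XX
  rw [av_sum]
  set a := aa k m R bet G l j with ha
  set E := Real.exp (R * ((univ.filter fun v => bet v = j).card * (l + l ^ 2 * G ^ 2))) with hE
  have h1 : ∀ p : (Fin k → Bool) × (Fin k → Fin m → Bool),
      (av fun D : Fin k → Fin R → Fin m => Real.exp (l * (SS c W bet j p.1 p.2 D - a))) ≤
        Real.exp (-(l * a)) * E := by
    intro p
    have h2 : (fun D : Fin k → Fin R → Fin m => Real.exp (l * (SS c W bet j p.1 p.2 D - a))) =
        fun D => Real.exp (-(l * a)) * Real.exp (l * SS c W bet j p.1 p.2 D) := by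
      funext D
      rw [← Real.exp_add]
      congr 1
      ring
    rw [h2, av_smul]
    exact mul_le_mul_of_nonneg_left (exp_SS hG hl.le hlG bet j p.1 p.2) (Real.exp_pos _).le
  refine (Finset.sum_le_sum fun p _ => h1 p).trans ?_
  rw [Finset.sum_const, Finset.card_univ, nsmul_eq_mul]
  have h3 : (Fintype.card ((Fin k → Bool) × (Fin k → Fin m → Bool)) : ℝ) =
      Real.exp ((k + k * m : ℕ) * Real.log 2) := by
    rw [Real.exp_nat_mul, Real.exp_log (by norm_num)]
    rw [Fintype.card_prod, Fintype.card_fun, Fintype.card_fun, Fintype.card_fun, Fintype.card_fin,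
      Fintype.card_fin, Fintype.card_bool]
    push_cast
    rw [pow_add, ← pow_mul, mul_comm m k]
  rw [h3, hE, ← Real.exp_add, ← Real.exp_add, ← Real.exp_zero]
  apply le_of_eq
  congr 1
  rw [ha]
  unfold aa
  field_simp
  ring

end Pool.Agent.Lib.SubBisF
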