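import Pool.Agent.Lib.SubBisF.Up3
import Pool.Agent.Lib.SubBisF.ParF

/-!
# The upper bound with the parameters

`up_pool` in the form `UpHyp` of CoreF, for the parameters of ParF: the error is `3 k`.
-/

set_option autoImplicit false

open scoped BigOperators

namespace Pool.Agent.Lib.SubBisF

open Finset SubBis Pool.Agent.Lib.SubBisX.Reg Pool.Agent.Lib.SubBisX.Core
open Pool.Agent.Lib.SubBisX
open Pool.Agent.Lib.SubBisE (mu kap dg Gm)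

variable {k : ℕ}

/-- `1 + 2 ^ mu q` and the constant of the exponential moments against the size of the pool -/
theorem pool_big (q : ℕ) :
    2 ^ lamF q * (1 + 2 ^ mu q) * (Gm q + q ^ 2) ^ 2 ≤ 2 ^ rhoF q := by
  have h1 : 1 + 2 ^ mu q ≤ 2 ^ (mu q + 1) := by
    have := Nat.one_le_two_pow (n := mu q)
    rw [pow_succ]
    omega
  have h2 : Gm q + q ^ 2 ≤ 2 ^ (Gm q + 2 * q ^ 2).size := by
    have := (Nat.lt_size_self (Gm q + 2 * q ^ 2)).le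
    nlinarith [Nat.zero_le (q ^ 2)]
  have h3 : (Gm q + q ^ 2) ^ 2 ≤ 2 ^ (2 * (Gm q + 2 * q ^ 2).size) := by
    refine (Nat.pow_le_pow_left h2 2).trans (le_of_eq ?_)
    rw [← pow_mul, mul_comm]
  unfold rhoF
  calc 2 ^ lamF q * (1 + 2 ^ mu q) * (Gm q + q ^ 2) ^ 2
      ≤ 2 ^ lamF q * 2 ^ (mu q + 1) * 2 ^ (2 * (Gm q + 2 * q ^ 2).size) :=
        Nat.mul_le_mul (Nat.mul_le_mul le_rfl h1) h3
    _ = 2 ^ (lamF q + (mu q + 1) + 2 * (Gm q + 2 * q ^ 2).size) := by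
        rw [← pow_add, ← pow_add]
    _ ≤ _ := Nat.pow_le_pow_right (by norm_num) (by omega)

/-- **The upper bound with the parameters.** -/
theorem upHypQ {q : ℕ} (hq : 1 ≤ q) (F : Finset (Fin k) → ℤ)
    (hk : ∀ S v, |F (insert v S) - F S| ≤ kap q) (bet : Fin k → Fin (2 ^ lamF q)) (M : ℕ) :
    UpHyp (2 ^ mu q) (2 ^ lamF q) (2 ^ rhoF q) k (q ^ 2) M F bet (3 * k) := by
  have : NeZero (2 ^ mu q) := ⟨by positivity⟩
  have : NeZero (2 ^ rhoF q) := ⟨by positivity⟩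
  have hq1 : (1 : ℝ) ≤ (q : ℝ) ^ 2 := by
    have : (1 : ℝ) ≤ q := by exact_mod_cast hq
    nlinarith
  set G : ℝ := (q : ℝ) ^ 2 * mu q + ((q ^ 2 : ℕ) : ℝ) * (kap q + 1) with hG
  have hGe : G = ((Gm q + q ^ 2 : ℕ) : ℝ) := by
    rw [hG]
    unfold Gm
    push_cast
    ring
  have hG1 : 1 ≤ G := by
    rw [hGe]
    push_cast
    have : (0 : ℝ) ≤ Gm q := Nat.cast_nonneg _
    linarith
  have hl : (0 : ℝ) < 1 / G ^ 2 := by positivity
  have hlG : 1 / G ^ 2 * G ≤ 1 := by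
    rw [div_mul_eq_mul_div, one_mul, div_le_one (by positivity)]
    nlinarith
  obtain ⟨UB, h1, h2⟩ := up_pool (m := 2 ^ mu q) (R := 2 ^ rhoF q) (q ^ 2) M F bet
    (E := (q : ℝ) ^ 2 * mu q) (κ := (kap q : ℝ)) (l := 1 / G ^ 2) (by positivity)
    (fun u => by
      have := SubBis.abs_ee_le (mu := mu q) (c := q ^ 2) u.2
      have h : ((|ee (2 ^ mu q) (q ^ 2) u| : ℤ) : ℝ) ≤ (((q ^ 2 : ℕ) * mu q : ℤ) : ℝ) := by
        exact_mod_cast this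
      push_cast at h ⊢
      exact h)
    (Nat.cast_nonneg _) (fun S v => by exact_mod_cast hk S v) hl hlG
  refine ⟨UB, fun D Y hY0 hY1 hY => h1 D Y hY0 hY1 fun v I I' h3 h4 => hY I I' v h3 h4, ?_⟩
  refine h2.trans ?_
  have h3 : 1 / G ^ 2 * G ^ 2 = 1 := by
    field_simp
  have h4 := pool_big q
  have h5 : ((2 ^ lamF q * (1 + 2 ^ mu q) * (Gm q + q ^ 2) ^ 2 : ℕ) : ℝ) ≤ ((2 ^ rhoF q : ℕ) : ℝ) := by
    exact_mod_cast h4
  have h6 : (((2 ^ lamF q : ℕ) : ℝ) * (((k + k * 2 ^ mu q : ℕ) : ℝ) * Real.log 2)) /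
      (1 / G ^ 2 * ((2 ^ rhoF q : ℕ) : ℝ)) ≤ k := by
    have hR : (0 : ℝ) < ((2 ^ rhoF q : ℕ) : ℝ) := by positivity
    rw [div_le_iff₀ (by positivity)]
    have h7 : Real.log 2 ≤ 1 := by
      have := Real.log_two_lt_d9
      linarith
    have h8 : (0 : ℝ) ≤ Real.log 2 := Real.log_nonneg (by norm_num)
    have h9 : ((2 ^ lamF q : ℕ) : ℝ) * (((k + k * 2 ^ mu q : ℕ) : ℝ) * Real.log 2) ≤
        ((2 ^ lamF q : ℕ) : ℝ) * ((k + k * 2 ^ mu q : ℕ) : ℝ) := by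
      apply mul_le_mul_of_nonneg_left _ (by positivity)
      have : (0 : ℝ) ≤ ((k + k * 2 ^ mu q : ℕ) : ℝ) := by positivity
      nlinarith
    refine h9.trans ?_
    rw [one_div, ← mul_assoc]
    rw [mul_comm (k : ℝ) (G ^ 2)⁻¹, mul_assoc, inv_mul_eq_div, le_div_iff₀ (by positivity)]
    calc ((2 ^ lamF q : ℕ) : ℝ) * ((k + k * 2 ^ mu q : ℕ) : ℝ) * G ^ 2
        = k * ((2 ^ lamF q * (1 + 2 ^ mu q) * (Gm q + q ^ 2) ^ 2 : ℕ) : ℝ) := by
          rw [hGe]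
          push_cast
          ring
      _ ≤ k * ((2 ^ rhoF q : ℕ) : ℝ) := mul_le_mul_of_nonneg_left h5 (Nat.cast_nonneg k)
  have h10 : (k : ℝ) * (1 + 1 / G ^ 2 * G ^ 2) = 2 * k := by
    rw [h3]
    ring
  have h11 := h10.le
  calc (k : ℝ) * (1 + 1 / G ^ 2 * G ^ 2) + ((2 ^ lamF q : ℕ) : ℝ) *
        (((k + k * 2 ^ mu q : ℕ) : ℝ) * Real.log 2) / (1 / G ^ 2 * ((2 ^ rhoF q : ℕ) : ℝ))
      ≤ 2 * k + k := add_le_add h11 h6
    _ = 3 * k := by ring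

end Pool.Agent.Lib.SubBisF
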