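import Pool.Agent.Lib.SubBisF.ParF
import Pool.Agent.Lib.SubBisF.Up3

/-!
# The upper bound with the parameters
-/

set_option autoImplicit false

open scoped BigOperators

namespace Pool.Agent.Lib.SubBisF

open Finset SubBis Pool.Agent.Lib.SubBisX.Reg Pool.Agent.Lib.SubBisX.Core
open Pool.Agent.Lib.SubBisX
open Pool.Agent.Lib.SubBisE (mu kap dg Gm)

variable {k : ℕ}

/-- the size of the pool -/
theorem R_big (q : ℕ) :
    (2 : ℝ) ^ lamF q * (1 + 2 ^ mu q) * ((Gm q : ℝ) + 2 * (q : ℝ) ^ 2) ^ 2 ≤ 2 ^ rhoF q := by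
  have h1 : Gm q + 2 * q ^ 2 < 2 ^ (Gm q + 2 * q ^ 2).size := Nat.lt_size_self _
  have h2 : ((Gm q : ℝ) + 2 * (q : ℝ) ^ 2) ≤ 2 ^ (Gm q + 2 * q ^ 2).size := by exact_mod_cast h1.le
  have h3 : ((Gm q : ℝ) + 2 * (q : ℝ) ^ 2) ^ 2 ≤ (2 ^ (Gm q + 2 * q ^ 2).size) ^ 2 :=
    pow_le_pow_left₀ (by positivity) h2 2
  have h4 : (1 : ℝ) + 2 ^ mu q ≤ 2 ^ (mu q + 1) := by
    have : (1 : ℝ) ≤ 2 ^ mu q := one_le_pow₀ (by norm_num)
    rw [pow_succ]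
    linarith
  calc (2 : ℝ) ^ lamF q * (1 + 2 ^ mu q) * ((Gm q : ℝ) + 2 * (q : ℝ) ^ 2) ^ 2
      ≤ 2 ^ lamF q * 2 ^ (mu q + 1) * (2 ^ (Gm q + 2 * q ^ 2).size) ^ 2 := by
        gcongr
    _ = 2 ^ (lamF q + (mu q + 1) + 2 * (Gm q + 2 * q ^ 2).size) := by
        rw [← pow_mul, ← pow_add, ← pow_add, mul_comm _ 2]
    _ ≤ 2 ^ rhoF q := pow_le_pow_right₀ (by norm_num) (by unfold rhoF; omega)

theorem upHyp {q : ℕ} (hq : 1 ≤ q) (F : Finset (Fin k) → ℤ)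
    (hk : ∀ S v, |F (insert v S) - F S| ≤ kap q) (bet : Fin k → Fin (2 ^ lamF q)) :
    UpHyp (2 ^ mu q) (2 ^ lamF q) (2 ^ rhoF q) k (q ^ 2) (MMF q) F bet (3 * k) := by
  have hq0 : (0 : ℝ) < q := by exact_mod_cast hq
  have hc : (0 : ℝ) < ((q ^ 2 : ℕ) : ℝ) := by push_cast; positivity
  set E : ℝ := (q ^ 2 : ℕ) * mu q with hE
  set G : ℝ := E + (q ^ 2 : ℕ) * ((kap q : ℝ) + 1) with hG
  have hE0 : 0 ≤ E := by positivity
  have hG1 : 1 ≤ G := by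
    have h1 : (1 : ℝ) ≤ ((q ^ 2 : ℕ) : ℝ) := by exact_mod_cast Nat.one_le_pow _ _ hq
    have h2 : (0 : ℝ) ≤ (kap q : ℝ) := Nat.cast_nonneg _
    nlinarith
  have hG0 : 0 < G := by linarith
  obtain ⟨UB, hU, hUa⟩ := up_pool (m := 2 ^ mu q) (R := 2 ^ rhoF q) (q ^ 2) (MMF q) F bet
    (E := E) (κ := kap q) (l := 1 / G ^ 2) hE0 (fun u => by
      have := SubBis.abs_ee_le (mu := mu q) (c := q ^ 2) u.2
      have h2 : ((|ee (2 ^ mu q) (q ^ 2) u| : ℤ) : ℝ) ≤ (((q ^ 2 : ℕ) * mu q : ℤ) : ℝ) := by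
        exact_mod_cast this
      rw [hE]
      push_cast at h2 ⊢
      exact h2) (Nat.cast_nonneg _) (fun S v => by exact_mod_cast hk S v) (by positivity) (by
      rw [← hG, div_mul_eq_mul_div, one_mul, div_le_one (by positivity)]
      nlinarith)
  refine ⟨UB, fun D Y h0 h1 h2 => hU D Y h0 h1 fun v I I' h3 h4 => h2 I I' v h3 h4,
    hUa.trans ?_⟩
  rw [← hG]
  have h1 : (1 : ℝ) / G ^ 2 * G ^ 2 = 1 := by field_simp
  have h2 : ((2 ^ lamF q : ℕ) : ℝ) * (((k + k * 2 ^ mu q : ℕ) : ℝ) * Real.log 2) /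
      (1 / G ^ 2 * ((2 ^ rhoF q : ℕ) : ℝ)) ≤ k := by
    have hR : (0 : ℝ) < 2 ^ rhoF q := by positivity
    have hl2 : Real.log 2 ≤ 1 := by
      have := Real.log_two_lt_d9
      linarith
    have hl0 : 0 < Real.log 2 := Real.log_pos (by norm_num)
    rw [div_le_iff₀ (by push_cast; positivity)]
    push_cast
    have h3 : (k : ℝ) * (1 / G ^ 2 * 2 ^ rhoF q) = (k * 2 ^ rhoF q) / G ^ 2 := by ring
    rw [h3, le_div_iff₀ (by positivity)]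
    have h4 := R_big q
    have h5 : G ≤ (Gm q : ℝ) + 2 * (q : ℝ) ^ 2 := by
      rw [hG, hE]
      unfold Gm
      push_cast
      nlinarith [sq_nonneg (q : ℝ)]
    have h6 : G ^ 2 ≤ ((Gm q : ℝ) + 2 * (q : ℝ) ^ 2) ^ 2 := pow_le_pow_left₀ hG0.le h5 2
    have h7 : (2 : ℝ) ^ lamF q * (1 + 2 ^ mu q) * G ^ 2 ≤ 2 ^ rhoF q :=
      (mul_le_mul_of_nonneg_left h6 (by positivity)).trans h4
    have h8 : (0 : ℝ) ≤ 2 ^ lamF q * (k * (1 + 2 ^ mu q)) * G ^ 2 := by positivity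
    calc (2 : ℝ) ^ lamF q * ((k + k * 2 ^ mu q) * Real.log 2) * G ^ 2
        = (2 ^ lamF q * (k * (1 + 2 ^ mu q)) * G ^ 2) * Real.log 2 := by ring
      _ ≤ (2 ^ lamF q * (k * (1 + 2 ^ mu q)) * G ^ 2) * 1 :=
          mul_le_mul_of_nonneg_left hl2 h8
      _ = k * (2 ^ lamF q * (1 + 2 ^ mu q) * G ^ 2) := by ring
      _ ≤ k * 2 ^ rhoF q := mul_le_mul_of_nonneg_left h7 (Nat.cast_nonneg _)
  rw [h1]
  push_cast at h2 ⊢
  linarith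

end Pool.Agent.Lib.SubBisF
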